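import Pool.Agent.L0h34.RO.Main

/-! # Classes with clocks for all oracles -/

set_option autoImplicit false

namespace Pool.Agent.L0h34.RO

open Pool.Agent.L0h34.OM MeasureTheory

/-- The program `u` stops after at most `n ^ c + c` steps on the inputs of length `n`, for all
oracles. -/
def Clocked (u : Prog) (c : ℕ) : Prop := ∀ (R : Oracle) (x : List Bool), ∃ (s t : ℕ) (τ : Store),
  Run R s u (init x) t τ ∧ t ≤ x.length ^ c + c

/-- With the oracle `R` the program `u` has the output `z` for the input `x`. -/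
def Output (R : Oracle) (u : Prog) (x z : List Bool) : Prop := ∃ (s t : ℕ) (τ : Store),
  Run R s u (init x) t τ ∧ τ 0 = z

/-- `f` is computable in polynomial time relative to `R`. -/
def FPU (R : Oracle) (f : List Bool → List Bool) : Prop :=
  ∃ (u : Prog) (c : ℕ), Clocked u c ∧ ∀ x, Output R u x (f x)

/-- At the start of a verification the input is in register `0`, the witness is in register `1`,
and the other registers are empty. -/
def init2 (x w : List Bool) : Store := fun r => if r = 0 then x else if r = 1 then w else []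

/-- The verifier `u` stops after at most `n ^ c + c` steps on the inputs of length `n`, for all
witnesses and all oracles. -/
def ClockedVerifier (u : Prog) (c : ℕ) : Prop := ∀ (R : Oracle) (x w : List Bool),
  ∃ (s t : ℕ) (τ : Store), Run R s u (init2 x w) t τ ∧ t ≤ x.length ^ c + c

/-- With the oracle `R` the verifier `u` accepts the input `x` with some witness. -/
def AcceptsSome (R : Oracle) (u : Prog) (x : List Bool) : Prop :=
  ∃ (w : List Bool) (s t : ℕ) (τ : Store), Run R s u (init2 x w) t τ ∧ τ 0 ≠ []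

/-- The sets of `NP` relative to `R`. -/
def NPU (R : Oracle) (B : Set (List Bool)) : Prop :=
  ∃ (u : Prog) (c : ℕ), ClockedVerifier u c ∧ ∀ x, x ∈ B ↔ AcceptsSome R u x

/-- The program `u` stops and uses space at most `n ^ c + c` on the inputs of length `n`, for all
oracles. -/
def SpaceBounded (u : Prog) (c : ℕ) : Prop := ∀ (R : Oracle) (x : List Bool),
  ∃ (t : ℕ) (τ : Store), Run R (x.length ^ c + c) u (init x) t τ

/-- With the oracle `R` the program `u` accepts the input `x`. -/
def Accepts (R : Oracle) (u : Prog) (x : List Bool) : Prop := ∃ (s t : ℕ) (τ : Store),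
  Run R s u (init x) t τ ∧ τ 0 ≠ []

/-- The sets of `PSPACE` relative to `R`. -/
def PSPACEU (R : Oracle) (B : Set (List Bool)) : Prop :=
  ∃ (u : Prog) (c : ℕ), SpaceBounded u c ∧ ∀ x, x ∈ B ↔ Accepts R u x

/-- `A` is complete for the class `K` under polynomial-time many-one reductions relative to
`R`. -/
def CompleteFor (R : Oracle) (K : Set (List Bool) → Prop) (A : Set (List Bool)) : Prop :=
  K A ∧ ∀ B, K B → ∃ f, FPU R f ∧ ∀ x, x ∈ B ↔ f x ∈ A

/-- `B` is reducible to `A` by a one-one length-increasing function which is computable in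
polynomial time relative to `R`. -/
def OneOneLIU (R : Oracle) (B A : Set (List Bool)) : Prop :=
  ∃ f, FPU R f ∧ Function.Injective f ∧ (∀ x : List Bool, x.length < (f x).length) ∧
    ∀ x, x ∈ B ↔ f x ∈ A

/-! ### Elementary properties -/

theorem Output.unique {R : Oracle} {u : Prog} {x z z' : List Bool} (h : Output R u x z)
    (h' : Output R u x z') : z = z' := by
  obtain ⟨s, t, τ, h1, h2⟩ := h
  obtain ⟨s', t', τ', h1', h2'⟩ := h'
  rw [← h2, ← h2', (h1.det h1').2]

/-- A run depends on few short strings. -/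
theorem run_support {R : Oracle} {s t : ℕ} {u : Prog} {σ τ : Store} (h : Run R s u σ t τ) :
    ∃ Q : Finset (List Bool), Q.card ≤ t ∧ (∀ q ∈ Q, q.length ≤ s) ∧
      ∀ R' : Oracle, (∀ q ∈ Q, R' q = R q) → Run R' s u σ t τ := by
  classical
  obtain ⟨Q, h1, h2⟩ := h.local_card
  refine ⟨Q.filter fun q => q.length ≤ s, (Finset.card_filter_le _ _).trans h1,
    fun q hq => (Finset.mem_filter.1 hq).2, fun R' hR' => ?_⟩
  have h3 := h2 (fun q => if q.length ≤ s then R' q else R q) fun q hq => by
    by_cases hs : q.length ≤ s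
    · simp [hs, hR' q (Finset.mem_filter.2 ⟨hq, hs⟩)]
    · simp [hs]
  exact h3.local_length fun q hq => by simp [hq]

/-- In `t` steps only strings of length at most `t` are given to the oracle. -/
theorem run_local_time {R : Oracle} {s t : ℕ} {u : Prog} {σ τ : Store} (h : Run R s u σ t τ)
    {T : ℕ} (hT : t ≤ T) {R' : Oracle} (hR : ∀ q : List Bool, q.length ≤ T → R' q = R q) :
    Run R' s u σ t τ := by
  induction h with
  | nop σ => exact .nop σ
  | put r b σ h => exact .put r b σ h
  | copy r q σ h => exact .copy r q σ h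
  | ask r q σ h h' => rw [← hR (σ r) (by omega)]; exact .ask r q σ h h'
  | seq _ _ ih1 ih2 => exact .seq (ih1 (by omega)) (ih2 (by omega))
  | take_nil h0 _ ih => exact .take_nil h0 (ih (by omega))
  | take_false h0 _ ih => exact .take_false h0 (ih (by omega))
  | take_true h0 _ ih => exact .take_true h0 (ih (by omega))
  | loop_nil h0 => exact .loop_nil h0
  | loop_cons h0 _ _ ih1 ih2 => exact .loop_cons h0 (ih1 (by omega)) (ih2 (by omega))

/-- The bound for the length of the relevant strings. -/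
def lbd (c n : ℕ) : ℕ := n + 2 * (n ^ c + c)

theorem lbd_mono (c : ℕ) : Monotone (lbd c) := by
  intro n n' h
  have := Nat.pow_le_pow_left h c
  unfold lbd
  omega

theorem acceptsSome_local {u : Prog} {c : ℕ} (hu : ClockedVerifier u c) {R R' : Oracle}
    {x : List Bool} (h : Agree (lbd c x.length) R R') :
    AcceptsSome R' u x ↔ AcceptsSome R u x := by
  have aux : ∀ R R' : Oracle, Agree (lbd c x.length) R R' → AcceptsSome R u x →
      AcceptsSome R' u x := by
    intro R R' h ⟨w, s, t, τ, h1, h2⟩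
    obtain ⟨s', t', τ', h1', h3⟩ := hu R x w
    obtain ⟨rfl, rfl⟩ := h1.det h1'
    exact ⟨w, s, t, τ, run_local_time h1 (h3.trans (by unfold lbd; omega)) h, h2⟩
  exact ⟨aux R' R h.symm, aux R R' h⟩

theorem accepts_local {u : Prog} {c : ℕ} (hu : SpaceBounded u c) {R R' : Oracle}
    {x : List Bool} (h : Agree (lbd c x.length) R R') :
    Accepts R' u x ↔ Accepts R u x := by
  have aux : ∀ R R' : Oracle, Agree (lbd c x.length) R R' → Accepts R u x →
      Accepts R' u x := by
    intro R R' h ⟨s, t, τ, h1, h2⟩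
    obtain ⟨t', τ', h1'⟩ := hu R x
    obtain ⟨rfl, rfl⟩ := h1.det h1'
    refine ⟨_, t, τ, h1'.local_length fun q hq => h q (hq.trans ?_), h2⟩
    unfold lbd
    omega
  exact ⟨aux R' R h.symm, aux R R' h⟩

/-! ### The output function -/

open Classical in
/-- The output of `u`. -/
noncomputable def ev (u : Prog) (R : Oracle) (x : List Bool) : List Bool :=
  if h : ∃ z, Output R u x z then h.choose else []

theorem Output.ev_eq {R : Oracle} {u : Prog} {x z : List Bool} (h : Output R u x z) :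
    ev u R x = z := by
  have h' : ∃ z, Output R u x z := ⟨z, h⟩
  rw [ev, dif_pos h']
  exact h'.choose_spec.unique h

theorem Clocked.output {u : Prog} {c : ℕ} (h : Clocked u c) (R : Oracle) (x : List Bool) :
    Output R u x (ev u R x) := by
  obtain ⟨s, t, τ, h1, _⟩ := h R x
  have h2 : Output R u x (τ 0) := ⟨s, t, τ, h1, rfl⟩
  rw [h2.ev_eq]
  exact h2

theorem Clocked.support {u : Prog} {c : ℕ} (h : Clocked u c) (R : Oracle) (x : List Bool) :
    ∃ Q : Finset (List Bool), Q.card ≤ x.length ^ c + c ∧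
      (∀ q ∈ Q, q.length ≤ x.length + (x.length ^ c + c)) ∧
      ∀ R' : Oracle, (∀ q ∈ Q, R' q = R q) → ev u R' x = ev u R x := by
  obtain ⟨s, t, τ, h1, h2⟩ := h R x
  obtain ⟨Q, h3, h4, h5⟩ := run_support (h1.length_le (init_length x)).2
  refine ⟨Q, h3.trans h2, fun q hq => (h4 q hq).trans (by omega), fun R' hR' => ?_⟩
  have h6 : Output R' u x (τ 0) := ⟨_, t, τ, h5 R' hR', rfl⟩
  have h7 : Output R u x (τ 0) := ⟨_, t, τ, h1, rfl⟩
  rw [h6.ev_eq, h7.ev_eq]

/-! ### The parameters -/

/-- The exponent of the length of the seeds. -/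
def eM (cA cB : ℕ) : ℕ := cA + cB + 3
/-- The exponent of `L`. -/
def eL (cA cB ch : ℕ) : ℕ := (eM cA cB + 3) * (ch + 1) + 2
/-- The additive constant. -/
def cC (cA cB ch : ℕ) : ℕ := cA + cB + ch + eL cA cB ch + 20

theorem par_lb (cA cB ch n : ℕ) :
    lbd cA n + lbd cB n < (n + cC cA cB ch) ^ eM cA cB := by
  obtain ⟨N, hN⟩ : ∃ N, n + cC cA cB ch = N := ⟨_, rfl⟩
  rw [hN]
  have hNn : n + cA + cB + 20 ≤ N := by rw [← hN, cC]; omega
  have h1 : n ^ cA ≤ N ^ (cA + cB + 1) :=
    (Nat.pow_le_pow_left (by omega) _).trans (Nat.pow_le_pow_right (by omega) (by omega))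
  have h2 : n ^ cB ≤ N ^ (cA + cB + 1) :=
    (Nat.pow_le_pow_left (by omega) _).trans (Nat.pow_le_pow_right (by omega) (by omega))
  have h3 : N ≤ N ^ (cA + cB + 1) := Nat.le_self_pow (by omega) _
  have h4 : N ^ eM cA cB = N ^ (cA + cB + 1) * (N * N) := by
    rw [eM, show cA + cB + 3 = (cA + cB + 1) + 2 by ring, pow_add, pow_two]
  rw [h4]
  obtain ⟨X, hX⟩ : ∃ X, N ^ (cA + cB + 1) = X := ⟨_, rfl⟩
  rw [hX] at h1 h2 h3 ⊢
  unfold lbd
  have h5 : 400 ≤ N * N := by nlinarith
  have h6 : X * 400 ≤ X * (N * N) := Nat.mul_le_mul_left _ h5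
  omega

theorem par_tb (cA cB ch n n' : ℕ) (h : n' ≤ n) :
    (4 * (n' + cC cA cB ch) ^ eM cA cB + n' + 3) +
      ((4 * (n' + cC cA cB ch) ^ eM cA cB + n' + 3) ^ ch + ch) <
      (n + cC cA cB ch) ^ eL cA cB ch := by
  obtain ⟨N, hN⟩ : ∃ N, n + cC cA cB ch = N := ⟨_, rfl⟩
  have hNn : n + ch + 20 ≤ N := by rw [← hN, cC]; omega
  have h1 : (n' + cC cA cB ch) ^ eM cA cB ≤ N ^ eM cA cB :=
    Nat.pow_le_pow_left (by omega) _
  have h2 : N ≤ N ^ eM cA cB := Nat.le_self_pow (by rw [eM]; omega) _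
  rw [hN]
  obtain ⟨y, hy⟩ : ∃ y, 4 * (n' + cC cA cB ch) ^ eM cA cB + n' + 3 = y := ⟨_, rfl⟩
  have h3 : y ≤ N ^ (eM cA cB + 3) := by
    rw [pow_add]
    have h4 : 5 ≤ N ^ 3 := by
      calc 5 ≤ N := by omega
        _ ≤ N ^ 3 := Nat.le_self_pow (by omega) _
    have h5 : N ^ eM cA cB * 5 ≤ N ^ eM cA cB * N ^ 3 := Nat.mul_le_mul_left _ h4
    omega
  rw [hy]
  obtain ⟨E, hE⟩ : ∃ E, eM cA cB + 3 = E := ⟨_, rfl⟩
  have hL : eL cA cB ch = E * (ch + 1) + 2 := by rw [eL, hE]
  rw [hE] at h3
  rw [hL]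
  have h6 : y ≤ N ^ (E * (ch + 1)) := h3.trans (Nat.pow_le_pow_right (by omega) (by nlinarith))
  have h7 : y ^ ch ≤ N ^ (E * (ch + 1)) := by
    refine (Nat.pow_le_pow_left h3 ch).trans ?_
    rw [← pow_mul]
    exact Nat.pow_le_pow_right (by omega) (by nlinarith)
  have h8 : N ≤ N ^ (E * (ch + 1)) := Nat.le_self_pow (by
    have : 0 < E * (ch + 1) := Nat.mul_pos (by omega) (by omega)
    omega) _
  rw [pow_add, pow_two]
  obtain ⟨X, hX⟩ : ∃ X, N ^ (E * (ch + 1)) = X := ⟨_, rfl⟩
  rw [hX] at h6 h7 h8 ⊢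
  have h9 : 400 ≤ N * N := by nlinarith
  have h10 : X * 400 ≤ X * (N * N) := Nat.mul_le_mul_left _ h9
  omega

theorem par_num (cA cB ch n : ℕ) : 2 ^ (3 * n + 4) * ((n + cC cA cB ch) ^ eL cA cB ch + 1) ≤
    2 ^ ((n + cC cA cB ch) ^ eM cA cB) := by
  obtain ⟨N, hN⟩ : ∃ N, n + cC cA cB ch = N := ⟨_, rfl⟩
  have hNn : n + eL cA cB ch + 20 ≤ N := by rw [← hN, cC]; omega
  rw [hN]
  obtain ⟨E, hE⟩ : ∃ E, eL cA cB ch = E := ⟨_, rfl⟩
  rw [hE] at hNn ⊢
  have h1 : N ^ E + 1 ≤ 2 ^ (N * E + 1) := by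
    have h2 : N ^ E ≤ 2 ^ (N * E) := by
      rw [pow_mul]
      exact Nat.pow_le_pow_left (Nat.lt_two_pow_self).le _
    have h3 : 1 ≤ 2 ^ (N * E) := Nat.one_le_two_pow
    rw [pow_succ]
    omega
  calc 2 ^ (3 * n + 4) * (N ^ E + 1) ≤ 2 ^ (3 * n + 4) * 2 ^ (N * E + 1) :=
        Nat.mul_le_mul_left _ h1
    _ = 2 ^ (3 * n + 4 + (N * E + 1)) := by rw [← pow_add]
    _ ≤ 2 ^ (N ^ eM cA cB) := by
        refine Nat.pow_le_pow_right (by omega) ?_
        have h4 : N ^ 2 ≤ N ^ eM cA cB := Nat.pow_le_pow_right (by omega) (by rw [eM]; omega)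
        refine le_trans ?_ h4
        have h5 : N * (E + 20) ≤ N * N := Nat.mul_le_mul_left _ (by omega)
        rw [pow_two]
        nlinarith

/-! ### The data -/

/-- A kind of acceptance that depends only on short strings. -/
structure Kind where
  acc : Oracle → Prog → ℕ → List Bool → Prop
  ok : Prog → ℕ → Prop
  local' : ∀ {u : Prog} {c : ℕ}, ok u c → ∀ (R R' : Oracle) (x : List Bool),
    Agree (lbd c x.length) R R' → (acc R' u c x ↔ acc R u c x)

/-- Acceptance by verifiers. -/
def kindNP : Kind where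
  acc R u _ x := AcceptsSome R u x
  ok := ClockedVerifier
  local' h _ _ _ hA := acceptsSome_local h hA

/-- Acceptance by programs with bounded space. -/
def kindPSPACE : Kind where
  acc R u _ x := Accepts R u x
  ok := SpaceBounded
  local' h _ _ _ hA := accepts_local h hA

theorem length_unary_le (x : List Bool) : (unary x).2.length ≤ x.length := by
  have := unary_le x
  omega

/-- The data of the argument. -/
noncomputable def mkData (K : Kind) {uA uB uh : Prog} {cA cB ch : ℕ} (hA : K.ok uA cA)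
    (hB : K.ok uB cB) (hh : Clocked uh ch) : Data where
  oh R z := ev uh R z
  tb n := n ^ ch + ch
  sup R z := hh.support R z
  vA R x := K.acc R uA cA x
  vB R x := K.acc R uB cB (unary x).2
  lb n := lbd cA n + lbd cB n
  lb_mono n n' h := Nat.add_le_add (lbd_mono cA h) (lbd_mono cB h)
  vA_local R R' x h := K.local' hA R R' x (h.mono (Nat.le_add_right _ _))
  vB_local R R' x h := K.local' hB R R' _ (h.mono
    ((lbd_mono cB (length_unary_le x)).trans (Nat.le_add_left _ _)))
  m n := (n + cC cA cB ch) ^ eM cA cB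
  m_mono n n' h := Nat.pow_lt_pow_left (by omega) (by rw [eM]; omega)
  lb_lt n := par_lb cA cB ch n
  L n := (n + cC cA cB ch) ^ eL cA cB ch
  L_mono n n' h := Nat.pow_le_pow_left (by omega) _
  tb_lt n n' h := par_tb cA cB ch n n' h
  num n := par_num cA cB ch n

/-- The instance for `x`. -/
noncomputable def yN (cA cB ch : ℕ) (R : Oracle) (X : List Bool) : List Bool :=
  let m := (X.length + cC cA cB ch) ^ eM cA cB
  let lx := ones ((X.length + cC cA cB ch) ^ eL cA cB ch) ++ false :: X
  let s := rd R tS lx m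
  pack m (!al R s) (be R s) (rd R tC s (3 * m)) X

theorem yx_mkData (K : Kind) {uA uB uh : Prog} {cA cB ch : ℕ} (hA : K.ok uA cA)
    (hB : K.ok uB cB) (hh : Clocked uh ch) (R : Oracle) (X : List Bool) :
    (mkData K hA hB hh).yx R X = yN cA cB ch R X := by
  have h1 : (mkData K hA hB hh).sx R X = rd R tS (ones ((X.length + cC cA cB ch) ^ eL cA cB ch) ++
    false :: X) ((X.length + cC cA cB ch) ^ eM cA cB) := rfl
  unfold yN
  simp only
  rw [← h1, Data.yx, Data.an, ct, Data.length_sx]
  rfl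

theorem ae_eventually_good (d : Data) : ∀ᵐ R ∂randomOracle,
    ∃ N, ∀ n, N ≤ n → d.Good R n := by
  rw [ae_iff]
  refine le_antisymm (ENNReal.le_of_forall_pos_le_add fun ε hε _ => ?_) zero_le
  rw [zero_add]
  have ht : Filter.Tendsto (fun N => (2⁻¹ : ENNReal) ^ N * 2) Filter.atTop (nhds (0 * 2)) :=
    ENNReal.Tendsto.mul_const (ENNReal.tendsto_pow_atTop_nhds_zero_of_lt_one (by norm_num))
      (Or.inr (by norm_num))
  rw [zero_mul] at ht
  obtain ⟨N, hN⟩ := (ht.eventually_lt_const (u := (ε : ENNReal)) (by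
    exact_mod_cast hε)).exists
  refine le_trans (measure_mono fun R hR => ?_) ((d.measure_tail N).trans hN.le)
  simp only [Set.mem_ofPred_eq] at hR
  push Not at hR
  exact hR N

/-- The main result, for a fixed choice of the programs. -/
theorem ae_fixed (K : Kind) (uA uB uh : Prog) (cA cB ch : ℕ) : ∀ᵐ R ∂randomOracle,
    K.ok uA cA → K.ok uB cB → Clocked uh ch →
    (∀ z, TT (fun R x => K.acc R uB cB (unary x).2) R z ↔ K.acc R uA cA (ev uh R z)) →
    ∃ N, (∀ x x' : List Bool, x ≠ x' →
        ev uh R (yN cA cB ch R (ones N ++ false :: x)) ≠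
          ev uh R (yN cA cB ch R (ones N ++ false :: x'))) ∧
      (∀ x : List Bool, x.length < (ev uh R (yN cA cB ch R (ones N ++ false :: x))).length) ∧
      (∀ x : List Bool, K.acc R uB cB x ↔
        K.acc R uA cA (ev uh R (yN cA cB ch R (ones N ++ false :: x)))) := by
  by_cases hA : K.ok uA cA
  swap
  · exact Filter.Eventually.of_forall fun R h => absurd h hA
  by_cases hB : K.ok uB cB
  swap
  · exact Filter.Eventually.of_forall fun R _ h => absurd h hB
  by_cases hh : Clocked uh ch
  swap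
  · exact Filter.Eventually.of_forall fun R _ _ h => absurd h hh
  filter_upwards [(mkData K hA hB hh).ae_not_bad, ae_eventually_good (mkData K hA hB hh)] with
    R h1 h2 _ _ _ hE
  obtain ⟨N1, h1⟩ := h1 hE
  obtain ⟨N2, h2⟩ := h2
  have hlen : ∀ x : List Bool, (ones (max N1 N2) ++ false :: x).length =
      max N1 N2 + 1 + x.length := by
    intro x; simp; omega
  have hinj : ∀ x x' : List Bool, x ≠ x' →
      ones (max N1 N2) ++ false :: x ≠ ones (max N1 N2) ++ false :: x' :=
    fun x x' h h' => h (replicate_append_inj h').2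
  have hm1 := le_max_left N1 N2
  have hm2 := le_max_right N1 N2
  have hbad : ∀ x x' : List Bool, lt (ones (max N1 N2) ++ false :: x')
      (ones (max N1 N2) ++ false :: x) →
      ev uh R (yN cA cB ch R (ones (max N1 N2) ++ false :: x')) ≠
        ev uh R (yN cA cB ch R (ones (max N1 N2) ++ false :: x)) := by
    intro x x' hlt heq
    refine h1 (ones (max N1 N2) ++ false :: x) (by rw [hlen]; omega) (Or.inr
      ⟨ones (max N1 N2) ++ false :: x', by rw [hlen]; omega, hlt, ?_⟩)
    rw [yx_mkData, yx_mkData]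
    exact heq
  refine ⟨max N1 N2, fun x x' hne heq => ?_, fun x => ?_, fun x => ?_⟩
  · rcases lt_or_lt (hinj x x' hne) with h | h
    · exact hbad x' x h heq
    · exact hbad x x' h heq.symm
  · by_contra hcon
    refine h1 (ones (max N1 N2) ++ false :: x) (by rw [hlen]; omega) (Or.inl ?_)
    rw [yx_mkData, hlen]
    exact (not_lt.1 hcon).trans (by omega)
  · have h3 := (mkData K hA hB hh).TT_yx (h2 (ones (max N1 N2) ++ false :: x).length
      (by rw [hlen]; omega))
    rw [yx_mkData] at h3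
    have h4 := hE (yN cA cB ch R (ones (max N1 N2) ++ false :: x))
    have h5 : (mkData K hA hB hh).vB R (ones (max N1 N2) ++ false :: x) ↔ K.acc R uB cB x := by
      show K.acc R uB cB (unary (ones (max N1 N2) ++ false :: x)).2 ↔ _
      rw [ones, unary_replicate]
    rw [← h5, ← h3]
    exact h4

end Pool.Agent.L0h34.RO
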