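import Pool.Agent.L0h34.RO.Loops

/-! # The check of a candidate -/

set_option autoImplicit false

namespace Pool.Agent.L0h34.RO

open Pool.Agent.L0h34.OM Function

variable {G : Oracle} {X W S A C T B D O E P P2 M f1 go K f2 F1 F2 Y : List Bool}

theorem go_rd0 (a b : Bool) (l : List Bool) :
    Go G (.each 4 (rdBody a b) (rdBody a b)) (st [X, W, S, [], l, [], [], [], [], E, P, P2, M, f1, go, K, f2, F1, F2, Y])
      (l.length * (8 * l.length + 8 * S.length + 60) + 1)
      (st [X, W, S, ones l.length, [], [], [], [], rd G [a, b] S l.length, E, P, P2, M, f1, go, K, f2, F1, F2, Y]) := by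
  have h := go_rd (G := G) (X := X) (W := W) (S := S) (O := []) (E := E) (P := P) (P2 := P2)
    (M := M) (f1 := f1) (go := go) (K := K) (f2 := f2) (F1 := F1) (F2 := F2) (Y := Y) a b l 0
  simp only [Nat.zero_add, List.nil_append] at h
  exact h

/-- Compare a bit of the oracle with a bit of the instance. -/
def f1P : Prog := .take 6 .nop (.take 7 .nop .nop (.put 13 true)) (.take 7 (.put 13 true) .nop .nop)
/-- Compare a bit of the oracle with a bit of the instance. -/
def f2P : Prog := .take 6 .nop (.take 7 .nop .nop (.put 16 true)) (.take 7 (.put 16 true) .nop .nop)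

theorem go_f1P (b p : Bool) : Go G f1P (st [X, W, S, A, C, T, [b], cc p, O, E, P, P2, M, [], go, K, f2, F1, F2, Y]) 4
    (st [X, W, S, A, C, T, [], [], O, E, P, P2, M, cc (xor b p), go, K, f2, F1, F2, Y]) := by
  cases b <;> cases p
  · exact (Go.take_false (by simp) rfl (Go.take_nil rfl Go.nop)).mono (by omega)
  · exact (Go.take_false (by simp) rfl (Go.take_true (by simp) rfl (Go.put true (by simp)))).mono
      (by omega)
  · exact (Go.take_true (by simp) rfl (Go.take_nil rfl (Go.put true (by simp)))).mono (by omega)
  · exact (Go.take_true (by simp) rfl (Go.take_true (by simp) rfl Go.nop)).mono (by omega)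

theorem go_f2P (b p : Bool) : Go G f2P (st [X, W, S, A, C, T, [b], cc p, O, E, P, P2, M, f1, go, K, [], F1, F2, Y]) 4
    (st [X, W, S, A, C, T, [], [], O, E, P, P2, M, f1, go, K, cc (xor b p), F1, F2, Y]) := by
  cases b <;> cases p
  · exact (Go.take_false (by simp) rfl (Go.take_nil rfl Go.nop)).mono (by omega)
  · exact (Go.take_false (by simp) rfl (Go.take_true (by simp) rfl (Go.put true (by simp)))).mono
      (by omega)
  · exact (Go.take_true (by simp) rfl (Go.take_nil rfl (Go.put true (by simp)))).mono (by omega)
  · exact (Go.take_true (by simp) rfl (Go.take_true (by simp) rfl Go.nop)).mono (by omega)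

theorem cc_length (b : Bool) : (cc b).length ≤ 1 := by cases b <;> simp [cc]

/-- The check of the candidate in register `2`. -/
def chk : Prog := .seq (.app 15 4 7) (.seq (.app 15 4 7) (.seq (.app 15 4 7) (.seq (.each 4 (rdBody false false) (rdBody false false)) (.seq (.clear 3) (.seq (.copy 0 9) (.seq (.each 8 cmpV cmpW) (.seq (.put 5 false) (.seq (.put 5 true) (.seq (.put 5 true) (.seq (.put 5 false) (.seq (.app 2 5 7) (.seq (.ask 5 6) (.seq (.clear 5) (.seq (.copy 11 7) (.seq f1P (.seq (.put 5 false) (.seq (.put 5 true) (.seq (.put 5 false) (.seq (.app 2 5 7) (.seq (.ask 5 6) (.seq (.clear 5) (.seq (.copy 10 7) f2P))))))))))))))))))))))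

theorem go_chk (p p' : Bool) {k n : ℕ} (hS : S.length = k) (hk : k ≤ n) (hX : X.length ≤ n) :
    Go G chk (st [X, W, S, [], [], [], [], [], [], E, cc p, cc p', [], [], go, ones k, [], F1, F2, []])
      (100 * n * n + 400 * n + 200)
      (st [X, W, S, [], [], [], [], [], [], X.drop (3 * k), cc p, cc p', ones (mm (ct G S) X), cc (xor (be G S) p'), go, ones k, cc (xor (al G S) p), F1, F2, []]) := by
  have g1 : Go G (.app 15 4 7) (st [X, W, S, [], [], [], [], [], [], E, cc p, cc p', [], [], go, ones k, [], F1, F2, []])
      (4 * (ones k : List Bool).length + 2)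
      (st [X, W, S, [], ones k, [], [], [], [], E, cc p, cc p', [], [], go, ones k, [], F1, F2, []]) := Go.app (by simp) (by simp) (by simp)
  have g2 : Go G (.app 15 4 7) (st [X, W, S, [], ones k, [], [], [], [], E, cc p, cc p', [], [], go, ones k, [], F1, F2, []])
      (4 * (ones k : List Bool).length + 2)
      (st [X, W, S, [], ones k ++ ones k, [], [], [], [], E, cc p, cc p', [], [], go, ones k, [], F1, F2, []]) := Go.app (by simp) (by simp) (by simp)
  have g3 : Go G (.app 15 4 7) (st [X, W, S, [], ones k ++ ones k, [], [], [], [], E, cc p, cc p', [], [], go, ones k, [], F1, F2, []])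
      (4 * (ones k : List Bool).length + 2)
      (st [X, W, S, [], ones k ++ ones k ++ ones k, [], [], [], [], E, cc p, cc p', [], [], go, ones k, [], F1, F2, []]) := Go.app (by simp) (by simp) (by simp)
  obtain ⟨l, hl⟩ : ∃ l, ones k ++ ones k ++ ones k = l := ⟨_, rfl⟩
  have hll : l.length = 3 * k := by rw [← hl]; simp [ones]; omega
  rw [hl] at g3
  have g4 : Go G (.each 4 (rdBody false false) (rdBody false false)) (st [X, W, S, [], l, [], [], [], [], E, cc p, cc p', [], [], go, ones k, [], F1, F2, []])
      (l.length * (8 * l.length + 8 * S.length + 60) + 1)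
      (st [X, W, S, ones l.length, [], [], [], [], rd G [false, false] S l.length, E, cc p, cc p', [], [], go, ones k, [], F1, F2, []]) := go_rd0 false false l
  have hct : rd G [false, false] S l.length = ct G S := by rw [ct, hS, hll]; rfl
  rw [hct] at g4
  obtain ⟨c, hc⟩ : ∃ c, ct G S = c := ⟨_, rfl⟩
  have hcl : c.length = 3 * k := by rw [← hc, ct, length_rd, hS]
  rw [hc] at g4 ⊢
  obtain ⟨i, hi⟩ : ∃ i, ones l.length = i := ⟨_, rfl⟩
  have hil : i.length = 3 * k := by rw [← hi]; simp [hll]
  rw [hi] at g4
  have g5 : Go G (.clear 3) (st [X, W, S, i, [], [], [], [], c, E, cc p, cc p', [], [], go, ones k, [], F1, F2, []])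
      (3 * (i : List Bool).length + 1)
      (st [X, W, S, [], [], [], [], [], c, E, cc p, cc p', [], [], go, ones k, [], F1, F2, []]) := Go.clear (by simp)
  have g6 : Go G (.copy 0 9) (st [X, W, S, [], [], [], [], [], c, E, cc p, cc p', [], [], go, ones k, [], F1, F2, []])
      ((X : List Bool).length + 1)
      (st [X, W, S, [], [], [], [], [], c, X, cc p, cc p', [], [], go, ones k, [], F1, F2, []]) := Go.copy (by simp)
  have g7 : Go G (.each 8 cmpV cmpW) (st [X, W, S, [], [], [], [], [], c, X, cc p, cc p', [], [], go, ones k, [], F1, F2, []])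
      (4 * c.length + 1)
      (st [X, W, S, [], [], [], [], [], [], X.drop c.length, cc p, cc p', ones (0 + mm c X), [], go, ones k, [], F1, F2, []]) := go_cmp c 0
  rw [Nat.zero_add, hcl] at g7
  obtain ⟨e, he⟩ : ∃ e, X.drop (3 * k) = e := ⟨_, rfl⟩
  obtain ⟨o, ho⟩ : ∃ o, ones (mm c X) = o := ⟨_, rfl⟩
  rw [he, ho] at g7 ⊢
  have g8 : Go G (.put 5 false) (st [X, W, S, [], [], [], [], [], [], e, cc p, cc p', o, [], go, ones k, [], F1, F2, []])
      (1)
      (st [X, W, S, [], [], [false], [], [], [], e, cc p, cc p', o, [], go, ones k, [], F1, F2, []]) := Go.put false (by simp)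
  have g9 : Go G (.put 5 true) (st [X, W, S, [], [], [false], [], [], [], e, cc p, cc p', o, [], go, ones k, [], F1, F2, []])
      (1)
      (st [X, W, S, [], [], [false, true], [], [], [], e, cc p, cc p', o, [], go, ones k, [], F1, F2, []]) := Go.put true (by simp)
  have g10 : Go G (.put 5 true) (st [X, W, S, [], [], [false, true], [], [], [], e, cc p, cc p', o, [], go, ones k, [], F1, F2, []])
      (1)
      (st [X, W, S, [], [], [false, true, true], [], [], [], e, cc p, cc p', o, [], go, ones k, [], F1, F2, []]) := Go.put true (by simp)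
  have g11 : Go G (.put 5 false) (st [X, W, S, [], [], [false, true, true], [], [], [], e, cc p, cc p', o, [], go, ones k, [], F1, F2, []])
      (1)
      (st [X, W, S, [], [], [false, true, true, false], [], [], [], e, cc p, cc p', o, [], go, ones k, [], F1, F2, []]) := Go.put false (by simp)
  have g12 : Go G (.app 2 5 7) (st [X, W, S, [], [], [false, true, true, false], [], [], [], e, cc p, cc p', o, [], go, ones k, [], F1, F2, []])
      (4 * (S : List Bool).length + 2)
      (st [X, W, S, [], [], [false, true, true, false] ++ S, [], [], [], e, cc p, cc p', o, [], go, ones k, [], F1, F2, []]) := Go.app (by simp) (by simp) (by simp)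
  have g13 : Go G (.ask 5 6) (st [X, W, S, [], [], [false, true, true, false] ++ S, [], [], [], e, cc p, cc p', o, [], go, ones k, [], F1, F2, []])
      ((4 + S.length) + 1)
      (st [X, W, S, [], [], [false, true, true, false] ++ S, [be G S], [], [], e, cc p, cc p', o, [], go, ones k, [], F1, F2, []]) := (Go.ask (by simp)).mono (by simp [st]; omega)
  have g14 : Go G (.clear 5) (st [X, W, S, [], [], [false, true, true, false] ++ S, [be G S], [], [], e, cc p, cc p', o, [], go, ones k, [], F1, F2, []])
      (3 * ([false, true, true, false] ++ S : List Bool).length + 1)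
      (st [X, W, S, [], [], [], [be G S], [], [], e, cc p, cc p', o, [], go, ones k, [], F1, F2, []]) := Go.clear (by simp)
  have g15 : Go G (.copy 11 7) (st [X, W, S, [], [], [], [be G S], [], [], e, cc p, cc p', o, [], go, ones k, [], F1, F2, []])
      ((cc p' : List Bool).length + 1)
      (st [X, W, S, [], [], [], [be G S], cc p', [], e, cc p, cc p', o, [], go, ones k, [], F1, F2, []]) := Go.copy (by simp)
  have g16 : Go G f1P (st [X, W, S, [], [], [], [be G S], cc p', [], e, cc p, cc p', o, [], go, ones k, [], F1, F2, []])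
      (4)
      (st [X, W, S, [], [], [], [], [], [], e, cc p, cc p', o, cc (xor (be G S) p'), go, ones k, [], F1, F2, []]) := go_f1P _ _
  have g17 : Go G (.put 5 false) (st [X, W, S, [], [], [], [], [], [], e, cc p, cc p', o, cc (xor (be G S) p'), go, ones k, [], F1, F2, []])
      (1)
      (st [X, W, S, [], [], [false], [], [], [], e, cc p, cc p', o, cc (xor (be G S) p'), go, ones k, [], F1, F2, []]) := Go.put false (by simp)
  have g18 : Go G (.put 5 true) (st [X, W, S, [], [], [false], [], [], [], e, cc p, cc p', o, cc (xor (be G S) p'), go, ones k, [], F1, F2, []])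
      (1)
      (st [X, W, S, [], [], [false, true], [], [], [], e, cc p, cc p', o, cc (xor (be G S) p'), go, ones k, [], F1, F2, []]) := Go.put true (by simp)
  have g19 : Go G (.put 5 false) (st [X, W, S, [], [], [false, true], [], [], [], e, cc p, cc p', o, cc (xor (be G S) p'), go, ones k, [], F1, F2, []])
      (1)
      (st [X, W, S, [], [], [false, true, false], [], [], [], e, cc p, cc p', o, cc (xor (be G S) p'), go, ones k, [], F1, F2, []]) := Go.put false (by simp)
  have g20 : Go G (.app 2 5 7) (st [X, W, S, [], [], [false, true, false], [], [], [], e, cc p, cc p', o, cc (xor (be G S) p'), go, ones k, [], F1, F2, []])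
      (4 * (S : List Bool).length + 2)
      (st [X, W, S, [], [], [false, true, false] ++ S, [], [], [], e, cc p, cc p', o, cc (xor (be G S) p'), go, ones k, [], F1, F2, []]) := Go.app (by simp) (by simp) (by simp)
  have g21 : Go G (.ask 5 6) (st [X, W, S, [], [], [false, true, false] ++ S, [], [], [], e, cc p, cc p', o, cc (xor (be G S) p'), go, ones k, [], F1, F2, []])
      ((3 + S.length) + 1)
      (st [X, W, S, [], [], [false, true, false] ++ S, [al G S], [], [], e, cc p, cc p', o, cc (xor (be G S) p'), go, ones k, [], F1, F2, []]) := (Go.ask (by simp)).mono (by simp [st]; omega)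
  have g22 : Go G (.clear 5) (st [X, W, S, [], [], [false, true, false] ++ S, [al G S], [], [], e, cc p, cc p', o, cc (xor (be G S) p'), go, ones k, [], F1, F2, []])
      (3 * ([false, true, false] ++ S : List Bool).length + 1)
      (st [X, W, S, [], [], [], [al G S], [], [], e, cc p, cc p', o, cc (xor (be G S) p'), go, ones k, [], F1, F2, []]) := Go.clear (by simp)
  have g23 : Go G (.copy 10 7) (st [X, W, S, [], [], [], [al G S], [], [], e, cc p, cc p', o, cc (xor (be G S) p'), go, ones k, [], F1, F2, []])
      ((cc p : List Bool).length + 1)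
      (st [X, W, S, [], [], [], [al G S], cc p, [], e, cc p, cc p', o, cc (xor (be G S) p'), go, ones k, [], F1, F2, []]) := Go.copy (by simp)
  have g24 : Go G f2P (st [X, W, S, [], [], [], [al G S], cc p, [], e, cc p, cc p', o, cc (xor (be G S) p'), go, ones k, [], F1, F2, []])
      (4)
      (st [X, W, S, [], [], [], [], [], [], e, cc p, cc p', o, cc (xor (be G S) p'), go, ones k, cc (xor (al G S) p), F1, F2, []]) := go_f2P _ _
  refine (g1.seq (g2.seq (g3.seq (g4.seq (g5.seq (g6.seq (g7.seq (g8.seq (g9.seq (g10.seq (g11.seq (g12.seq (g13.seq (g14.seq (g15.seq (g16.seq (g17.seq (g18.seq (g19.seq (g20.seq (g21.seq (g22.seq (g23.seq g24))))))))))))))))))))))).mono ?_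
  clear g24 g23 g22 g21 g20 g19 g18 g17 g16 g15 g14 g13 g12 g11 g10 g9 g8 g7 g6 g5 g4 g3 g2 g1
  have h1 := cc_length p
  have h2 := cc_length p'
  rw [hll, hil, hS]
  simp only [List.length_replicate, ones, List.length_append, List.length_cons, List.length_nil,
    hS]
  have h3 : 3 * k * (8 * (3 * k) + 8 * k + 60) ≤ 3 * n * (8 * (3 * n) + 8 * n + 60) := by gcongr
  have h4 : 3 * n * (8 * (3 * n) + 8 * n + 60) = 96 * (n * n) + 180 * n := by ring
  have h5 : 100 * n * n = 100 * (n * n) := by ring
  obtain ⟨Z, hZ⟩ : ∃ Z, 3 * k * (8 * (3 * k) + 8 * k + 60) = Z := ⟨_, rfl⟩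
  rw [h5]
  rw [h4] at h3
  rw [hZ] at h3 ⊢
  generalize n * n = N2 at h3 ⊢
  generalize (cc p).length = q1 at h1 ⊢
  generalize (cc p').length = q2 at h2 ⊢
  generalize X.length = q3 at hX ⊢
  clear hZ hll hct hcl hil hi hc he ho hS hl h4 h5
  ring_nf
  omega

end Pool.Agent.L0h34.RO
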