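import Pool.Agent.L0h34.RO.Prob

/-! # The combinatorial core -/

set_option autoImplicit false

namespace Pool.Agent.L0h34.RO

open Pool.Agent.L0h34.OM MeasureTheory

/-- The address with tag `τ`, number `t` and suffix `Q`. -/
def adr (τ : List Bool) (t : ℕ) (Q : List Bool) : List Bool := τ ++ (ones t ++ false :: Q)

theorem adr_inj {τ τ' : List Bool} (hτ : τ.length = τ'.length) {t t' : ℕ} {Q Q' : List Bool}
    (h : adr τ t Q = adr τ' t' Q') : τ = τ' ∧ t = t' ∧ Q = Q' := by
  obtain ⟨h1, h2⟩ := List.append_inj h hτ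
  exact ⟨h1, replicate_append_inj h2⟩

theorem length_adr (τ : List Bool) (t : ℕ) (Q : List Bool) :
    (adr τ t Q).length = τ.length + t + 1 + Q.length := by
  simp [adr]; omega

/-- The tag of the seeds. -/
def tS : List Bool := [true, false]
/-- The tag of the spare blocks. -/
def tU : List Bool := [true, true]
/-- The tag of the contents. -/
def tC : List Bool := [false, false]
/-- The tag of the modes. -/
def tM : List Bool := [false, true]

/-- Read `ℓ` bits. -/
def rd (R : Oracle) (τ Q : List Bool) (ℓ : ℕ) : List Bool :=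
  (List.range ℓ).map fun t => R (adr τ t Q)

theorem length_rd (R : Oracle) (τ Q : List Bool) (ℓ : ℕ) : (rd R τ Q ℓ).length = ℓ := by
  simp [rd]

theorem rd_congr {R R' : Oracle} {τ Q : List Bool} {ℓ : ℕ}
    (h : ∀ t < ℓ, R' (adr τ t Q) = R (adr τ t Q)) : rd R' τ Q ℓ = rd R τ Q ℓ := by
  refine List.map_congr_left fun t ht => ?_
  exact h t (List.mem_range.1 ht)

theorem rd_eq_iff {R R' : Oracle} {τ τ' Q Q' : List Bool} {ℓ : ℕ} :
    rd R τ Q ℓ = rd R' τ' Q' ℓ ↔ ∀ t < ℓ, R (adr τ t Q) = R' (adr τ' t Q') := by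
  simp [rd]

/-- The contents of `s`. -/
def ct (R : Oracle) (s : List Bool) : List Bool := rd R tC s (3 * s.length)
/-- The first mode of `s`. -/
def al (R : Oracle) (s : List Bool) : Bool := R (adr tM 0 s)
/-- The second mode of `s`. -/
def be (R : Oracle) (s : List Bool) : Bool := R (adr tM 1 s)

/-- An instance of the masked set. -/
def pack (k : ℕ) (p p' : Bool) (v x : List Bool) : List Bool :=
  ones k ++ false :: p :: p' :: (v ++ x)

theorem length_pack (k : ℕ) (p p' : Bool) (v x : List Bool) :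
    (pack k p p' v x).length = k + 3 + v.length + x.length := by
  simp [pack]; omega

/-- The payload of an instance. -/
def payload (z : List Bool) : List Bool := ((unary z).2.tail.tail).drop (3 * (unary z).1)

/-- The masked set, for the set `vB`. -/
def TT (vB : Oracle → List Bool → Prop) (R : Oracle) (z : List Bool) : Prop :=
  ∃ s : List Bool, s.length = (unary z).1 ∧
    ct R s = ((unary z).2.tail.tail).take (3 * (unary z).1) ∧
    ((vB R (payload z) ∧ al R s ≠ (unary z).2.headD false) ∨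
      be R s ≠ (unary z).2.tail.headD false)

theorem TT_pack {vB : Oracle → List Bool → Prop} {R : Oracle} {k : ℕ} {p p' : Bool}
    {v x : List Bool} (hv : v.length = 3 * k) : TT vB R (pack k p p' v x) ↔
      ∃ s : List Bool, s.length = k ∧ ct R s = v ∧
        ((vB R x ∧ al R s ≠ p) ∨ be R s ≠ p') := by
  have h1 : unary (pack k p p' v x) = (k, p :: p' :: (v ++ x)) := unary_replicate _ _
  have h2 : (v ++ x).take (3 * k) = v := by rw [← hv]; simp
  have h3 : (v ++ x).drop (3 * k) = x := by rw [← hv]; simp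
  simp only [TT, payload, h1, List.tail_cons, h2, h3, List.headD_cons]

/-- The places that belong to `σ`. -/
def loc (σ : List Bool) : Set (List Bool) := {q | ∃ t, q = adr tC t σ ∨ q = adr tM t σ}

theorem loc_disjoint {σ σ' q : List Bool} (h : q ∈ loc σ) (h' : q ∈ loc σ') : σ = σ' := by
  obtain ⟨t, h1⟩ := h
  obtain ⟨t', h2⟩ := h'
  rcases h1 with h1 | h1 <;> rcases h2 with h2 | h2 <;> rw [h1] at h2 <;>
    exact (adr_inj (by rfl) h2).2.2

/-- The order of the strings. -/
def lt (x x' : List Bool) : Prop := x.length < x'.length ∨ (x.length = x'.length ∧ x < x')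

theorem lt_or_lt {x x' : List Bool} (h : x ≠ x') : lt x x' ∨ lt x' x := by
  rcases Nat.lt_trichotomy x.length x'.length with h1 | h1 | h1
  · exact Or.inl (Or.inl h1)
  · rcases lt_trichotomy x x' with h2 | h2 | h2
    · exact Or.inl (Or.inr ⟨h1, h2⟩)
    · exact absurd h2 h
    · exact Or.inr (Or.inr ⟨h1.symm, h2⟩)
  · exact Or.inr (Or.inl h1)

theorem lt.ne {x x' : List Bool} (h : lt x x') : x ≠ x' := by
  rintro rfl
  rcases h with h | h
  · exact lt_irrefl _ h
  · exact lt_irrefl _ h.2

theorem lt.trans {x x' x'' : List Bool} (h : lt x x') (h' : lt x' x'') : lt x x'' := by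
  rcases h with h | h <;> rcases h' with h' | h'
  · exact Or.inl (h.trans h')
  · exact Or.inl (by omega)
  · exact Or.inl (by omega)
  · exact Or.inr ⟨h.1.trans h'.1, h.2.trans h'.2⟩

theorem lt.le {x x' : List Bool} (h : lt x x') : x.length ≤ x'.length := by
  rcases h with h | h <;> omega

/-- The data of the argument: `oh` is the output of the reduction, `tb` bounds its time. -/
structure Data where
  oh : Oracle → List Bool → List Bool
  tb : ℕ → ℕ
  sup : ∀ R z, ∃ Q : Finset (List Bool), Q.card ≤ tb z.length ∧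
    (∀ q ∈ Q, q.length ≤ z.length + tb z.length) ∧
    ∀ R' : Oracle, (∀ q ∈ Q, R' q = R q) → oh R' z = oh R z
  vA : Oracle → List Bool → Prop
  vB : Oracle → List Bool → Prop
  lb : ℕ → ℕ
  lb_mono : Monotone lb
  vA_local : ∀ R R' x, Agree (lb x.length) R R' → (vA R' x ↔ vA R x)
  vB_local : ∀ R R' x, Agree (lb x.length) R R' → (vB R' x ↔ vB R x)
  m : ℕ → ℕ
  m_mono : StrictMono m
  lb_lt : ∀ n, lb n < m n
  L : ℕ → ℕ
  L_mono : Monotone L
  tb_lt : ∀ n n', n' ≤ n → (4 * m n' + n' + 3) + tb (4 * m n' + n' + 3) < L n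
  num : ∀ n, 2 ^ (3 * n + 4) * (L n + 1) ≤ 2 ^ m n

namespace Data

variable (d : Data)

/-- The suffix of the private addresses of `x`. -/
def lx (x : List Bool) : List Bool := ones (d.L x.length) ++ false :: x

theorem lx_inj {x x' : List Bool} (h : d.lx x = d.lx x') : x = x' := (replicate_append_inj h).2

theorem length_lx (x : List Bool) : (d.lx x).length = d.L x.length + 1 + x.length := by
  simp [lx]; omega

/-- The seed of `x`. -/
def sx (R : Oracle) (x : List Bool) : List Bool := rd R tS (d.lx x) (d.m x.length)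

theorem length_sx (R : Oracle) (x : List Bool) : (d.sx R x).length = d.m x.length :=
  length_rd _ _ _ _

/-- The instance for `x` with the bits `p` and `p'`. -/
def an (R : Oracle) (p p' : Bool) (x : List Bool) : List Bool :=
  pack (d.m x.length) p p' (ct R (d.sx R x)) x

theorem length_ct_sx (R : Oracle) (x : List Bool) :
    (ct R (d.sx R x)).length = 3 * d.m x.length := by
  rw [ct, length_rd, length_sx]

theorem length_an (R : Oracle) (p p' : Bool) (x : List Bool) :
    (d.an R p p' x).length = 4 * d.m x.length + x.length + 3 := by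
  rw [an, length_pack, length_ct_sx]; ring

/-- The instance that is used for `x`. -/
def yx (R : Oracle) (x : List Bool) : List Bool :=
  d.an R (!al R (d.sx R x)) (be R (d.sx R x)) x

/-- The reduction is correct. -/
def E (R : Oracle) : Prop := ∀ z, (TT d.vB R z ↔ d.vA R (d.oh R z))

/-- The output for `z` does not depend on the places of `σ`. -/
def NQ (R : Oracle) (z σ : List Bool) : Prop :=
  ∀ R' : Oracle, (∀ q, q ∉ loc σ → R' q = R q) → d.oh R' z = d.oh R z

/-- The oracle is typical at the level `n`. -/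
structure Good (R : Oracle) (n : ℕ) : Prop where
  uniq : ∀ s s' : List Bool, s.length = d.m n → s'.length = d.m n → ct R s = ct R s' → s = s'
  dist : ∀ x x' : List Bool, x.length = n → x'.length = n → d.sx R x = d.sx R x' → x = x'
  nq : ∀ x : List Bool, x.length = n → ∀ x' : List Bool, x'.length ≤ n → ∀ p p' : Bool,
    d.NQ R (d.an R p p' x') (d.sx R x)

/-- The reduction fails to be one-one and length-increasing at `x`. -/
def Bad (N : ℕ) (R : Oracle) (x : List Bool) : Prop :=
  (d.oh R (d.yx R x)).length ≤ x.length ∨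
    ∃ x', N ≤ x'.length ∧ lt x' x ∧ d.oh R (d.yx R x') = d.oh R (d.yx R x)

open Classical in
/-- The address that is flipped. -/
noncomputable def fa (R : Oracle) (x : List Bool) : List Bool :=
  if d.vB R x then adr tM 0 (d.sx R x) else adr tM 1 (d.sx R x)

/-- The two oracles differ only in modes. -/
def Modes (R R' : Oracle) : Prop := ∀ q, (∀ t Q, q ≠ adr tM t Q) → R' q = R q

theorem Modes.symm {R R' : Oracle} (h : Modes R R') : Modes R' R := fun q hq => (h q hq).symm

theorem modes_flip (R : Oracle) (t : ℕ) (Q : List Bool) : Modes R (OM.flip R (adr tM t Q)) := by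
  intro q hq
  simp [OM.flip, hq t Q]

theorem modes_fa (R : Oracle) (x : List Bool) : Modes R (OM.flip R (d.fa R x)) := by
  unfold fa
  split_ifs <;> exact modes_flip _ _ _

theorem Modes.ct {R R' : Oracle} (h : Modes R R') (s : List Bool) : ct R' s = ct R s :=
  rd_congr fun t _ => h _ fun t' Q' h' => by
    have := (adr_inj (by rfl) h').1
    simp [tC, tM] at this

theorem Modes.sx {R R' : Oracle} (h : Modes R R') (x : List Bool) : d.sx R' x = d.sx R x :=
  rd_congr fun t _ => h _ fun t' Q' h' => by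
    have := (adr_inj (by rfl) h').1
    simp [tS, tM] at this

theorem Modes.an {R R' : Oracle} (h : Modes R R') (p p' : Bool) (x : List Bool) :
    d.an R' p p' x = d.an R p p' x := by
  rw [Data.an, Data.an, h.sx d, h.ct]

theorem fa_length (R : Oracle) (x : List Bool) : d.lb x.length < (d.fa R x).length := by
  have h1 := d.lb_lt x.length
  unfold fa
  split_ifs <;> rw [length_adr, length_sx] <;> omega

theorem agree_flip (R : Oracle) {a : List Bool} {N : ℕ} (h : N < a.length) :
    Agree N R (OM.flip R a) := by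
  intro q hq
  have : q ≠ a := by rintro rfl; omega
  simp [OM.flip, this]

theorem flip_flip (R : Oracle) (a : List Bool) : OM.flip (OM.flip R a) a = R := by
  funext q
  by_cases h : q = a <;> simp [OM.flip, h]

theorem fa_flip (R : Oracle) (x : List Bool) : d.fa (OM.flip R (d.fa R x)) x = d.fa R x := by
  have h1 := (d.modes_fa R x).sx d x
  have h2 := d.vB_local R _ x (agree_flip R (d.fa_length R x))
  obtain ⟨R', hR'⟩ : ∃ R', OM.flip R (d.fa R x) = R' := ⟨_, rfl⟩
  rw [hR'] at h1 h2 ⊢
  by_cases hv : d.vB R x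
  · rw [fa, fa, if_pos hv, if_pos (h2.2 hv), h1]
  · rw [fa, fa, if_neg hv, if_neg (fun h => hv (h2.1 h)), h1]

theorem al_flip_of_ne {R : Oracle} {t : ℕ} {s s' : List Bool} (h : s ≠ s') :
    al (OM.flip R (adr tM t s')) s = al R s := by
  have : adr tM 0 s ≠ adr tM t s' := fun h' => h (adr_inj rfl h').2.2
  simp [al, OM.flip, this]

theorem be_flip_of_ne {R : Oracle} {t : ℕ} {s s' : List Bool} (h : s ≠ s') :
    be (OM.flip R (adr tM t s')) s = be R s := by
  have : adr tM 1 s ≠ adr tM t s' := fun h' => h (adr_inj rfl h').2.2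
  simp [be, OM.flip, this]

theorem al_fa_of_ne {R : Oracle} {x s : List Bool} (h : s ≠ d.sx R x) :
    al (OM.flip R (d.fa R x)) s = al R s := by
  unfold fa
  split_ifs <;> exact al_flip_of_ne h

theorem be_fa_of_ne {R : Oracle} {x s : List Bool} (h : s ≠ d.sx R x) :
    be (OM.flip R (d.fa R x)) s = be R s := by
  unfold fa
  split_ifs <;> exact be_flip_of_ne h

theorem flip_off_loc {R : Oracle} {x : List Bool} :
    ∀ q, q ∉ loc (d.sx R x) → OM.flip R (d.fa R x) q = R q := by
  intro q hq
  have : q ≠ d.fa R x := by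
    rintro rfl
    apply hq
    unfold fa
    split_ifs
    · exact ⟨0, Or.inr rfl⟩
    · exact ⟨1, Or.inr rfl⟩
  simp [OM.flip, this]

/-- The value of an instance whose contents occur only once. -/
theorem TT_an {R R2 : Oracle} {x : List Bool} (hct : ∀ s, ct R s = ct R2 s)
    (huniq : ∀ s s' : List Bool, s.length = d.m x.length → s'.length = d.m x.length →
      ct R2 s = ct R2 s' → s = s') (p p' : Bool) :
    TT d.vB R (d.an R2 p p' x) ↔
      ((d.vB R x ∧ al R (d.sx R2 x) ≠ p) ∨ be R (d.sx R2 x) ≠ p') := by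
  rw [an, TT_pack (d.length_ct_sx R2 x)]
  constructor
  · rintro ⟨s, hs, hs2, hs3⟩
    rw [hct] at hs2
    have := huniq _ _ hs (d.length_sx R2 x) hs2
    rw [← this]
    exact hs3
  · intro h
    exact ⟨d.sx R2 x, d.length_sx R2 x, hct _, h⟩

theorem TT_yx {R : Oracle} {x : List Bool} (h : d.Good R x.length) :
    TT d.vB R (d.yx R x) ↔ d.vB R x := by
  rw [yx, d.TT_an (fun _ => rfl) h.uniq]
  simp

/-- The key lemma. -/
theorem key {R2 R3 : Oracle} {x4 : List Bool} {N : ℕ} (hE : d.E R2)
    (hG : ∀ n, N ≤ n → d.Good R2 n) (hx4 : N ≤ x4.length) (hbad : d.Bad N R2 x4)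
    (hct : ∀ s, ct R3 s = ct R2 s)
    (hm : ∀ x, (x = x4 ∨ lt x x4) → N ≤ x.length →
      al R3 (d.sx R2 x) = al (OM.flip R2 (d.fa R2 x4)) (d.sx R2 x) ∧
      be R3 (d.sx R2 x) = be (OM.flip R2 (d.fa R2 x4)) (d.sx R2 x))
    (hB : ∀ x : List Bool, x.length ≤ x4.length → (d.vB R3 x ↔ d.vB R2 x))
    (hA : ∀ x : List Bool, x.length ≤ x4.length → (d.vA R3 x ↔ d.vA R2 x))
    (ho : ∀ x : List Bool, x.length ≤ x4.length → ∀ p p' : Bool,
      d.oh R3 (d.an R2 p p' x) = d.oh R2 (d.an R2 p p' x)) : ¬ d.E R3 := by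
  intro hE3
  have hG4 := hG _ hx4
  -- the value of the instance for `x4` is wrong
  have hT4 : TT d.vB R3 (d.yx R2 x4) ↔ ¬ d.vB R2 x4 := by
    rw [yx, d.TT_an hct hG4.uniq, (hm x4 (Or.inl rfl) hx4).1, (hm x4 (Or.inl rfl) hx4).2,
      hB _ le_rfl]
    by_cases hv : d.vB R2 x4
    · have h1 : al (OM.flip R2 (d.fa R2 x4)) (d.sx R2 x4) = !al R2 (d.sx R2 x4) := by
        simp [al, OM.flip, fa, hv]
      have h2 : be (OM.flip R2 (d.fa R2 x4)) (d.sx R2 x4) = be R2 (d.sx R2 x4) := by
        have : adr tM 1 (d.sx R2 x4) ≠ adr tM 0 (d.sx R2 x4) := fun h => by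
          have := (adr_inj rfl h).2.1
          omega
        simp [be, OM.flip, fa, hv, this]
      rw [h1, h2]
      simp [hv]
    · have h2 : be (OM.flip R2 (d.fa R2 x4)) (d.sx R2 x4) = !be R2 (d.sx R2 x4) := by
        simp [be, OM.flip, fa, hv]
      rw [h2]
      simp [hv]
  have h4 := hE (d.yx R2 x4)
  rw [d.TT_yx hG4] at h4
  have h5 := hE3 (d.yx R2 x4)
  rw [hT4, yx, ho _ le_rfl, ← yx] at h5
  rcases hbad with hbad | ⟨x3, hx3, hlt, heq⟩
  · rw [hA _ hbad, ← h4] at h5
    tauto
  · have hG3 := hG _ hx3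
    have hne : d.sx R2 x3 ≠ d.sx R2 x4 := by
      intro h
      have h6 : d.m x3.length = d.m x4.length := by
        rw [← d.length_sx R2 x3, ← d.length_sx R2 x4, h]
      have h7 := d.m_mono.injective h6
      exact hlt.ne (hG4.dist _ _ h7 rfl h)
    have hT3 : TT d.vB R3 (d.yx R2 x3) ↔ d.vB R2 x3 := by
      rw [yx, d.TT_an hct hG3.uniq, (hm x3 (Or.inr hlt) hx3).1, (hm x3 (Or.inr hlt) hx3).2,
        hB _ hlt.le, d.al_fa_of_ne hne, d.be_fa_of_ne hne]
      simp
    have h6 := hE (d.yx R2 x3)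
    rw [d.TT_yx hG3] at h6
    have h7 := hE3 (d.yx R2 x3)
    rw [hT3, yx, ho _ hlt.le, ← yx] at h7
    rw [heq] at h6 h7
    tauto

/-- Flipping the answer at the address of a bad string makes the reduction wrong. -/
theorem not_E_flip {R : Oracle} {x : List Bool} {N : ℕ} (hE : d.E R)
    (hG : ∀ n, N ≤ n → d.Good R n) (hx : N ≤ x.length) (hbad : d.Bad N R x) :
    ¬ d.E (OM.flip R (d.fa R x)) := by
  have hag := agree_flip R (d.fa_length R x)
  refine d.key hE hG hx hbad (fun s => (d.modes_fa R x).ct s) (fun _ _ _ => ⟨rfl, rfl⟩)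
    (fun x' hx' => d.vB_local R _ x' (hag.mono (d.lb_mono hx')))
    (fun x' hx' => d.vA_local R _ x' (hag.mono (d.lb_mono hx'))) fun x' hx' p p' => ?_
  exact (hG _ hx).nq x rfl x' hx' p p' _ d.flip_off_loc

/-- The flips for different bad strings lead to different oracles. -/
theorem flip_ne {R1 R2 : Oracle} {x2 x4 : List Bool} {N : ℕ} (hE1 : d.E R1)
    (hG1 : ∀ n, N ≤ n → d.Good R1 n) (hx2 : N ≤ x2.length) (hE : d.E R2)
    (hG : ∀ n, N ≤ n → d.Good R2 n) (hx4 : N ≤ x4.length) (hbad : d.Bad N R2 x4)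
    (hlt : lt x4 x2) : OM.flip R1 (d.fa R1 x2) ≠ OM.flip R2 (d.fa R2 x4) := by
  intro heq
  have hag := agree_flip R2 (d.fa_length R2 x4)
  have hag1 := agree_flip R1 (d.fa_length R1 x2)
  have hM := (d.modes_fa R2 x4)
  have hM1 := (d.modes_fa R1 x2)
  have hct : ∀ s, ct R1 s = ct R2 s := by
    intro s
    rw [← hM1.ct, heq, hM.ct]
  have hsx : ∀ x, d.sx R1 x = d.sx R2 x := by
    intro x
    rw [← hM1.sx d, heq, hM.sx d]
  have han : ∀ p p' x, d.an R1 p p' x = d.an R2 p p' x := by
    intro p p' x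
    rw [an, an, hsx, hct]
  refine d.key hE hG hx4 hbad hct ?_ ?_ ?_ ?_ hE1
  · intro x hx hxN
    have hlt' : lt x x2 := by
      rcases hx with rfl | hx
      · exact hlt
      · exact hx.trans hlt
    have hne : d.sx R2 x ≠ d.sx R1 x2 := by
      intro h
      rw [hsx] at h
      have h6 : d.m x.length = d.m x2.length := by
        rw [← d.length_sx R2 x, ← d.length_sx R2 x2, h]
      have h7 := d.m_mono.injective h6
      rw [← hsx, ← hsx] at h
      exact hlt'.ne ((hG1 _ hx2).dist _ _ h7 rfl h)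
    rw [← heq, d.al_fa_of_ne hne, d.be_fa_of_ne hne]
    exact ⟨rfl, rfl⟩
  · intro x hx
    rw [← d.vB_local R1 _ x (hag1.mono (d.lb_mono (hx.trans hlt.le))), heq,
      d.vB_local R2 _ x (hag.mono (d.lb_mono hx))]
  · intro x hx
    rw [← d.vA_local R1 _ x (hag1.mono (d.lb_mono (hx.trans hlt.le))), heq,
      d.vA_local R2 _ x (hag.mono (d.lb_mono hx))]
  · intro x hx p p'
    have h1 := (hG1 _ hx2).nq x2 rfl x (hx.trans hlt.le) p p' _ d.flip_off_loc
    rw [han] at h1
    rw [← h1, heq]
    exact (hG _ hx4).nq x4 rfl x hx p p' _ d.flip_off_loc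

end Data

end Pool.Agent.L0h34.RO
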