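import Pool.Agent.L0h34.RO.Core

/-! # Predicates of oracles that depend only on short strings -/

set_option autoImplicit false

namespace Pool.Agent.L0h34.RO

open Pool.Agent.L0h34.OM MeasureTheory

/-- `P` depends only on the strings of length at most `N`. -/
def Lc (N : ℕ) (P : Oracle → Prop) : Prop := ∀ R R', Agree N R R' → P R → P R'

theorem Lc.iff {N : ℕ} {P : Oracle → Prop} (h : Lc N P) {R R' : Oracle} (hA : Agree N R R') :
    P R ↔ P R' := ⟨h R R' hA, h R' R hA.symm⟩

theorem Lc.meas {N : ℕ} {P : Oracle → Prop} (h : Lc N P) : MeasurableSet {R | P R} :=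
  measurable_of_local N h

theorem Lc.mono {N N' : ℕ} {P : Oracle → Prop} (h : Lc N P) (hN : N ≤ N') : Lc N' P :=
  fun R R' hA => h R R' (hA.mono hN)

theorem Lc.of_iff {N : ℕ} {P : Oracle → Prop} (h : ∀ R R', Agree N R R' → (P R ↔ P R')) :
    Lc N P := fun R R' hA => (h R R' hA).1

theorem Lc.not {N : ℕ} {P : Oracle → Prop} (h : Lc N P) : Lc N fun R => ¬ P R :=
  .of_iff fun _ _ hA => not_congr (h.iff hA)

theorem Lc.and {N : ℕ} {P Q : Oracle → Prop} (h : Lc N P) (h' : Lc N Q) :
    Lc N fun R => P R ∧ Q R := .of_iff fun _ _ hA => and_congr (h.iff hA) (h'.iff hA)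

theorem Lc.or {N : ℕ} {P Q : Oracle → Prop} (h : Lc N P) (h' : Lc N Q) :
    Lc N fun R => P R ∨ Q R := .of_iff fun _ _ hA => or_congr (h.iff hA) (h'.iff hA)

theorem Lc.imp {N : ℕ} {P Q : Oracle → Prop} (h : Lc N P) (h' : Lc N Q) :
    Lc N fun R => P R → Q R := .of_iff fun _ _ hA => imp_congr (h.iff hA) (h'.iff hA)

theorem Lc.all {α : Sort*} {N : ℕ} {P : α → Oracle → Prop} (h : ∀ a, Lc N (P a)) :
    Lc N fun R => ∀ a, P a R := .of_iff fun _ _ hA => forall_congr' fun a => (h a).iff hA

theorem Lc.ex {α : Sort*} {N : ℕ} {P : α → Oracle → Prop} (h : ∀ a, Lc N (P a)) :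
    Lc N fun R => ∃ a, P a R := .of_iff fun _ _ hA => exists_congr fun a => (h a).iff hA

theorem Lc.const {N : ℕ} (p : Prop) : Lc N fun _ => p := fun _ _ _ h => h

theorem rd_local {N ℓ : ℕ} {τ Q : List Bool} {R R' : Oracle} (h : Agree N R R')
    (hN : τ.length + ℓ + Q.length ≤ N) : rd R' τ Q ℓ = rd R τ Q ℓ :=
  rd_congr fun t ht => h _ (by rw [length_adr]; omega)

theorem ct_local {N : ℕ} {s : List Bool} {R R' : Oracle} (h : Agree N R R')
    (hN : 4 * s.length + 2 ≤ N) : ct R' s = ct R s := rd_local h (by simp [tC]; omega)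

theorem al_local {N : ℕ} {s : List Bool} {R R' : Oracle} (h : Agree N R R')
    (hN : s.length + 4 ≤ N) : al R' s = al R s := h _ (by rw [length_adr]; simp [tM]; omega)

theorem be_local {N : ℕ} {s : List Bool} {R R' : Oracle} (h : Agree N R R')
    (hN : s.length + 4 ≤ N) : be R' s = be R s := h _ (by rw [length_adr]; simp [tM]; omega)

namespace Data

variable (d : Data)

theorem oh_local {N : ℕ} {z : List Bool} {R R' : Oracle} (h : Agree N R R')
    (hN : z.length + d.tb z.length ≤ N) : d.oh R' z = d.oh R z := by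
  obtain ⟨Q, _, h2, h3⟩ := d.sup R z
  exact h3 R' fun q hq => h q ((h2 q hq).trans hN)

theorem NQ_local {N : ℕ} {z σ : List Bool} (hN : z.length + d.tb z.length ≤ N) :
    Lc N fun R => d.NQ R z σ := by
  classical
  intro R R' hA h R'' hR''
  have h1 : d.oh (fun q => if q ∈ loc σ then R'' q else R q) z = d.oh R z :=
    h _ fun q hq => by simp [hq]
  have h2 : d.oh (fun q => if q ∈ loc σ then R'' q else R q) z = d.oh R'' z := by
    refine d.oh_local (N := N) (fun q hq => ?_) hN
    by_cases hl : q ∈ loc σ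
    · simp [hl]
    · simp only [hl, if_false]
      rw [hR'' q hl, hA q hq]
  rw [← h2, h1, d.oh_local hA hN]

/-- A bound for the lengths of the relevant strings at the level `n`. -/
def bd (n : ℕ) : ℕ := d.L n + 5 * d.m n + n + 10

theorem bd_mono : Monotone d.bd := by
  intro n n' h
  have h1 := d.L_mono h
  have h2 := d.m_mono.monotone h
  unfold bd
  omega

theorem sx_local {n : ℕ} {x : List Bool} (hx : x.length ≤ n) {R R' : Oracle}
    (h : Agree (d.bd n) R R') : d.sx R' x = d.sx R x := by
  refine rd_local h ?_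
  have h1 := d.L_mono hx
  have h2 := d.m_mono.monotone hx
  rw [length_lx]
  simp only [tS, List.length_cons, List.length_nil, bd]
  omega

theorem an_local {n : ℕ} {x : List Bool} (hx : x.length ≤ n) {R R' : Oracle}
    (h : Agree (d.bd n) R R') (p p' : Bool) : d.an R' p p' x = d.an R p p' x := by
  have h2 := d.m_mono.monotone hx
  rw [an, an, d.sx_local hx h, ct_local h (by rw [length_sx, bd]; omega)]

theorem yx_local {n : ℕ} {x : List Bool} (hx : x.length ≤ n) {R R' : Oracle}
    (h : Agree (d.bd n) R R') : d.yx R' x = d.yx R x := by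
  have h2 := d.m_mono.monotone hx
  rw [yx, yx, d.an_local hx h, d.sx_local hx h, al_local h (by rw [length_sx, bd]; omega),
    be_local h (by rw [length_sx, bd]; omega)]

theorem an_bound {n : ℕ} {x : List Bool} (hx : x.length ≤ n) (R : Oracle) (p p' : Bool) :
    (d.an R p p' x).length + d.tb (d.an R p p' x).length < d.L n := by
  rw [length_an]
  exact d.tb_lt _ _ hx

theorem Good_local (n : ℕ) : Lc (d.bd n) fun R => d.Good R n := by
  intro R R' hA h
  refine ⟨fun s s' hs hs' h1 => ?_, fun x x' hx hx' h1 => ?_, fun x hx x' hx' p p' => ?_⟩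
  · rw [ct_local hA (by rw [hs, bd]; omega), ct_local hA (by rw [hs', bd]; omega)] at h1
    exact h.uniq s s' hs hs' h1
  · rw [d.sx_local hx.le hA, d.sx_local hx'.le hA] at h1
    exact h.dist x x' hx hx' h1
  · rw [d.sx_local hx.le hA, d.an_local hx' hA]
    refine d.NQ_local ?_ R R' hA (h.nq x hx x' hx' p p')
    have := d.an_bound hx' R p p'
    rw [bd]
    omega

theorem Bad_local (N : ℕ) (x : List Bool) : Lc (d.bd x.length) fun R => d.Bad N R x := by
  intro R R' hA h
  have ho : ∀ x' : List Bool, x'.length ≤ x.length → d.oh R' (d.yx R' x') = d.oh R (d.yx R x') := by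
    intro x' hx'
    rw [d.yx_local hx' hA]
    refine d.oh_local hA ?_
    have := d.an_bound hx' R (!al R (d.sx R x')) (be R (d.sx R x'))
    rw [yx, bd]
    omega
  rcases h with h | ⟨x', h1, h2, h3⟩
  · left
    rw [ho x le_rfl]
    exact h
  · right
    refine ⟨x', h1, h2, ?_⟩
    rw [ho x' h2.le, ho x le_rfl]
    exact h3

theorem fa_local (x a : List Bool) : Lc (d.bd x.length) fun R => d.fa R x = a := by
  intro R R' hA h
  have h1 := d.vB_local R R' x (hA.mono (by have := d.lb_lt x.length; rw [bd]; omega))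
  have h2 := d.sx_local le_rfl hA (x := x)
  rw [← h]
  by_cases hv : d.vB R x
  · rw [fa, fa, if_pos hv, if_pos (h1.2 hv), h2]
  · rw [fa, fa, if_neg hv, if_neg (fun h => hv (h1.1 h)), h2]

theorem TT_local (z : List Bool) :
    Lc (4 * (unary z).1 + 4 + d.lb (payload z).length) fun R => TT d.vB R z := by
  intro R R' hA h
  obtain ⟨s, h1, h2, h3⟩ := h
  refine ⟨s, h1, ?_, ?_⟩
  · rw [ct_local hA (by omega)]
    exact h2
  · rw [al_local hA (by omega), be_local hA (by omega),
      d.vB_local R R' _ (hA.mono (by omega))]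
    exact h3

theorem measurable_E : MeasurableSet {R | d.E R} := by
  have : {R | d.E R} = ⋂ z, ⋂ ζ, {R | d.oh R z = ζ → (TT d.vB R z ↔ d.vA R ζ)} := by
    ext R; simp [E]
  rw [this]
  refine MeasurableSet.iInter fun z => MeasurableSet.iInter fun ζ => Lc.meas
    (N := (z.length + d.tb z.length) + (4 * (unary z).1 + 4 + d.lb (payload z).length) +
      d.lb ζ.length) ?_
  intro R R' hA h1 h2
  rw [d.oh_local hA (by omega)] at h2
  rw [d.vA_local R R' ζ (hA.mono (by omega)),
    ← ((d.TT_local z).mono (by omega)).iff hA]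
  exact h1 h2

end Data

end Pool.Agent.L0h34.RO
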