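import Pool.Agent.L0h34.RO.Defs

/-! # Loops of the programs -/

set_option autoImplicit false

namespace Pool.Agent.L0h34.OM

theorem Go.ask {G : Oracle} {r q : ℕ} {l : List (List Bool)} (hr : q < l.length) :
    Go G (.ask r q) (st l) ((st l r).length + 1) (st (l.set q [G (st l r)])) :=
  ⟨(st l r).length + 1, Reach.ask' hr (by omega) (by omega)⟩

theorem Go.take_false {G : Oracle} {u v w : Prog} {τ : Store} {T : ℕ} {r : ℕ}
    {l : List (List Bool)} {x : List Bool} (hr : r < l.length) (h0 : st l r = false :: x)
    (h : Go G v (st (l.set r x)) T τ) : Go G (.take r u v w) (st l) (T + 1) τ := by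
  obtain ⟨s, h⟩ := h
  exact ⟨s, Reach.take_false' hr h0 h⟩

theorem Go.each_false {G : Oracle} {v w : Prog} {τ ρ : Store} {T T' : ℕ} {r : ℕ}
    {l : List (List Bool)} {x : List Bool} (hr : r < l.length) (h0 : st l r = false :: x)
    (h : Go G v (st (l.set r x)) T τ) (h' : Go G (.each r v w) τ T' ρ) :
    Go G (.each r v w) (st l) (T + T' + 2) ρ := by
  obtain ⟨s, h⟩ := h
  obtain ⟨s', h'⟩ := h'
  exact ⟨max s s', Reach.each_false' hr h0 (h.mono_space (le_max_left _ _))
    (h'.mono_space (le_max_right _ _))⟩

theorem Go.each_true {G : Oracle} {v w : Prog} {τ ρ : Store} {T T' : ℕ} {r : ℕ}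
    {l : List (List Bool)} {x : List Bool} (hr : r < l.length) (h0 : st l r = true :: x)
    (h : Go G w (st (l.set r x)) T τ) (h' : Go G (.each r v w) τ T' ρ) :
    Go G (.each r v w) (st l) (T + T' + 2) ρ := by
  obtain ⟨s, h⟩ := h
  obtain ⟨s', h'⟩ := h'
  exact ⟨max s s', Reach.each_true' hr h0 (h.mono_space (le_max_left _ _))
    (h'.mono_space (le_max_right _ _))⟩

end Pool.Agent.L0h34.OM

namespace Pool.Agent.L0h34.RO

open Pool.Agent.L0h34.OM Function

variable {G : Oracle} {X W S A C T B D O E P P2 M f1 go K f2 F1 F2 Y : List Bool}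

/-- Ask for one bit. -/
def rdBody (a b : Bool) : Prog := .seq (.put 5 a) (.seq (.put 5 b) (.seq (.app 3 5 7) (.seq (.put 5 false) (.seq (.app 2 5 7) (.seq (.ask 5 6) (.seq (.app 6 8 7) (.seq (.clear 5) (.seq (.clear 6) (.put 3 true)))))))))

theorem go_rdBody (a b : Bool) (j : ℕ) :
    Go G (rdBody a b) (st [X, W, S, ones j, C, [], B, [], O, E, P, P2, M, f1, go, K, f2, F1, F2, Y])
      (8 * j + 8 * S.length + 50)
      (st [X, W, S, ones (j + 1), C, [], [], [], O ++ [G (adr [a, b] j S)], E, P, P2, M, f1, go, K, f2, F1, F2, Y]) := by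
  have g1 : Go G (.put 5 a) (st [X, W, S, ones j, C, [], B, [], O, E, P, P2, M, f1, go, K, f2, F1, F2, Y])
      (1)
      (st [X, W, S, ones j, C, [a], B, [], O, E, P, P2, M, f1, go, K, f2, F1, F2, Y]) := Go.put a (by simp)
  have g2 : Go G (.put 5 b) (st [X, W, S, ones j, C, [a], B, [], O, E, P, P2, M, f1, go, K, f2, F1, F2, Y])
      (1)
      (st [X, W, S, ones j, C, [a, b], B, [], O, E, P, P2, M, f1, go, K, f2, F1, F2, Y]) := Go.put b (by simp)
  have g3 : Go G (.app 3 5 7) (st [X, W, S, ones j, C, [a, b], B, [], O, E, P, P2, M, f1, go, K, f2, F1, F2, Y])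
      (4 * (ones j : List Bool).length + 2)
      (st [X, W, S, ones j, C, [a, b] ++ ones j, B, [], O, E, P, P2, M, f1, go, K, f2, F1, F2, Y]) := Go.app (by simp) (by simp) (by simp)
  have g4 : Go G (.put 5 false) (st [X, W, S, ones j, C, [a, b] ++ ones j, B, [], O, E, P, P2, M, f1, go, K, f2, F1, F2, Y])
      (1)
      (st [X, W, S, ones j, C, [a, b] ++ ones j ++ [false], B, [], O, E, P, P2, M, f1, go, K, f2, F1, F2, Y]) := Go.put false (by simp)
  have g5 : Go G (.app 2 5 7) (st [X, W, S, ones j, C, [a, b] ++ ones j ++ [false], B, [], O, E, P, P2, M, f1, go, K, f2, F1, F2, Y])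
      (4 * (S : List Bool).length + 2)
      (st [X, W, S, ones j, C, [a, b] ++ ones j ++ [false] ++ S, B, [], O, E, P, P2, M, f1, go, K, f2, F1, F2, Y]) := Go.app (by simp) (by simp) (by simp)
  have g6 : Go G (.ask 5 6) (st [X, W, S, ones j, C, [a, b] ++ ones j ++ [false] ++ S, B, [], O, E, P, P2, M, f1, go, K, f2, F1, F2, Y])
      (([a, b] ++ ones j ++ [false] ++ S : List Bool).length + 1)
      (st [X, W, S, ones j, C, [a, b] ++ ones j ++ [false] ++ S, [G ([a, b] ++ ones j ++ [false] ++ S)], [], O, E, P, P2, M, f1, go, K, f2, F1, F2, Y]) := Go.ask (by simp)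
  have g7 : Go G (.app 6 8 7) (st [X, W, S, ones j, C, [a, b] ++ ones j ++ [false] ++ S, [G ([a, b] ++ ones j ++ [false] ++ S)], [], O, E, P, P2, M, f1, go, K, f2, F1, F2, Y])
      (4 * ([G ([a, b] ++ ones j ++ [false] ++ S)] : List Bool).length + 2)
      (st [X, W, S, ones j, C, [a, b] ++ ones j ++ [false] ++ S, [G ([a, b] ++ ones j ++ [false] ++ S)], [], O ++ [G ([a, b] ++ ones j ++ [false] ++ S)], E, P, P2, M, f1, go, K, f2, F1, F2, Y]) := Go.app (by simp) (by simp) (by simp)
  have g8 : Go G (.clear 5) (st [X, W, S, ones j, C, [a, b] ++ ones j ++ [false] ++ S, [G ([a, b] ++ ones j ++ [false] ++ S)], [], O ++ [G ([a, b] ++ ones j ++ [false] ++ S)], E, P, P2, M, f1, go, K, f2, F1, F2, Y])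
      (3 * ([a, b] ++ ones j ++ [false] ++ S : List Bool).length + 1)
      (st [X, W, S, ones j, C, [], [G ([a, b] ++ ones j ++ [false] ++ S)], [], O ++ [G ([a, b] ++ ones j ++ [false] ++ S)], E, P, P2, M, f1, go, K, f2, F1, F2, Y]) := Go.clear (by simp)
  have g9 : Go G (.clear 6) (st [X, W, S, ones j, C, [], [G ([a, b] ++ ones j ++ [false] ++ S)], [], O ++ [G ([a, b] ++ ones j ++ [false] ++ S)], E, P, P2, M, f1, go, K, f2, F1, F2, Y])
      (3 * ([G ([a, b] ++ ones j ++ [false] ++ S)] : List Bool).length + 1)
      (st [X, W, S, ones j, C, [], [], [], O ++ [G ([a, b] ++ ones j ++ [false] ++ S)], E, P, P2, M, f1, go, K, f2, F1, F2, Y]) := Go.clear (by simp)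
  have g10 : Go G (.put 3 true) (st [X, W, S, ones j, C, [], [], [], O ++ [G ([a, b] ++ ones j ++ [false] ++ S)], E, P, P2, M, f1, go, K, f2, F1, F2, Y])
      (1)
      (st [X, W, S, ones j ++ [true], C, [], [], [], O ++ [G ([a, b] ++ ones j ++ [false] ++ S)], E, P, P2, M, f1, go, K, f2, F1, F2, Y]) := Go.put true (by simp)
  have e1 : [a, b] ++ ones j ++ [false] ++ S = adr [a, b] j S := by simp [adr]
  rw [e1, show ones j ++ [true] = ones (j + 1) from ones_add j 1] at g10
  rw [e1] at g5 g6 g7 g8 g9
  refine (g1.seq (g2.seq (g3.seq (g4.seq (g5.seq (g6.seq (g7.seq (g8.seq (g9.seq g10))))))))).mono ?_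
  simp only [List.length_replicate, ones, List.length_append, List.length_cons, List.length_nil,
    length_adr]
  omega

theorem go_rd (a b : Bool) (l : List Bool) (j : ℕ) :
    Go G (.each 4 (rdBody a b) (rdBody a b)) (st [X, W, S, ones j, l, [], [], [], O, E, P, P2, M, f1, go, K, f2, F1, F2, Y])
      (l.length * (8 * (j + l.length) + 8 * S.length + 60) + 1)
      (st [X, W, S, ones (j + l.length), [], [], [], [], O ++ (List.range l.length).map (fun t => G (adr [a, b] (j + t) S)), E, P, P2, M, f1, go, K, f2, F1, F2, Y]) := by
  induction l generalizing j O with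
  | nil =>
    simp only [List.length_nil, List.range_zero, List.map_nil, List.append_nil, Nat.add_zero,
      Nat.zero_mul, Nat.zero_add]
    exact Go.each_nil rfl
  | cons b0 l ih =>
    have h1 := go_rdBody (G := G) (X := X) (W := W) (S := S) (C := l) (B := []) (O := O) (E := E)
      (P := P) (P2 := P2) (M := M) (f1 := f1) (go := go) (K := K) (f2 := f2) (F1 := F1) (F2 := F2)
      (Y := Y) a b j
    have h2 := ih (j + 1) (O := O ++ [G (adr [a, b] j S)])
    have e1 : j + 1 + l.length = j + (b0 :: l).length := by simp only [List.length_cons]; omega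
    have e2 : O ++ [G (adr [a, b] j S)] ++ (List.range l.length).map
        (fun t => G (adr [a, b] (j + 1 + t) S)) =
        O ++ (List.range (b0 :: l).length).map (fun t => G (adr [a, b] (j + t) S)) := by
      rw [List.length_cons, List.range_succ_eq_map, List.map_cons, List.map_map, List.append_assoc,
        List.singleton_append]
      have e3 : (fun t => G (adr [a, b] (j + 1 + t) S)) =
          (fun t => G (adr [a, b] (j + t) S)) ∘ Nat.succ := by
        funext t
        simp only [Function.comp, Nat.succ_eq_add_one]
        congr 2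
        omega
      rw [e3]
      rfl
    rw [e1, e2] at h2
    refine (Go.each_cons b0 (by simp) rfl h1 h2).mono ?_
    simp only [List.length_cons]
    ring_nf
    omega

/-- The number of the places of `l` where `E` differs. -/
def mm : List Bool → List Bool → ℕ
  | [], _ => 0
  | _ :: l, [] => mm l [] + 1
  | b :: l, e :: E => mm l E + if b = e then 0 else 1

theorem mm_eq_zero {l E : List Bool} : mm l E = 0 ↔ l = E.take l.length := by
  induction l generalizing E with
  | nil => simp [mm]
  | cons b l ih =>
    cases E with
    | nil => simp [mm]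
    | cons e E =>
      by_cases h : b = e
      · simp [mm, h, ih]
      · simp [mm, h]

theorem mm_le (l E : List Bool) : mm l E ≤ l.length := by
  induction l generalizing E with
  | nil => simp [mm]
  | cons b l ih =>
    cases E with
    | nil => have := ih []; simp only [mm, List.length_cons]; omega
    | cons e E => have := ih E; simp only [mm, List.length_cons]; split_ifs <;> omega

/-- Compare one bit. -/
def cmpV : Prog := .take 9 (.put 12 true) .nop (.put 12 true)
/-- Compare one bit. -/
def cmpW : Prog := .take 9 (.put 12 true) (.put 12 true) .nop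

theorem go_cmp (l : List Bool) (j : ℕ) :
    Go G (.each 8 cmpV cmpW) (st [X, W, S, A, C, T, B, D, l, E, P, P2, ones j, f1, go, K, f2, F1, F2, Y])
      (4 * l.length + 1)
      (st [X, W, S, A, C, T, B, D, [], E.drop l.length, P, P2, ones (j + mm l E), f1, go, K, f2, F1, F2, Y]) := by
  induction l generalizing j E with
  | nil =>
    simp only [List.length_nil, List.drop_zero, mm, Nat.add_zero, Nat.mul_zero, Nat.zero_add]
    exact Go.each_nil rfl
  | cons b l ih =>
    have hput : ∀ E' : List Bool, Go G (.put 12 true)
        (st [X, W, S, A, C, T, B, D, l, E', P, P2, ones j, f1, go, K, f2, F1, F2, Y]) 1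
        (st [X, W, S, A, C, T, B, D, l, E', P, P2, ones (j + 1), f1, go, K, f2, F1, F2, Y]) := by
      intro E'
      rw [← ones_add j 1]
      exact Go.put true (by simp)
    rcases E with _ | ⟨e, E⟩
    · have h2 := ih (j + 1) (E := [])
      have e1 : j + 1 + mm l [] = j + mm (b :: l) [] := by simp only [mm]; omega
      rw [e1] at h2
      simp only [List.drop_nil, List.length_cons] at h2 ⊢
      rcases b with - | -
      · refine (Go.each_false (T := 2) (by simp) rfl ?_ h2).mono (by omega)
        exact Go.take_nil rfl (hput [])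
      · refine (Go.each_true (T := 2) (by simp) rfl ?_ h2).mono (by omega)
        exact Go.take_nil rfl (hput [])
    · by_cases hbe : b = e
      · subst hbe
        have h2 := ih j (E := E)
        have e1 : j + mm l E = j + mm (b :: l) (b :: E) := by simp [mm]
        rw [e1] at h2
        simp only [List.length_cons, List.drop_succ_cons]
        rcases b with - | -
        · refine (Go.each_false (T := 2) (by simp) rfl ?_ h2).mono (by omega)
          exact Go.take_false (by simp) rfl Go.nop
        · refine (Go.each_true (T := 2) (by simp) rfl ?_ h2).mono (by omega)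
          exact Go.take_true (by simp) rfl Go.nop
      · have h2 := ih (j + 1) (E := E)
        have e1 : j + 1 + mm l E = j + mm (b :: l) (e :: E) := by simp [mm, hbe]; omega
        rw [e1] at h2
        simp only [List.length_cons, List.drop_succ_cons]
        rcases b with - | - <;> rcases e with - | -
        · exact absurd rfl hbe
        · refine (Go.each_false (T := 2) (by simp) rfl ?_ h2).mono (by omega)
          exact Go.take_true (by simp) rfl (hput E)
        · refine (Go.each_true (T := 2) (by simp) rfl ?_ h2).mono (by omega)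
          exact Go.take_false (by simp) rfl (hput E)
        · exact absurd rfl hbe

/-- The first `n` bits of `W`, filled up with `false`. -/
def pt : ℕ → List Bool → List Bool
  | 0, _ => []
  | n + 1, [] => false :: pt n []
  | n + 1, b :: W => b :: pt n W

theorem length_pt (n : ℕ) (W : List Bool) : (pt n W).length = n := by
  induction n generalizing W with
  | zero => rfl
  | succ n ih => cases W <;> simp [pt, ih]

theorem pt_append (s w : List Bool) : pt s.length (s ++ w) = s := by
  induction s with
  | nil => rfl
  | cons b s ih => simp [pt, ih]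

/-- Move one bit of the witness. -/
def ptBody : Prog := .take 1 (.put 2 false) (.put 2 false) (.put 2 true)

theorem go_pt (l : List Bool) :
    Go G (.each 4 ptBody ptBody) (st [X, W, S, A, l, T, B, D, O, E, P, P2, M, f1, go, K, f2, F1, F2, Y])
      (4 * l.length + 1)
      (st [X, W.drop l.length, S ++ pt l.length W, A, [], T, B, D, O, E, P, P2, M, f1, go, K, f2, F1, F2, Y]) := by
  induction l generalizing S W with
  | nil =>
    simp only [List.length_nil, List.drop_zero, pt, List.append_nil, Nat.mul_zero, Nat.zero_add]
    exact Go.each_nil rfl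
  | cons b l ih =>
    rcases W with _ | ⟨e, W⟩
    · have h2 := ih (S := S ++ [false]) (W := [])
      have e1 : S ++ [false] ++ pt l.length [] = S ++ pt (b :: l).length [] := by simp [pt]
      rw [e1] at h2
      simp only [List.drop_nil] at h2 ⊢
      refine (Go.each_cons b (T := 2) (by simp) rfl ?_ h2).mono (by
        simp only [List.length_cons]; omega)
      exact Go.take_nil rfl (Go.put false (by simp))
    · have h2 := ih (S := S ++ [e]) (W := W)
      have e1 : S ++ [e] ++ pt l.length W = S ++ pt (b :: l).length (e :: W) := by simp [pt]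
      rw [e1] at h2
      simp only [List.drop_succ_cons, List.length_cons] at h2 ⊢
      refine (Go.each_cons b (T := 2) (by simp) rfl ?_ h2).mono (by omega)
      rcases e with - | -
      · exact Go.take_false (by simp) rfl (Go.put false (by simp))
      · exact Go.take_true (by simp) rfl (Go.put true (by simp))

theorem go_fill (l : List Bool) :
    Go G (.each 4 (.put 2 false) (.put 2 false)) (st [X, W, S, A, l, T, B, D, O, E, P, P2, M, f1, go, K, f2, F1, F2, Y])
      (3 * l.length + 1)
      (st [X, W, S ++ List.replicate l.length false, A, [], T, B, D, O, E, P, P2, M, f1, go, K, f2, F1, F2, Y]) := by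
  induction l generalizing S with
  | nil =>
    simp only [List.length_nil, List.replicate_zero, List.append_nil, Nat.mul_zero, Nat.zero_add]
    exact Go.each_nil rfl
  | cons b l ih =>
    have h2 := ih (S := S ++ [false])
    have e1 : S ++ [false] ++ List.replicate l.length false =
        S ++ List.replicate (b :: l).length false := by simp [List.replicate_succ]
    rw [e1] at h2
    exact (Go.each_cons b (T := 1) (by simp) rfl (Go.put false (by simp)) h2).mono (by
      simp only [List.length_cons]; omega)

/-- Move the leading ones of register `0` to register `15`, and remove the following zero. -/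
def psA : Prog := .seq (.put 14 true)
  (.loop 14 (.take 0 (.clear 14) (.clear 14) (.put 15 true)))

/-- Remove the leading ones and the following zero. -/
def psB : Prog := .seq (.put 14 true) (.loop 14 (.take 0 (.clear 14) (.clear 14) .nop))

theorem go_psA_loop (l : List Bool) (j : ℕ) :
    Go G (.loop 14 (.take 0 (.clear 14) (.clear 14) (.put 15 true)))
      (st [l, W, S, A, C, T, B, D, O, E, P, P2, M, f1, [true], ones j, f2, F1, F2, Y])
      (7 * l.length + 7)
      (st [(unary l).2, W, S, A, C, T, B, D, O, E, P, P2, M, f1, [], ones (j + (unary l).1), f2, F1, F2, Y]) := by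
  induction l generalizing j with
  | nil =>
    simp only [unary, Nat.add_zero]
    have h1 : Go G (.take 0 (.clear 14) (.clear 14) (.put 15 true))
        (st [[], W, S, A, C, T, B, D, O, E, P, P2, M, f1, [true], ones j, f2, F1, F2, Y]) 5
        (st [[], W, S, A, C, T, B, D, O, E, P, P2, M, f1, [], ones j, f2, F1, F2, Y]) :=
      Go.take_nil (T := 4) rfl (Go.clear (by simp))
    exact (Go.loop_cons (by simp [st]) h1 (Go.loop_nil rfl)).mono (by simp)
  | cons b l ih =>
    cases b
    · simp only [unary, Nat.add_zero]
      have h1 : Go G (.take 0 (.clear 14) (.clear 14) (.put 15 true))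
          (st [false :: l, W, S, A, C, T, B, D, O, E, P, P2, M, f1, [true], ones j, f2, F1, F2, Y]) 5
          (st [l, W, S, A, C, T, B, D, O, E, P, P2, M, f1, [], ones j, f2, F1, F2, Y]) :=
        Go.take_false (T := 4) (by simp) rfl (Go.clear (by simp))
      exact (Go.loop_cons (by simp [st]) h1 (Go.loop_nil rfl)).mono (by
        simp only [List.length_cons]; omega)
    · have h2 := ih (j + 1)
      have e1 : j + 1 + (unary l).1 = j + (unary (true :: l)).1 := by simp only [unary]; omega
      rw [e1] at h2
      have h0 : Go G (.put 15 true) (st [l, W, S, A, C, T, B, D, O, E, P, P2, M, f1, [true], ones j, f2, F1, F2, Y]) 1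
          (st [l, W, S, A, C, T, B, D, O, E, P, P2, M, f1, [true], ones (j + 1), f2, F1, F2, Y]) := by
        rw [← ones_add j 1]
        exact Go.put true (by simp)
      have h1 : Go G (.take 0 (.clear 14) (.clear 14) (.put 15 true))
          (st [true :: l, W, S, A, C, T, B, D, O, E, P, P2, M, f1, [true], ones j, f2, F1, F2, Y]) 2
          (st [l, W, S, A, C, T, B, D, O, E, P, P2, M, f1, [true], ones (j + 1), f2, F1, F2, Y]) :=
        Go.take_true (T := 1) (by simp) rfl h0
      exact (Go.loop_cons (by simp [st]) h1 h2).mono (by simp only [List.length_cons]; omega)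

theorem go_psA (l : List Bool) :
    Go G psA (st [l, W, S, A, C, T, B, D, O, E, P, P2, M, f1, [], [], f2, F1, F2, Y])
      (7 * l.length + 8)
      (st [(unary l).2, W, S, A, C, T, B, D, O, E, P, P2, M, f1, [], ones (unary l).1, f2, F1, F2, Y]) := by
  have h1 : Go G (.put 14 true) (st [l, W, S, A, C, T, B, D, O, E, P, P2, M, f1, [], [], f2, F1, F2, Y]) 1
      (st [l, W, S, A, C, T, B, D, O, E, P, P2, M, f1, [true], ones 0, f2, F1, F2, Y]) := Go.put true (by simp)
  have h2 := go_psA_loop (G := G) (W := W) (S := S) (A := A) (C := C) (T := T) (B := B) (D := D)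
    (O := O) (E := E) (P := P) (P2 := P2) (M := M) (f1 := f1) (f2 := f2) (F1 := F1) (F2 := F2)
    (Y := Y) l 0
  rw [Nat.zero_add] at h2
  exact (h1.seq h2).mono (by omega)

theorem go_psB_loop (l : List Bool) :
    Go G (.loop 14 (.take 0 (.clear 14) (.clear 14) .nop))
      (st [l, W, S, A, C, T, B, D, O, E, P, P2, M, f1, [true], K, f2, F1, F2, Y])
      (7 * l.length + 7)
      (st [(unary l).2, W, S, A, C, T, B, D, O, E, P, P2, M, f1, [], K, f2, F1, F2, Y]) := by
  induction l with
  | nil =>
    simp only [unary]
    have h1 : Go G (.take 0 (.clear 14) (.clear 14) .nop)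
        (st [[], W, S, A, C, T, B, D, O, E, P, P2, M, f1, [true], K, f2, F1, F2, Y]) 5
        (st [[], W, S, A, C, T, B, D, O, E, P, P2, M, f1, [], K, f2, F1, F2, Y]) :=
      Go.take_nil (T := 4) rfl (Go.clear (by simp))
    exact (Go.loop_cons (by simp [st]) h1 (Go.loop_nil rfl)).mono (by simp)
  | cons b l ih =>
    cases b
    · simp only [unary]
      have h1 : Go G (.take 0 (.clear 14) (.clear 14) .nop)
          (st [false :: l, W, S, A, C, T, B, D, O, E, P, P2, M, f1, [true], K, f2, F1, F2, Y]) 5
          (st [l, W, S, A, C, T, B, D, O, E, P, P2, M, f1, [], K, f2, F1, F2, Y]) :=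
        Go.take_false (T := 4) (by simp) rfl (Go.clear (by simp))
      exact (Go.loop_cons (by simp [st]) h1 (Go.loop_nil rfl)).mono (by
        simp only [List.length_cons]; omega)
    · have h1 : Go G (.take 0 (.clear 14) (.clear 14) .nop)
          (st [true :: l, W, S, A, C, T, B, D, O, E, P, P2, M, f1, [true], K, f2, F1, F2, Y]) 2
          (st [l, W, S, A, C, T, B, D, O, E, P, P2, M, f1, [true], K, f2, F1, F2, Y]) :=
        Go.take_true (T := 1) (by simp) rfl Go.nop
      exact (Go.loop_cons (by simp [st]) h1 ih).mono (by simp only [List.length_cons]; omega)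

theorem go_psB (l : List Bool) :
    Go G psB (st [l, W, S, A, C, T, B, D, O, E, P, P2, M, f1, [], K, f2, F1, F2, Y])
      (7 * l.length + 8)
      (st [(unary l).2, W, S, A, C, T, B, D, O, E, P, P2, M, f1, [], K, f2, F1, F2, Y]) := by
  have h1 : Go G (.put 14 true) (st [l, W, S, A, C, T, B, D, O, E, P, P2, M, f1, [], K, f2, F1, F2, Y]) 1
      (st [l, W, S, A, C, T, B, D, O, E, P, P2, M, f1, [true], K, f2, F1, F2, Y]) := Go.put true (by simp)
  have h2 := go_psB_loop (G := G) (W := W) (S := S) (A := A) (C := C) (T := T) (B := B) (D := D)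
    (O := O) (E := E) (P := P) (P2 := P2) (M := M) (f1 := f1) (f2 := f2) (F1 := F1) (F2 := F2)
    (Y := Y) (K := K) l
  exact (h1.seq h2).mono (by omega)

/-- One digit of the increment, for the digit `false`. -/
def nV : Prog := .take 6 (.put 19 false) (.put 19 true) (.put 19 true)

/-- One digit of the increment, for the digit `true`. -/
def nW : Prog := .take 6 (.put 19 true) (.seq (.put 6 true) (.put 19 false))
  (.seq (.put 6 true) (.put 19 false))

theorem go_inc (l : List Bool) (c : Bool) :
    Go G (.each 2 nV nW) (st [X, W, l, A, C, T, cc c, D, O, E, P, P2, M, f1, go, K, f2, F1, F2, Y])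
      (5 * l.length + 1)
      (st [X, W, [], A, C, T, cc (inc c l).1, D, O, E, P, P2, M, f1, go, K, f2, F1, F2, Y ++ (inc c l).2]) := by
  induction l generalizing Y c with
  | nil =>
    simp only [inc, List.append_nil]
    exact Go.each_nil rfl
  | cons b l ih =>
    have h2 := ih (Y := Y ++ [xor b c]) (c && b)
    simp only [List.append_assoc, List.singleton_append] at h2
    rcases b with - | - <;> rcases c with - | -
    · refine (Go.each_false (T := 2) (by simp) rfl ?_ h2).mono (by simp only [List.length_cons]; omega)
      exact Go.take_nil rfl (Go.put false (by simp))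
    · refine (Go.each_false (T := 2) (by simp) rfl ?_ h2).mono (by simp only [List.length_cons]; omega)
      exact Go.take_true (by simp) rfl (Go.put true (by simp))
    · refine (Go.each_true (T := 3) (by simp) rfl ?_ h2).mono (by simp only [List.length_cons]; omega)
      exact (Go.take_nil rfl (Go.put true (by simp))).mono (by omega)
    · refine (Go.each_true (T := 3) (by simp) rfl ?_ h2).mono (by simp only [List.length_cons]; omega)
      refine Go.take_true (T := 2) (by simp) rfl ?_
      exact Go.seq (Go.put true (by simp)) (Go.put false (by simp))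

end Pool.Agent.L0h34.RO
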