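import Pool.Agent.L0h34.RO.Typ

/-! # Almost every oracle -/

set_option autoImplicit false

namespace Pool.Agent.L0h34.RO

open Pool.Agent.L0h34.OM MeasureTheory
open scoped ENNReal

theorem measure_biUnion_le' {ι : Type} (F : Finset ι) (P : ι → Set Oracle) {a b : ℝ≥0∞} {c : ℕ}
    (hc : F.card ≤ c) (h : ∀ i ∈ F, a * randomOracle (P i) ≤ b) :
    a * randomOracle (⋃ i ∈ F, P i) ≤ c * b := by
  calc a * randomOracle (⋃ i ∈ F, P i) ≤ a * ∑ i ∈ F, randomOracle (P i) :=
        mul_le_mul_right (measure_biUnion_finset_le _ _) _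
    _ = ∑ i ∈ F, a * randomOracle (P i) := Finset.mul_sum _ _ _
    _ ≤ ∑ _i ∈ F, b := Finset.sum_le_sum h
    _ = F.card * b := by simp
    _ ≤ c * b := by gcongr

theorem cancel_pow {k l : ℕ} {c : ℝ≥0∞} (h : (2 : ℝ≥0∞) ^ (k + l) * c ≤ 2 ^ k) :
    (2 : ℝ≥0∞) ^ l * c ≤ 1 := by
  rw [pow_add, mul_assoc] at h
  have h0 : (2 : ℝ≥0∞) ^ k ≠ 0 := by positivity
  have ht : (2 : ℝ≥0∞) ^ k ≠ ⊤ := ENNReal.pow_ne_top (by norm_num)
  rw [← mul_one ((2 : ℝ≥0∞) ^ k), mul_assoc, one_mul] at h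
  exact (ENNReal.mul_le_mul_iff_right h0 ht).1 h

namespace Data

variable (d : Data)

theorem measure_not_uniq (n : ℕ) : (2 : ℝ≥0∞) ^ (d.m n) *
    randomOracle (⋃ i ∈ strs (d.m n) ×ˢ strs (d.m n),
      {R | i.1 ≠ i.2 ∧ ct R i.1 = ct R i.2}) ≤ 1 := by
  have h := measure_biUnion_le' (strs (d.m n) ×ˢ strs (d.m n))
    (fun i => {R | i.1 ≠ i.2 ∧ ct R i.1 = ct R i.2}) (a := 2 ^ (3 * d.m n)) (b := 1)
    (c := 2 ^ (d.m n + d.m n)) (by
      rw [Finset.card_product, pow_add]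
      exact Nat.mul_le_mul (card_strs _) (card_strs _)) (by
      intro i hi
      obtain ⟨h1, h2⟩ := Finset.mem_product.1 hi
      by_cases hne : i.1 = i.2
      · simp [hne]
      · refine le_trans (mul_le_mul_right (measure_mono fun R hR => ?_) _)
          (measure_rd_eq_le (τ := tC) (Q := i.1) (τ' := tC) (Q' := i.2) (ℓ := 3 * d.m n) rfl
            (Or.inr (Ne.symm hne)))
        have h3 := hR.2
        rw [ct, ct, length_of_mem_strs h1, length_of_mem_strs h2] at h3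
        exact h3)
  refine cancel_pow (k := d.m n + d.m n) ?_
  rw [show d.m n + d.m n + d.m n = 3 * d.m n by ring]
  simpa using h

theorem measure_not_dist (n : ℕ) : (2 : ℝ≥0∞) ^ (d.m n) *
    randomOracle (⋃ i ∈ strs n ×ˢ strs n,
      {R | i.1 ≠ i.2 ∧ d.sx R i.1 = d.sx R i.2}) ≤ ((2 ^ (2 * n) : ℕ) : ℝ≥0∞) := by
  have h := measure_biUnion_le' (strs n ×ˢ strs n)
    (fun i => {R | i.1 ≠ i.2 ∧ d.sx R i.1 = d.sx R i.2}) (a := 2 ^ (d.m n)) (b := 1)
    (c := 2 ^ (2 * n)) (by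
      rw [Finset.card_product, two_mul, pow_add]
      exact Nat.mul_le_mul (card_strs _) (card_strs _)) (by
      intro i hi
      obtain ⟨h1, h2⟩ := Finset.mem_product.1 hi
      by_cases hne : i.1 = i.2
      · simp [hne]
      · refine le_trans (mul_le_mul_right (measure_mono fun R hR => ?_) _)
          (measure_rd_eq_le (τ := tS) (Q := d.lx i.1) (τ' := tS) (Q' := d.lx i.2) (ℓ := d.m n) rfl
            (Or.inr fun h => hne (d.lx_inj h).symm))
        have h3 := hR.2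
        rw [sx, sx, length_of_mem_strs h1, length_of_mem_strs h2] at h3
        exact h3)
  simpa using h

theorem measure_not_nq (n : ℕ) : (2 : ℝ≥0∞) ^ (d.m n) *
    randomOracle (⋃ i ∈ (strs n ×ˢ strsLe n) ×ˢ (Finset.univ : Finset (Bool × Bool)),
      {R | ¬ d.NQ R (d.an R i.2.1 i.2.2 i.1.2) (d.sx R i.1.1)}) ≤
      ((2 ^ (2 * n + 3) * d.L n : ℕ) : ℝ≥0∞) := by
  have h := measure_biUnion_le' ((strs n ×ˢ strsLe n) ×ˢ (Finset.univ : Finset (Bool × Bool)))
    (fun i => {R | ¬ d.NQ R (d.an R i.2.1 i.2.2 i.1.2) (d.sx R i.1.1)}) (a := 2 ^ (d.m n))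
    (b := d.L n) (c := 2 ^ (2 * n + 3)) (by
      rw [Finset.card_product, Finset.card_product]
      have h1 := Nat.mul_le_mul (card_strs n) (card_strsLe n)
      have h2 : (Finset.univ : Finset (Bool × Bool)).card = 4 := rfl
      rw [h2]
      calc _ ≤ 2 ^ n * 2 ^ (n + 1) * 4 := Nat.mul_le_mul_right _ h1
        _ = 2 ^ (2 * n + 3) := by ring) (by
      intro i hi
      obtain ⟨h1, _⟩ := Finset.mem_product.1 hi
      obtain ⟨h1, h2⟩ := Finset.mem_product.1 h1
      have h1 := length_of_mem_strs h1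
      have h2 := length_of_mem_strsLe h2
      rw [← h1]
      by_cases hne : i.1.2 = i.1.1
      · rw [hne]
        exact d.measure_NQ_self_le _ _ _
      · exact d.measure_NQ_an_le hne (by omega) _ _)
  simpa using h

theorem measure_not_good (n : ℕ) : (2 : ℝ≥0∞) ^ n * randomOracle {R | ¬ d.Good R n} ≤ 1 := by
  have hsub : {R | ¬ d.Good R n} ⊆
      (⋃ i ∈ strs (d.m n) ×ˢ strs (d.m n), {R | i.1 ≠ i.2 ∧ ct R i.1 = ct R i.2}) ∪
      ((⋃ i ∈ strs n ×ˢ strs n, {R | i.1 ≠ i.2 ∧ d.sx R i.1 = d.sx R i.2}) ∪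
      (⋃ i ∈ (strs n ×ˢ strsLe n) ×ˢ (Finset.univ : Finset (Bool × Bool)),
        {R | ¬ d.NQ R (d.an R i.2.1 i.2.2 i.1.2) (d.sx R i.1.1)})) := by
    intro R hR
    by_contra hcon
    simp only [Set.mem_union, not_or, Set.mem_iUnion, not_exists] at hcon
    obtain ⟨h1, h2, h3⟩ := hcon
    refine hR ⟨fun s s' hs hs' h => ?_, fun x x' hx hx' h => ?_, fun x hx x' hx' p p' => ?_⟩
    · by_contra hne
      exact h1 (s, s') (Finset.mem_product.2 ⟨mem_strs hs, mem_strs hs'⟩) ⟨hne, h⟩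
    · by_contra hne
      exact h2 (x, x') (Finset.mem_product.2 ⟨mem_strs hx, mem_strs hx'⟩) ⟨hne, h⟩
    · by_contra hne
      exact h3 ((x, x'), (p, p')) (Finset.mem_product.2
        ⟨Finset.mem_product.2 ⟨mem_strs hx, mem_strsLe hx'⟩, Finset.mem_univ _⟩) hne
  have hnum := d.num n
  refine cancel_pow (k := d.m n) ?_
  rw [add_comm, pow_add, mul_assoc]
  calc (2 : ℝ≥0∞) ^ n * (2 ^ d.m n * randomOracle {R | ¬ d.Good R n})
      ≤ 2 ^ n * (1 + (((2 ^ (2 * n) : ℕ) : ℝ≥0∞) + ((2 ^ (2 * n + 3) * d.L n : ℕ) : ℝ≥0∞))) := by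
        refine mul_le_mul_right ?_ _
        refine le_trans (mul_le_mul_right (measure_mono hsub) _) ?_
        refine le_trans (mul_le_mul_right (measure_union_le _ _) _) ?_
        rw [mul_add]
        refine add_le_add (d.measure_not_uniq n) ?_
        refine le_trans (mul_le_mul_right (measure_union_le _ _) _) ?_
        rw [mul_add]
        exact add_le_add (d.measure_not_dist n) (d.measure_not_nq n)
    _ = ((2 ^ n * (1 + (2 ^ (2 * n) + 2 ^ (2 * n + 3) * d.L n)) : ℕ) : ℝ≥0∞) := by push_cast; rfl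
    _ ≤ ((2 ^ d.m n : ℕ) : ℝ≥0∞) := by
        refine Nat.cast_le.2 (le_trans ?_ hnum)
        have e1 : 2 ^ n * (1 + (2 ^ (2 * n) + 2 ^ (2 * n + 3) * d.L n)) =
            2 ^ n + 2 ^ (3 * n) + 2 ^ (3 * n) * 8 * d.L n := by ring
        have e2 : 2 ^ (3 * n + 4) * (d.L n + 1) = 2 ^ (3 * n) * 16 * d.L n + 16 * 2 ^ (3 * n) := by
          ring
        have e3 : 2 ^ n ≤ 2 ^ (3 * n) := Nat.pow_le_pow_right (by norm_num) (by omega)
        rw [e1, e2]
        have e4 : 2 ^ (3 * n) * 8 * d.L n ≤ 2 ^ (3 * n) * 16 * d.L n :=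
          Nat.mul_le_mul_right _ (Nat.mul_le_mul_left _ (by norm_num))
        omega
    _ = 2 ^ d.m n := by push_cast; rfl

theorem measure_not_good' (n : ℕ) : randomOracle {R | ¬ d.Good R n} ≤ 2⁻¹ ^ n := by
  have h := d.measure_not_good n
  have h0 : (2 : ℝ≥0∞) ^ n ≠ 0 := by positivity
  have ht : (2 : ℝ≥0∞) ^ n ≠ ⊤ := ENNReal.pow_ne_top (by norm_num)
  rw [← ENNReal.inv_pow, ← one_div, ENNReal.le_div_iff_mul_le (Or.inl h0) (Or.inl ht), mul_comm]
  exact h

theorem measure_tail (N : ℕ) : randomOracle {R | ∃ n, N ≤ n ∧ ¬ d.Good R n} ≤ 2⁻¹ ^ N * 2 := by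
  calc randomOracle {R | ∃ n, N ≤ n ∧ ¬ d.Good R n}
      ≤ randomOracle (⋃ k, {R | ¬ d.Good R (N + k)}) := by
        refine measure_mono fun R hR => ?_
        obtain ⟨n, h1, h2⟩ := hR
        refine Set.mem_iUnion.2 ⟨n - N, ?_⟩
        simp only [Set.mem_ofPred_eq]
        rwa [Nat.add_sub_cancel' h1]
    _ ≤ ∑' k, randomOracle {R | ¬ d.Good R (N + k)} := measure_iUnion_le _
    _ ≤ ∑' k, (2⁻¹ : ℝ≥0∞) ^ (N + k) := ENNReal.tsum_le_tsum fun k => d.measure_not_good' _
    _ = 2⁻¹ ^ N * 2 := by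
        simp only [pow_add]
        rw [ENNReal.tsum_mul_left, ENNReal.tsum_geometric, ENNReal.one_sub_inv_two, inv_inv]

theorem length_fa (R : Oracle) (x : List Bool) : x.length < (d.fa R x).length := by
  have h1 := d.m_mono.le_apply (x := x.length)
  unfold fa
  split_ifs <;> rw [length_adr, length_sx] <;> omega

/-- The oracles of the argument, for the bad string `x`. -/
def PP (N : ℕ) (C : Set Oracle) (x : List Bool) : Set Oracle :=
  {R | d.E R ∧ (∀ n, N ≤ n → d.Good R n) ∧ R ∈ C ∧ N ≤ x.length ∧ d.Bad N R x}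

theorem measurable_PP (N : ℕ) {C : Set Oracle} (hC : MeasurableSet C) (x : List Bool) :
    MeasurableSet (d.PP N C x) := by
  have : d.PP N C x = {R | d.E R} ∩ (⋂ n, {R | N ≤ n → d.Good R n}) ∩ C ∩
      {R | N ≤ x.length ∧ d.Bad N R x} := by
    ext R
    simp only [PP, Set.mem_ofPred_eq, Set.mem_inter_iff, Set.mem_iInter]
    tauto
  rw [this]
  refine ((d.measurable_E.inter (MeasurableSet.iInter fun n => ?_)).inter hC).inter ?_
  · exact (Lc.imp (Lc.const _) (d.Good_local n)).meas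
  · exact (Lc.and (Lc.const _) (d.Bad_local N x)).meas

theorem measure_PP_le {N NC : ℕ} {C : Set Oracle} (hC : MeasurableSet C)
    (hCl : ∀ R R' : Oracle, Agree NC R R' → R ∈ C → R' ∈ C) (hN : NC ≤ N) :
    randomOracle (⋃ x, d.PP N C x) ≤ randomOracle (C \ {R | d.E R}) := by
  have hfam : ∀ x k, MeasurableSet {R | d.fa R x = k} := fun x k => (d.fa_local x k).meas
  have hQm : ∀ x, MeasurableSet {R | OM.flip R (d.fa R x) ∈ d.PP N C x} := by
    intro x
    have : {R | OM.flip R (d.fa R x) ∈ d.PP N C x} =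
        ⋃ k, ({R | OM.flip R k ∈ d.PP N C x} ∩ {R | d.fa R x = k}) := by
      ext R
      simp only [Set.mem_ofPred_eq, Set.mem_iUnion, Set.mem_inter_iff]
      constructor
      · intro h
        exact ⟨_, h, rfl⟩
      · rintro ⟨k, h1, rfl⟩
        exact h1
    rw [this]
    refine MeasurableSet.iUnion fun k => MeasurableSet.inter ?_ (hfam x k)
    have hflip : ∀ (k : List Bool) (R : Oracle),
        OM.flip R k = xr (fun q => decide (q = k)) R := by
      intro k R
      funext q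
      by_cases h : q = k <;> simp [OM.flip, xr, h]
    simp only [hflip]
    exact (measurable_xr _) (d.measurable_PP N hC x)
  have hrec : ∀ x R, OM.flip R (d.fa R x) ∈ d.PP N C x →
      ∃ R1 ∈ d.PP N C x, R = OM.flip R1 (d.fa R1 x) := by
    intro x R hR
    refine ⟨_, hR, ?_⟩
    rw [d.fa_flip, flip_flip]
  calc randomOracle (⋃ x, d.PP N C x) ≤ ∑' x, randomOracle (d.PP N C x) := measure_iUnion_le _
    _ ≤ ∑' x, randomOracle {R | OM.flip R (d.fa R x) ∈ d.PP N C x} :=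
        ENNReal.tsum_le_tsum fun x =>
          measure_flip (fun R => d.fa R x) (hfam x) (fun R => d.fa_flip R x) (d.measurable_PP N hC x)
    _ = randomOracle (⋃ x, {R | OM.flip R (d.fa R x) ∈ d.PP N C x}) := by
        rw [measure_iUnion _ hQm]
        intro x x' hxx
        refine Set.disjoint_left.2 fun R h1 h2 => ?_
        obtain ⟨R1, ⟨hE1, hG1, _, hx1, hb1⟩, e1⟩ := hrec x R h1
        obtain ⟨R2, ⟨hE2, hG2, _, hx2, hb2⟩, e2⟩ := hrec x' R h2
        rcases lt_or_lt hxx with h | h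
        · exact d.flip_ne hE2 hG2 hx2 hE1 hG1 hx1 hb1 h (e2.symm.trans e1)
        · exact d.flip_ne hE1 hG1 hx1 hE2 hG2 hx2 hb2 h (e1.symm.trans e2)
    _ ≤ randomOracle (C \ {R | d.E R}) := by
        refine measure_mono fun R hR => ?_
        obtain ⟨x, hx⟩ := Set.mem_iUnion.1 hR
        obtain ⟨R1, ⟨hE1, hG1, hC1, hx1, hb1⟩, e1⟩ := hrec x R hx
        rw [e1]
        refine ⟨hCl R1 _ (agree_flip R1 ?_) hC1, d.not_E_flip hE1 hG1 hx1 hb1⟩
        have := d.length_fa R1 x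
        omega

/-- The set where the reduction is correct but bad infinitely often. -/
def SS (N : ℕ) : Set Oracle := {R | d.E R ∧ ∃ x : List Bool, N ≤ x.length ∧ d.Bad N R x}

theorem measurable_SS (N : ℕ) : MeasurableSet (d.SS N) := by
  have : d.SS N = {R | d.E R} ∩ ⋃ x : List Bool, {R | N ≤ x.length ∧ d.Bad N R x} := by
    ext R
    simp [SS]
  rw [this]
  exact d.measurable_E.inter (MeasurableSet.iUnion fun x =>
    (Lc.and (Lc.const _) (d.Bad_local N x)).meas)

theorem measure_SS : randomOracle (⋂ N, d.SS N) = 0 := by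
  refine le_antisymm (ENNReal.le_of_forall_pos_le_add fun ε hε _ => ?_) zero_le
  rw [zero_add]
  have hSm : MeasurableSet (⋂ N, d.SS N) := MeasurableSet.iInter d.measurable_SS
  obtain ⟨NC, C, hC, hCl, h1, h2⟩ := exists_short hSm (ε := ε / 3) (by positivity)
  have h3 : ∃ N, NC ≤ N ∧ (2⁻¹ : ℝ≥0∞) ^ N * 2 ≤ ENNReal.ofReal (ε / 3) := by
    have ht : Filter.Tendsto (fun N => (2⁻¹ : ℝ≥0∞) ^ N * 2) Filter.atTop (nhds (0 * 2)) :=
      ENNReal.Tendsto.mul_const (ENNReal.tendsto_pow_atTop_nhds_zero_of_lt_one (by norm_num))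
        (Or.inr (by norm_num))
    rw [zero_mul] at ht
    have h4 := (ht.eventually_lt_const (u := ENNReal.ofReal (ε / 3)) (by
      rw [ENNReal.ofReal_pos]; positivity)).and (Filter.eventually_ge_atTop NC)
    obtain ⟨N, h5, h6⟩ := h4.exists
    exact ⟨N, h6, h5.le⟩
  obtain ⟨N, hN, h4⟩ := h3
  have hsub : (⋂ N, d.SS N) ⊆ ((⋂ N, d.SS N) \ C) ∪ ({R | ∃ n, N ≤ n ∧ ¬ d.Good R n} ∪
      ⋃ x, d.PP N C x) := by
    intro R hR
    by_cases hRC : R ∈ C
    · by_cases hg : ∃ n, N ≤ n ∧ ¬ d.Good R n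
      · exact Or.inr (Or.inl hg)
      · refine Or.inr (Or.inr ?_)
        obtain ⟨hE, x, hx, hb⟩ := Set.mem_iInter.1 hR N
        refine Set.mem_iUnion.2 ⟨x, hE, fun n hn => ?_, hRC, hx, hb⟩
        by_contra hcon
        exact hg ⟨n, hn, hcon⟩
    · exact Or.inl ⟨hR, hRC⟩
  calc randomOracle (⋂ N, d.SS N) ≤ ENNReal.ofReal (ε / 3) + (ENNReal.ofReal (ε / 3) +
        ENNReal.ofReal (ε / 3)) := by
        refine (measure_mono hsub).trans ((measure_union_le _ _).trans (add_le_add h1 ?_))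
        refine (measure_union_le _ _).trans (add_le_add ((d.measure_tail N).trans h4) ?_)
        refine (d.measure_PP_le hC hCl hN).trans ((measure_mono fun R hR => ?_).trans h2)
        refine ⟨hR.1, fun h => hR.2 ?_⟩
        exact (Set.mem_iInter.1 h 0).1
    _ = ε := by
        rw [← ENNReal.ofReal_add (by positivity) (by positivity),
          ← ENNReal.ofReal_add (by positivity) (by positivity)]
        have : (ε / 3 + (ε / 3 + ε / 3) : ℝ) = ε := by ring
        rw [this]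
        exact ENNReal.ofReal_coe_nnreal

/-- For almost every oracle, the reduction is one-one and length-increasing on almost all the
instances of the construction. -/
theorem ae_not_bad : ∀ᵐ R ∂randomOracle, d.E R →
    ∃ N, ∀ x : List Bool, N ≤ x.length → ¬ d.Bad N R x := by
  rw [ae_iff]
  refine measure_mono_null (fun R hR => ?_) d.measure_SS
  simp only [Set.mem_ofPred_eq] at hR
  push Not at hR
  refine Set.mem_iInter.2 fun N => ?_
  exact ⟨hR.1, hR.2 N⟩

end Data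

end Pool.Agent.L0h34.RO
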