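import Pool.Agent.L0h34.OM.Generic

/-! # Random oracles -/

set_option autoImplicit false

namespace Pool.Agent.L0h34.RO

open Pool.Agent.L0h34.OM MeasureTheory
open scoped ENNReal

/-- A fair coin. -/
noncomputable def coin : Measure Bool :=
  (2⁻¹ : ℝ≥0∞) • (Measure.dirac false + Measure.dirac true)

/-- The distribution of a random oracle: the answers are independent fair coins. -/
noncomputable def randomOracle : Measure Oracle := Measure.infinitePi fun _ : List Bool => coin

instance : IsProbabilityMeasure coin := by
  constructor
  simp only [coin, Measure.smul_apply, Measure.add_apply, measure_univ, smul_eq_mul]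
  rw [one_add_one_eq_two]
  exact ENNReal.inv_mul_cancel (by norm_num) (by norm_num)

instance : IsProbabilityMeasure randomOracle := by
  unfold randomOracle; infer_instance

theorem coin_map (b : Bool) : coin.map (fun a => xor b a) = coin := by
  rw [coin, Measure.map_smul, Measure.map_add _ _ (measurable_of_countable _),
    Measure.map_dirac' (measurable_of_countable _), Measure.map_dirac' (measurable_of_countable _)]
  cases b
  · rfl
  · simp only [Bool.true_xor, Bool.not_false, Bool.not_true]
    rw [add_comm]

/-- Change the answers of `R` where `D` is `true`. -/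
def xr (D R : Oracle) : Oracle := fun q => xor (D q) (R q)

theorem measurable_xr (D : Oracle) : Measurable (xr D) := by
  refine measurable_pi_lambda _ fun q => ?_
  exact (measurable_of_countable _).comp (measurable_pi_apply q)

theorem map_xr (D : Oracle) : randomOracle.map (xr D) = randomOracle := by
  have h := Measure.infinitePi_map_pi (fun _ : List Bool => coin) (f := fun q a => xor (D q) a)
    (fun q => measurable_of_countable _)
  simp only [coin_map] at h
  exact h

theorem measure_xr (D : Oracle) {P : Set Oracle} (hP : MeasurableSet P) :
    randomOracle {R | xr D R ∈ P} = randomOracle P := by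
  have h := Measure.map_apply (μ := randomOracle) (measurable_xr D) hP
  rw [map_xr] at h
  exact h.symm

/-- Exchange the answers according to a permutation of the strings. -/
def pm (e : Equiv.Perm (List Bool)) (R : Oracle) : Oracle := fun q => R (e q)

theorem map_pm (e : Equiv.Perm (List Bool)) : randomOracle.map (pm e) = randomOracle := by
  have h := Measure.infinitePi_map_piCongrLeft (μ := fun _ : List Bool => coin) e.symm
  have h2 : (MeasurableEquiv.piCongrLeft (fun _ : List Bool => Bool) e.symm : Oracle → Oracle) =
      pm e := by
    funext R q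
    have h3 : (Equiv.piCongrLeft (fun _ : List Bool => Bool) e.symm R) q = R (e q) := by
      simp [Equiv.piCongrLeft_apply]
    exact h3
  rw [h2] at h
  exact h

theorem measurable_pm (e : Equiv.Perm (List Bool)) : Measurable (pm e) :=
  measurable_pi_lambda _ fun q => measurable_pi_apply (e q)

theorem measure_pm (e : Equiv.Perm (List Bool)) {P : Set Oracle} (hP : MeasurableSet P) :
    randomOracle {R | pm e R ∈ P} = randomOracle P := by
  have h := Measure.map_apply (μ := randomOracle) (measurable_pm e) hP
  rw [map_pm] at h
  exact h.symm

/-- If few of the translates of each oracle are in `P`, then `P` has small measure. -/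
theorem measure_le_of_translates {K : Type} [Fintype K] (D : K → Oracle) {P : Set Oracle}
    (hP : MeasurableSet P) (q : ℕ)
    (h : ∀ R : Oracle, ∀ s : Finset K, (∀ k ∈ s, xr (D k) R ∈ P) → s.card ≤ q) :
    (Fintype.card K : ℝ≥0∞) * randomOracle P ≤ q := by
  classical
  have h1 : (Fintype.card K : ℝ≥0∞) * randomOracle P =
      ∑ k : K, ∫⁻ R, {R | xr (D k) R ∈ P}.indicator 1 R ∂randomOracle := by
    have : ∀ k : K, ∫⁻ R, {R | xr (D k) R ∈ P}.indicator 1 R ∂randomOracle = randomOracle P := by
      intro k
      rw [lintegral_indicator_one, measure_xr _ hP]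
      exact (measurable_xr (D k)) hP
    simp only [this, Finset.sum_const, Finset.card_univ, nsmul_eq_mul]
  rw [h1, ← lintegral_finsetSum]
  · calc ∫⁻ R, ∑ k : K, {R | xr (D k) R ∈ P}.indicator (1 : Oracle → ℝ≥0∞) R ∂randomOracle
        ≤ ∫⁻ _, (q : ℝ≥0∞) ∂randomOracle := by
          refine lintegral_mono fun R => ?_
          have h2 := h R (Finset.univ.filter fun k => xr (D k) R ∈ P) (by simp)
          calc ∑ k : K, {R | xr (D k) R ∈ P}.indicator (1 : Oracle → ℝ≥0∞) R
              = ((Finset.univ.filter fun k => xr (D k) R ∈ P).card : ℝ≥0∞) := by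
                simp only [Set.indicator_apply, Set.mem_ofPred_eq, Pi.one_apply]
                rw [Finset.sum_ite, Finset.sum_const_zero, add_zero, Finset.sum_const]
                simp
            _ ≤ q := by exact_mod_cast h2
      _ = q := by simp
  · intro k _
    exact measurable_one.indicator ((measurable_xr (D k)) hP)

/-- Flipping one answer, at an address that is not changed by flipping, preserves the measure. -/
theorem measure_flip (a : Oracle → List Bool) (ha : ∀ k, MeasurableSet {R | a R = k})
    (hinv : ∀ R, a (OM.flip R (a R)) = a R) {P : Set Oracle} (hP : MeasurableSet P) :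
    randomOracle P ≤ randomOracle {R | OM.flip R (a R) ∈ P} := by
  have hflip : ∀ (k : List Bool) (R : Oracle), OM.flip R k = xr (fun q => decide (q = k)) R := by
    intro k R
    funext q
    by_cases h : q = k <;> simp [OM.flip, xr, h]
  have hff : ∀ (k : List Bool) (R : Oracle), OM.flip (OM.flip R k) k = R := by
    intro k R
    funext q
    by_cases h : q = k <;> simp [OM.flip, h]
  have hmk : ∀ k, MeasurableSet {R | OM.flip R k ∈ P} := by
    intro k
    simp only [hflip]
    exact (measurable_xr _) hP
  have h1 : P ⊆ ⋃ k, (P ∩ {R | a R = k}) := fun R hR => Set.mem_iUnion.2 ⟨a R, hR, rfl⟩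
  calc randomOracle P ≤ randomOracle (⋃ k, (P ∩ {R | a R = k})) := measure_mono h1
    _ ≤ ∑' k, randomOracle (P ∩ {R | a R = k}) := measure_iUnion_le _
    _ = ∑' k, randomOracle ({R | OM.flip R k ∈ P} ∩ {R | a R = k}) := by
      refine tsum_congr fun k => ?_
      rw [← measure_xr (fun q => decide (q = k)) (hP.inter (ha k))]
      congr 1
      ext R
      simp only [Set.mem_ofPred_eq, Set.mem_inter_iff, ← hflip]
      refine and_congr_right fun _ => ⟨fun h => ?_, fun h => ?_⟩
      · have := hinv (OM.flip R k)
        rw [h, hff] at this
        exact this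
      · have := hinv R
        rw [h] at this
        exact this
    _ = randomOracle (⋃ k, ({R | OM.flip R k ∈ P} ∩ {R | a R = k})) := by
      rw [measure_iUnion]
      · intro k l hkl
        refine Set.disjoint_left.2 fun R h1 h2 => hkl ?_
        rw [← h1.2, ← h2.2]
      · exact fun k => (hmk k).inter (ha k)
    _ ≤ randomOracle {R | OM.flip R (a R) ∈ P} := by
      refine measure_mono fun R hR => ?_
      obtain ⟨k, h1, h2⟩ := Set.mem_iUnion.1 hR
      simp only [Set.mem_ofPred_eq] at h1 h2 ⊢
      rw [h2]
      exact h1

/-- Approximation of a set of oracles by a set that depends only on short strings. -/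
theorem exists_short {S : Set Oracle} (hS : MeasurableSet S) {ε : ℝ} (hε : 0 < ε) :
    ∃ (N : ℕ) (C : Set Oracle), MeasurableSet C ∧
      (∀ R R' : Oracle, Agree N R R' → R ∈ C → R' ∈ C) ∧
      randomOracle (S \ C) ≤ ENNReal.ofReal ε ∧ randomOracle (C \ S) ≤ ENNReal.ofReal ε := by
  have hd : randomOracle.MeasureDense (measurableCylinders fun _ : List Bool => Bool) :=
    Measure.MeasureDense.of_generateFrom_isSetAlgebra_finite _ isSetAlgebra_measurableCylinders
      generateFrom_measurableCylinders.symm
  obtain ⟨C, hC, hSC⟩ := hd.approx S hS (measure_ne_top _ _) ε hε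
  have hCm := hd.measurable C hC
  rw [mem_measurableCylinders] at hC
  obtain ⟨I, U, hU, rfl⟩ := hC
  refine ⟨I.sup List.length, cylinder I U, hCm, ?_, ?_, ?_⟩
  · intro R R' h hR
    simp only [mem_cylinder] at hR ⊢
    have : I.restrict R' = I.restrict R := by
      funext q
      exact h q (Finset.le_sup (f := List.length) q.2)
    rwa [this]
  · exact (measure_mono (by rw [Set.symmDiff_def]; exact Set.subset_union_left)).trans hSC.le
  · exact (measure_mono (by rw [Set.symmDiff_def]; exact Set.subset_union_right)).trans hSC.le

/-- Sets which depend only on short strings are measurable. -/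
theorem measurable_of_local {S : Set Oracle} (N : ℕ)
    (h : ∀ G G' : Oracle, Agree N G G' → G ∈ S → G' ∈ S) : MeasurableSet S :=
  (isClosed_of_local N h).measurableSet

end Pool.Agent.L0h34.RO
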