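import Pool.Agent.L0h34.RO.Search

/-! # The reduction -/

set_option autoImplicit false

namespace Pool.Agent.L0h34.RO

open Pool.Agent.L0h34.OM Function

variable {G : Oracle} {X W S A C T B D O E P P2 M f1 go K f2 F1 F2 Y : List Bool}

theorem go_pow (j : ℕ) {b : ℕ} : Go G (iter mulProg j)
    (st [X, K, W, ones b, ones 1, [], A, [], [], S, T, go])
    (j * (10 * b * (b + 1) ^ j + 10 * b + 10) + 1)
    (st [X, K, W, ones b, ones (b ^ j), [], A, [], [], S, T, go]) := by
  induction j with
  | zero => exact Go.nop.mono (by omega)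
  | succ j ih =>
    have h1 := go_mul (G := G) (x := X) (K := K) (W := W) (a := A) (q := S) (r := T) (go := go)
      b (b ^ j)
    rw [show b * b ^ j = b ^ (j + 1) by rw [pow_succ, mul_comm]] at h1
    refine (ih.seq h1).mono ?_
    have h2 : b ^ j ≤ (b + 1) ^ (j + 1) :=
      (Nat.pow_le_pow_left (by omega) j).trans (Nat.pow_le_pow_right (by omega) (by omega))
    have h3 : (b + 1) ^ j ≤ (b + 1) ^ (j + 1) := Nat.pow_le_pow_right (by omega) (by omega)
    have h4 : 10 * b * b ^ j ≤ 10 * b * (b + 1) ^ (j + 1) := Nat.mul_le_mul_left _ h2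
    have h5 : 10 * b * (b + 1) ^ j ≤ 10 * b * (b + 1) ^ (j + 1) := Nat.mul_le_mul_left _ h3
    have h6 : j * (10 * b * (b + 1) ^ j + 10 * b + 10) ≤
        j * (10 * b * (b + 1) ^ (j + 1) + 10 * b + 10) := Nat.mul_le_mul_left _ (by omega)
    have h7 : (j + 1) * (10 * b * (b + 1) ^ (j + 1) + 10 * b + 10) =
        j * (10 * b * (b + 1) ^ (j + 1) + 10 * b + 10) +
          (10 * b * (b + 1) ^ (j + 1) + 10 * b + 10) := by ring
    rw [h7]
    refine (Nat.add_le_add (Nat.add_le_add_right h6 1)
      (Nat.add_le_add_right (Nat.add_le_add_right h4 (10 * b)) 10)).trans (le_of_eq ?_)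
    ring

/-- Put `N` ones and a zero in front of the input. -/
def padP (N : ℕ) : Prog := .seq (iter (.put 3 true) N) (.seq (.put 3 false) (.seq (.app 0 3 8) (.seq (.copy 3 0) (.clear 3))))

theorem go_padP (N : ℕ) (x : List Bool) : Go G (padP N) (init x) (5 * N + 10 * x.length + 20)
    (init (ones N ++ false :: x)) := by
  rw [init_eq, init_eq]
  have g1 : Go G (iter (.put 3 true) N) (st [x, [], [], [], [], [], [], [], [], [], [], []])
      (N + 1)
      (st [x, [], [], ones (0 + N), [], [], [], [], [], [], [], []]) := go_puts N 0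
  rw [Nat.zero_add] at g1
  have g2 : Go G (.put 3 false) (st [x, [], [], ones N, [], [], [], [], [], [], [], []])
      (1)
      (st [x, [], [], ones N ++ [false], [], [], [], [], [], [], [], []]) := Go.put false (by simp)
  have hX : ones N ++ [false] ++ x = ones N ++ false :: x := by simp
  obtain ⟨X, hX'⟩ : ∃ X, ones N ++ false :: x = X := ⟨_, rfl⟩
  have hXl : X.length = N + 1 + x.length := by rw [← hX']; simp; omega
  have g3 : Go G (.app 0 3 8) (st [x, [], [], ones N ++ [false], [], [], [], [], [], [], [], []])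
      (4 * (x : List Bool).length + 2)
      (st [x, [], [], ones N ++ [false] ++ x, [], [], [], [], [], [], [], []]) := Go.app (by simp) (by simp) (by simp)
  rw [hX, hX'] at g3
  rw [hX']
  have g4 : Go G (.copy 3 0) (st [x, [], [], X, [], [], [], [], [], [], [], []])
      ((X : List Bool).length + 1)
      (st [X, [], [], X, [], [], [], [], [], [], [], []]) := Go.copy (by simp)
  have g5 : Go G (.clear 3) (st [X, [], [], X, [], [], [], [], [], [], [], []])
      (3 * (X : List Bool).length + 1)
      (st [X, [], [], [], [], [], [], [], [], [], [], []]) := Go.clear (by simp)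
  refine (g1.seq (g2.seq (g3.seq (g4.seq g5)))).mono ?_
  rw [hXl]
  omega

/-- Compute the numbers. -/
def numP (C e1 e2 : ℕ) : Prog := .seq (.copy 0 5) (.seq (.each 5 (.put 3 true) (.put 3 true)) (.seq (iter (.put 3 true) C) (.seq (.put 4 true) (.seq (iter mulProg e2) (.seq (.copy 4 2) (.seq (.clear 4) (.seq (.put 4 true) (.seq (iter mulProg e1) (.seq (.clear 3) (.seq (.put 2 false) (.app 0 2 8)))))))))))

theorem go_numP (C e1 e2 : ℕ) {X : List Bool} {b : ℕ} (hb : X.length + C = b) :
    Go G (numP C e1 e2) (init X)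
      (30 * b + 40 + 10 * b ^ e2 + (e2 * (10 * b * (b + 1) ^ e2 + 10 * b + 10) + 1) +
        (e1 * (10 * b * (b + 1) ^ e1 + 10 * b + 10) + 1))
      (st [X, [], ones (b ^ e2) ++ false :: X, [], ones (b ^ e1), [], [], [], [], [], [], [], [], [], [], [], [], [], [], []]) := by
  rw [init_eq]
  have g1 : Go G (.copy 0 5) (st [X, [], [], [], [], [], [], [], [], [], [], []])
      ((X : List Bool).length + 1)
      (st [X, [], [], [], [], X, [], [], [], [], [], []]) := Go.copy (by simp)
  have g2 : Go G (.each 5 (.put 3 true) (.put 3 true)) (st [X, [], [], [], [], X, [], [], [], [], [], []])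
      (3 * X.length + 1)
      (st [X, [], [], ones (0 + X.length), [], [], [], [], [], [], [], []]) := go_ones X 0
  rw [Nat.zero_add] at g2
  have g3 : Go G (iter (.put 3 true) C) (st [X, [], [], ones X.length, [], [], [], [], [], [], [], []])
      (C + 1)
      (st [X, [], [], ones (X.length + C), [], [], [], [], [], [], [], []]) := go_puts C X.length
  rw [hb] at g3
  have g4 : Go G (.put 4 true) (st [X, [], [], ones b, [], [], [], [], [], [], [], []])
      (1)
      (st [X, [], [], ones b, [true], [], [], [], [], [], [], []]) := Go.put true (by simp)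
  have g5 : Go G (iter mulProg e2) (st [X, [], [], ones b, ones 1, [], [], [], [], [], [], []])
      (e2 * (10 * b * (b + 1) ^ e2 + 10 * b + 10) + 1)
      (st [X, [], [], ones b, ones (b ^ e2), [], [], [], [], [], [], []]) := go_pow e2
  have g6 : Go G (.copy 4 2) (st [X, [], [], ones b, ones (b ^ e2), [], [], [], [], [], [], []])
      ((ones (b ^ e2) : List Bool).length + 1)
      (st [X, [], ones (b ^ e2), ones b, ones (b ^ e2), [], [], [], [], [], [], []]) := Go.copy (by simp)
  have g7 : Go G (.clear 4) (st [X, [], ones (b ^ e2), ones b, ones (b ^ e2), [], [], [], [], [], [], []])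
      (3 * (ones (b ^ e2) : List Bool).length + 1)
      (st [X, [], ones (b ^ e2), ones b, [], [], [], [], [], [], [], []]) := Go.clear (by simp)
  have g8 : Go G (.put 4 true) (st [X, [], ones (b ^ e2), ones b, [], [], [], [], [], [], [], []])
      (1)
      (st [X, [], ones (b ^ e2), ones b, [true], [], [], [], [], [], [], []]) := Go.put true (by simp)
  have g9 : Go G (iter mulProg e1) (st [X, [], ones (b ^ e2), ones b, ones 1, [], [], [], [], [], [], []])
      (e1 * (10 * b * (b + 1) ^ e1 + 10 * b + 10) + 1)
      (st [X, [], ones (b ^ e2), ones b, ones (b ^ e1), [], [], [], [], [], [], []]) := go_pow e1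
  have g10 : Go G (.clear 3) (st [X, [], ones (b ^ e2), ones b, ones (b ^ e1), [], [], [], [], [], [], []])
      (3 * (ones b : List Bool).length + 1)
      (st [X, [], ones (b ^ e2), [], ones (b ^ e1), [], [], [], [], [], [], []]) := Go.clear (by simp)
  have g11 : Go G (.put 2 false) (st [X, [], ones (b ^ e2), [], ones (b ^ e1), [], [], [], [], [], [], []])
      (1)
      (st [X, [], ones (b ^ e2) ++ [false], [], ones (b ^ e1), [], [], [], [], [], [], []]) := Go.put false (by simp)
  have g12 : Go G (.app 0 2 8) (st [X, [], ones (b ^ e2) ++ [false], [], ones (b ^ e1), [], [], [], [], [], [], []])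
      (4 * (X : List Bool).length + 2)
      (st [X, [], ones (b ^ e2) ++ [false] ++ X, [], ones (b ^ e1), [], [], [], [], [], [], []]) := Go.app (by simp) (by simp) (by simp)
  have e3 : ones (b ^ e2) ++ [false] ++ X = ones (b ^ e2) ++ false :: X := by simp
  rw [e3] at g12
  have e4 : st [X, [], ones (b ^ e2) ++ false :: X, [], ones (b ^ e1), [], [], [], [], [], [], []] =
      st [X, [], ones (b ^ e2) ++ false :: X, [], ones (b ^ e1), [], [], [], [], [], [], [], [], [], [], [], [], [], [], []] :=
    (st_zeros [X, [], ones (b ^ e2) ++ false :: X, [], ones (b ^ e1), [], [], [], [], [], [], []] 8).symm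
  rw [← e4]
  refine (g1.seq (g2.seq (g3.seq (g4.seq (g5.seq (g6.seq (g7.seq (g8.seq (g9.seq (g10.seq (g11.seq g12))))))))))).mono ?_
  clear g12 g11 g10 g9 g8 g7 g6 g5 g4 g3 g2 g1
  simp only [ones, List.length_replicate]
  obtain ⟨q1, hq1⟩ : ∃ q1, e2 * (10 * b * (b + 1) ^ e2 + 10 * b + 10) = q1 := ⟨_, rfl⟩
  obtain ⟨q2, hq2⟩ : ∃ q2, e1 * (10 * b * (b + 1) ^ e1 + 10 * b + 10) = q2 := ⟨_, rfl⟩
  rw [hq1, hq2]
  generalize b ^ e2 = q3
  omega

/-- Build the instance. -/
def bldP : Prog := .seq (.copy 4 15) (.seq (.each 4 (rdBody true false) (rdBody true false)) (.seq (.clear 3) (.seq (.clear 2) (.seq (.copy 8 2) (.seq (.clear 8) (.seq (.app 15 4 7) (.seq (.app 15 4 7) (.seq (.app 15 4 7) (.seq (.each 4 (rdBody false false) (rdBody false false)) (.seq (.clear 3) (.seq (.put 5 false) (.seq (.put 5 true) (.seq (.put 5 false) (.seq (.app 2 5 7) (.seq (.ask 5 6) (.seq (.clear 5) (.seq (.copy 15 9) (.seq (.put 9 false) (.seq (.take 6 .nop (.put 9 true) (.put 9 false)) (.seq (.put 5 false) (.seq (.put 5 true) (.seq (.put 5 true) (.seq (.put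 5 false) (.seq (.app 2 5 7) (.seq (.ask 5 6) (.seq (.clear 5) (.seq (.take 6 .nop (.put 9 false) (.put 9 true)) (.seq (.app 8 9 7) (.seq (.app 0 9 7) (.seq (.clear 2) (.seq (.clear 8) (.seq (.clear 15) (.seq (.copy 9 0) (.clear 9))))))))))))))))))))))))))))))))))

theorem go_bldP {m n : ℕ} {X q : List Bool} (hm : m ≤ n) (hX : X.length ≤ n) (hq : q.length ≤ n) :
    Go G bldP (st [X, [], q, [], ones m, [], [], [], [], [], [], [], [], [], [], [], [], [], [], []])
      (200 * n * n + 600 * n + 500)
      (init (pack m (!al G (rd G tS q m)) (be G (rd G tS q m))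
        (rd G tC (rd G tS q m) (3 * m)) X)) := by
  rw [init_eq20]
  have g1 : Go G (.copy 4 15) (st [X, [], q, [], ones m, [], [], [], [], [], [], [], [], [], [], [], [], [], [], []])
      ((ones m : List Bool).length + 1)
      (st [X, [], q, [], ones m, [], [], [], [], [], [], [], [], [], [], ones m, [], [], [], []]) := Go.copy (by simp)
  have g2 : Go G (.each 4 (rdBody true false) (rdBody true false)) (st [X, [], q, [], ones m, [], [], [], [], [], [], [], [], [], [], ones m, [], [], [], []])
      ((ones m).length * (8 * (ones m).length + 8 * q.length + 60) + 1)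
      (st [X, [], q, ones (ones m).length, [], [], [], [], rd G [true, false] q (ones m).length, [], [], [], [], [], [], ones m, [], [], [], []]) := go_rd0 true false (ones m)
  rw [show (ones m).length = m by simp [ones]] at g1 g2
  obtain ⟨s, hs⟩ : ∃ s, rd G tS q m = s := ⟨_, rfl⟩
  have hsl : s.length = m := by rw [← hs, length_rd]
  change Go G _ _ _ (st [X, [], q, ones m, [], [], [], [], rd G tS q m, [], [], [], [], [], [], ones m, [], [], [], []]) at g2
  rw [hs] at g2 ⊢
  have g3 : Go G (.clear 3) (st [X, [], q, ones m, [], [], [], [], s, [], [], [], [], [], [], ones m, [], [], [], []])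
      (3 * (ones m : List Bool).length + 1)
      (st [X, [], q, [], [], [], [], [], s, [], [], [], [], [], [], ones m, [], [], [], []]) := Go.clear (by simp)
  have g4 : Go G (.clear 2) (st [X, [], q, [], [], [], [], [], s, [], [], [], [], [], [], ones m, [], [], [], []])
      (3 * (q : List Bool).length + 1)
      (st [X, [], [], [], [], [], [], [], s, [], [], [], [], [], [], ones m, [], [], [], []]) := Go.clear (by simp)
  have g5 : Go G (.copy 8 2) (st [X, [], [], [], [], [], [], [], s, [], [], [], [], [], [], ones m, [], [], [], []])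
      ((s : List Bool).length + 1)
      (st [X, [], s, [], [], [], [], [], s, [], [], [], [], [], [], ones m, [], [], [], []]) := Go.copy (by simp)
  have g6 : Go G (.clear 8) (st [X, [], s, [], [], [], [], [], s, [], [], [], [], [], [], ones m, [], [], [], []])
      (3 * (s : List Bool).length + 1)
      (st [X, [], s, [], [], [], [], [], [], [], [], [], [], [], [], ones m, [], [], [], []]) := Go.clear (by simp)
  have g7 : Go G (.app 15 4 7) (st [X, [], s, [], [], [], [], [], [], [], [], [], [], [], [], ones m, [], [], [], []])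
      (4 * (ones m : List Bool).length + 2)
      (st [X, [], s, [], ones m, [], [], [], [], [], [], [], [], [], [], ones m, [], [], [], []]) := Go.app (by simp) (by simp) (by simp)
  have g8 : Go G (.app 15 4 7) (st [X, [], s, [], ones m, [], [], [], [], [], [], [], [], [], [], ones m, [], [], [], []])
      (4 * (ones m : List Bool).length + 2)
      (st [X, [], s, [], ones m ++ ones m, [], [], [], [], [], [], [], [], [], [], ones m, [], [], [], []]) := Go.app (by simp) (by simp) (by simp)
  have g9 : Go G (.app 15 4 7) (st [X, [], s, [], ones m ++ ones m, [], [], [], [], [], [], [], [], [], [], ones m, [], [], [], []])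
      (4 * (ones m : List Bool).length + 2)
      (st [X, [], s, [], ones m ++ ones m ++ ones m, [], [], [], [], [], [], [], [], [], [], ones m, [], [], [], []]) := Go.app (by simp) (by simp) (by simp)
  obtain ⟨l, hl⟩ : ∃ l, ones m ++ ones m ++ ones m = l := ⟨_, rfl⟩
  have hll : l.length = 3 * m := by rw [← hl]; simp [ones]; omega
  rw [hl] at g9
  have g10 : Go G (.each 4 (rdBody false false) (rdBody false false)) (st [X, [], s, [], l, [], [], [], [], [], [], [], [], [], [], ones m, [], [], [], []])
      (l.length * (8 * l.length + 8 * s.length + 60) + 1)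
      (st [X, [], s, ones l.length, [], [], [], [], rd G [false, false] s l.length, [], [], [], [], [], [], ones m, [], [], [], []]) := go_rd0 false false l
  rw [hll] at g10
  obtain ⟨c, hc⟩ : ∃ c, rd G tC s (3 * m) = c := ⟨_, rfl⟩
  have hcl : c.length = 3 * m := by rw [← hc, length_rd]
  change Go G _ _ _ (st [X, [], s, ones (3 * m), [], [], [], [], rd G tC s (3 * m), [], [], [], [], [], [], ones m, [], [], [], []]) at g10
  rw [hc] at g10 ⊢
  have g11 : Go G (.clear 3) (st [X, [], s, ones (3 * m), [], [], [], [], c, [], [], [], [], [], [], ones m, [], [], [], []])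
      (3 * (ones (3 * m) : List Bool).length + 1)
      (st [X, [], s, [], [], [], [], [], c, [], [], [], [], [], [], ones m, [], [], [], []]) := Go.clear (by simp)
  have g12 : Go G (.put 5 false) (st [X, [], s, [], [], [], [], [], c, [], [], [], [], [], [], ones m, [], [], [], []])
      (1)
      (st [X, [], s, [], [], [false], [], [], c, [], [], [], [], [], [], ones m, [], [], [], []]) := Go.put false (by simp)
  have g13 : Go G (.put 5 true) (st [X, [], s, [], [], [false], [], [], c, [], [], [], [], [], [], ones m, [], [], [], []])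
      (1)
      (st [X, [], s, [], [], [false, true], [], [], c, [], [], [], [], [], [], ones m, [], [], [], []]) := Go.put true (by simp)
  have g14 : Go G (.put 5 false) (st [X, [], s, [], [], [false, true], [], [], c, [], [], [], [], [], [], ones m, [], [], [], []])
      (1)
      (st [X, [], s, [], [], [false, true, false], [], [], c, [], [], [], [], [], [], ones m, [], [], [], []]) := Go.put false (by simp)
  have g15 : Go G (.app 2 5 7) (st [X, [], s, [], [], [false, true, false], [], [], c, [], [], [], [], [], [], ones m, [], [], [], []])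
      (4 * (s : List Bool).length + 2)
      (st [X, [], s, [], [], [false, true, false] ++ s, [], [], c, [], [], [], [], [], [], ones m, [], [], [], []]) := Go.app (by simp) (by simp) (by simp)
  have g16 : Go G (.ask 5 6) (st [X, [], s, [], [], [false, true, false] ++ s, [], [], c, [], [], [], [], [], [], ones m, [], [], [], []])
      ((3 + s.length) + 1)
      (st [X, [], s, [], [], [false, true, false] ++ s, [al G s], [], c, [], [], [], [], [], [], ones m, [], [], [], []]) := (Go.ask (by simp)).mono (by simp [st]; omega)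
  have g17 : Go G (.clear 5) (st [X, [], s, [], [], [false, true, false] ++ s, [al G s], [], c, [], [], [], [], [], [], ones m, [], [], [], []])
      (3 * ([false, true, false] ++ s : List Bool).length + 1)
      (st [X, [], s, [], [], [], [al G s], [], c, [], [], [], [], [], [], ones m, [], [], [], []]) := Go.clear (by simp)
  have g18 : Go G (.copy 15 9) (st [X, [], s, [], [], [], [al G s], [], c, [], [], [], [], [], [], ones m, [], [], [], []])
      ((ones m : List Bool).length + 1)
      (st [X, [], s, [], [], [], [al G s], [], c, ones m, [], [], [], [], [], ones m, [], [], [], []]) := Go.copy (by simp)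
  have g19 : Go G (.put 9 false) (st [X, [], s, [], [], [], [al G s], [], c, ones m, [], [], [], [], [], ones m, [], [], [], []])
      (1)
      (st [X, [], s, [], [], [], [al G s], [], c, ones m ++ [false], [], [], [], [], [], ones m, [], [], [], []]) := Go.put false (by simp)
  have g20 : Go G (.take 6 .nop (.put 9 true) (.put 9 false)) (st [X, [], s, [], [], [], [al G s], [], c, ones m ++ [false], [], [], [], [], [], ones m, [], [], [], []])
      (2)
      (st [X, [], s, [], [], [], [], [], c, ones m ++ [false] ++ [!al G s], [], [], [], [], [], ones m, [], [], [], []]) := by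
    cases al G s
    · exact Go.take_false (by simp) rfl (Go.put true (by simp))
    · exact Go.take_true (by simp) rfl (Go.put false (by simp))
  have g21 : Go G (.put 5 false) (st [X, [], s, [], [], [], [], [], c, ones m ++ [false] ++ [!al G s], [], [], [], [], [], ones m, [], [], [], []])
      (1)
      (st [X, [], s, [], [], [false], [], [], c, ones m ++ [false] ++ [!al G s], [], [], [], [], [], ones m, [], [], [], []]) := Go.put false (by simp)
  have g22 : Go G (.put 5 true) (st [X, [], s, [], [], [false], [], [], c, ones m ++ [false] ++ [!al G s], [], [], [], [], [], ones m, [], [], [], []])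
      (1)
      (st [X, [], s, [], [], [false, true], [], [], c, ones m ++ [false] ++ [!al G s], [], [], [], [], [], ones m, [], [], [], []]) := Go.put true (by simp)
  have g23 : Go G (.put 5 true) (st [X, [], s, [], [], [false, true], [], [], c, ones m ++ [false] ++ [!al G s], [], [], [], [], [], ones m, [], [], [], []])
      (1)
      (st [X, [], s, [], [], [false, true, true], [], [], c, ones m ++ [false] ++ [!al G s], [], [], [], [], [], ones m, [], [], [], []]) := Go.put true (by simp)
  have g24 : Go G (.put 5 false) (st [X, [], s, [], [], [false, true, true], [], [], c, ones m ++ [false] ++ [!al G s], [], [], [], [], [], ones m, [], [], [], []])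
      (1)
      (st [X, [], s, [], [], [false, true, true, false], [], [], c, ones m ++ [false] ++ [!al G s], [], [], [], [], [], ones m, [], [], [], []]) := Go.put false (by simp)
  have g25 : Go G (.app 2 5 7) (st [X, [], s, [], [], [false, true, true, false], [], [], c, ones m ++ [false] ++ [!al G s], [], [], [], [], [], ones m, [], [], [], []])
      (4 * (s : List Bool).length + 2)
      (st [X, [], s, [], [], [false, true, true, false] ++ s, [], [], c, ones m ++ [false] ++ [!al G s], [], [], [], [], [], ones m, [], [], [], []]) := Go.app (by simp) (by simp) (by simp)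
  have g26 : Go G (.ask 5 6) (st [X, [], s, [], [], [false, true, true, false] ++ s, [], [], c, ones m ++ [false] ++ [!al G s], [], [], [], [], [], ones m, [], [], [], []])
      ((4 + s.length) + 1)
      (st [X, [], s, [], [], [false, true, true, false] ++ s, [be G s], [], c, ones m ++ [false] ++ [!al G s], [], [], [], [], [], ones m, [], [], [], []]) := (Go.ask (by simp)).mono (by simp [st]; omega)
  have g27 : Go G (.clear 5) (st [X, [], s, [], [], [false, true, true, false] ++ s, [be G s], [], c, ones m ++ [false] ++ [!al G s], [], [], [], [], [], ones m, [], [], [], []])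
      (3 * ([false, true, true, false] ++ s : List Bool).length + 1)
      (st [X, [], s, [], [], [], [be G s], [], c, ones m ++ [false] ++ [!al G s], [], [], [], [], [], ones m, [], [], [], []]) := Go.clear (by simp)
  have g28 : Go G (.take 6 .nop (.put 9 false) (.put 9 true)) (st [X, [], s, [], [], [], [be G s], [], c, ones m ++ [false] ++ [!al G s], [], [], [], [], [], ones m, [], [], [], []])
      (2)
      (st [X, [], s, [], [], [], [], [], c, ones m ++ [false] ++ [!al G s] ++ [be G s], [], [], [], [], [], ones m, [], [], [], []]) := by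
    cases be G s
    · exact Go.take_false (by simp) rfl (Go.put false (by simp))
    · exact Go.take_true (by simp) rfl (Go.put true (by simp))
  have g29 : Go G (.app 8 9 7) (st [X, [], s, [], [], [], [], [], c, ones m ++ [false] ++ [!al G s] ++ [be G s], [], [], [], [], [], ones m, [], [], [], []])
      (4 * (c : List Bool).length + 2)
      (st [X, [], s, [], [], [], [], [], c, ones m ++ [false] ++ [!al G s] ++ [be G s] ++ c, [], [], [], [], [], ones m, [], [], [], []]) := Go.app (by simp) (by simp) (by simp)
  have g30 : Go G (.app 0 9 7) (st [X, [], s, [], [], [], [], [], c, ones m ++ [false] ++ [!al G s] ++ [be G s] ++ c, [], [], [], [], [], ones m, [], [], [], []])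
      (4 * (X : List Bool).length + 2)
      (st [X, [], s, [], [], [], [], [], c, ones m ++ [false] ++ [!al G s] ++ [be G s] ++ c ++ X, [], [], [], [], [], ones m, [], [], [], []]) := Go.app (by simp) (by simp) (by simp)
  have e3 : ones m ++ [false] ++ [!al G s] ++ [be G s] ++ c ++ X =
      pack m (!al G s) (be G s) c X := by simp [pack]
  rw [e3] at g30
  obtain ⟨y, hy⟩ : ∃ y, pack m (!al G s) (be G s) c X = y := ⟨_, rfl⟩
  have hyl : y.length = 4 * m + X.length + 3 := by
    rw [← hy, length_pack, hcl]; ring
  rw [hy] at g30 ⊢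
  have g31 : Go G (.clear 2) (st [X, [], s, [], [], [], [], [], c, y, [], [], [], [], [], ones m, [], [], [], []])
      (3 * (s : List Bool).length + 1)
      (st [X, [], [], [], [], [], [], [], c, y, [], [], [], [], [], ones m, [], [], [], []]) := Go.clear (by simp)
  have g32 : Go G (.clear 8) (st [X, [], [], [], [], [], [], [], c, y, [], [], [], [], [], ones m, [], [], [], []])
      (3 * (c : List Bool).length + 1)
      (st [X, [], [], [], [], [], [], [], [], y, [], [], [], [], [], ones m, [], [], [], []]) := Go.clear (by simp)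
  have g33 : Go G (.clear 15) (st [X, [], [], [], [], [], [], [], [], y, [], [], [], [], [], ones m, [], [], [], []])
      (3 * (ones m : List Bool).length + 1)
      (st [X, [], [], [], [], [], [], [], [], y, [], [], [], [], [], [], [], [], [], []]) := Go.clear (by simp)
  have g34 : Go G (.copy 9 0) (st [X, [], [], [], [], [], [], [], [], y, [], [], [], [], [], [], [], [], [], []])
      ((y : List Bool).length + 1)
      (st [y, [], [], [], [], [], [], [], [], y, [], [], [], [], [], [], [], [], [], []]) := Go.copy (by simp)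
  have g35 : Go G (.clear 9) (st [y, [], [], [], [], [], [], [], [], y, [], [], [], [], [], [], [], [], [], []])
      (3 * (y : List Bool).length + 1)
      (st [y, [], [], [], [], [], [], [], [], [], [], [], [], [], [], [], [], [], [], []]) := Go.clear (by simp)
  refine (g1.seq (g2.seq (g3.seq (g4.seq (g5.seq (g6.seq (g7.seq (g8.seq (g9.seq (g10.seq (g11.seq (g12.seq (g13.seq (g14.seq (g15.seq (g16.seq (g17.seq (g18.seq (g19.seq (g20.seq (g21.seq (g22.seq (g23.seq (g24.seq (g25.seq (g26.seq (g27.seq (g28.seq (g29.seq (g30.seq (g31.seq (g32.seq (g33.seq (g34.seq g35)))))))))))))))))))))))))))))))))).mono ?_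
  clear g35 g34 g33 g32 g31 g30 g29 g28 g27 g26 g25 g24 g23 g22 g21 g20 g19 g18 g17 g16 g15 g14 g13 g12 g11 g10 g9 g8 g7 g6 g5 g4 g3 g2 g1
  rw [hyl]
  simp only [List.length_replicate, ones, List.length_append, List.length_cons, List.length_nil,
    hsl, hcl]
  have h3 : 3 * m * (8 * (3 * m) + 8 * m + 60) ≤ 3 * n * (8 * (3 * n) + 8 * n + 60) := by gcongr
  have h4 : 3 * n * (8 * (3 * n) + 8 * n + 60) = 96 * (n * n) + 180 * n := by ring
  have h5 : m * (8 * m + 8 * q.length + 60) ≤ n * (8 * n + 8 * n + 60) := by gcongr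
  have h6 : n * (8 * n + 8 * n + 60) = 16 * (n * n) + 60 * n := by ring
  have h7 : 200 * n * n = 200 * (n * n) := by ring
  obtain ⟨Z, hZ⟩ : ∃ Z, 3 * m * (8 * (3 * m) + 8 * m + 60) = Z := ⟨_, rfl⟩
  obtain ⟨Z2, hZ2⟩ : ∃ Z2, m * (8 * m + 8 * q.length + 60) = Z2 := ⟨_, rfl⟩
  rw [h7]
  rw [h4] at h3
  rw [h6] at h5
  rw [hZ] at h3 ⊢
  rw [hZ2] at h5 ⊢
  generalize n * n = N2 at h3 h5 ⊢
  clear h4 h6 h7 hZ hZ2
  ring_nf
  omega

/-- The program for the reduction. -/
def redP (N C e1 e2 : ℕ) (uh : Prog) : Prog :=
  .seq (padP N) (.seq (numP C e1 e2) (.seq bldP uh))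

theorem exists_red {uh : Prog} {ch : ℕ} (hh : Clocked uh ch) (cA cB N : ℕ) :
    ∃ (u : Prog) (c : ℕ), Clocked u c ∧ ∀ (R : Oracle) (x : List Bool),
      Output R u x (ev uh R (yN cA cB ch R (ones N ++ false :: x))) := by
  obtain ⟨C, hC⟩ : ∃ C, cC cA cB ch = C := ⟨_, rfl⟩
  obtain ⟨e1, he1⟩ : ∃ e1, eM cA cB = e1 := ⟨_, rfl⟩
  obtain ⟨e2, he2⟩ : ∃ e2, eL cA cB ch = e2 := ⟨_, rfl⟩
  -- bounds
  obtain ⟨b, hb⟩ : ∃ b : ℕ → ℕ, b = fun n => n + (N + 1 + C) := ⟨_, rfl⟩
  have pb : PB b := by rw [hb]; exact PB.id.add (PB.const _)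
  have pq : ∀ j, PB fun n => j * (10 * b n * (b n + 1) ^ j + 10 * b n + 10) + 1 := fun j =>
    ((PB.const j).mul (((((PB.const 10).mul pb).mul ((pb.add (PB.const 1)).pow j)).add
      ((PB.const 10).mul pb)).add (PB.const 10))).add (PB.const 1)
  obtain ⟨w, hw⟩ : ∃ w : ℕ → ℕ, w = fun n => b n ^ e1 + b n ^ e2 + b n + 1 := ⟨_, rfl⟩
  have pw : PB w := by
    rw [hw]; exact (((pb.pow e1).add (pb.pow e2)).add pb).add (PB.const 1)
  have py : PB fun n => 5 * w n + 3 := ((PB.const 5).mul pw).add (PB.const 3)
  obtain ⟨F, hF⟩ : ∃ F : ℕ → ℕ, F = fun n => (5 * N + 10 * n + 20) +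
      ((30 * b n + 40 + 10 * b n ^ e2 + (e2 * (10 * b n * (b n + 1) ^ e2 + 10 * b n + 10) + 1) +
        (e1 * (10 * b n * (b n + 1) ^ e1 + 10 * b n + 10) + 1)) +
        ((200 * w n * w n + 600 * w n + 500) + ((5 * w n + 3) ^ ch + ch))) := ⟨_, rfl⟩
  have pF : PB F := by
    rw [hF]
    exact ((((PB.const 5).mul (PB.const N)).add ((PB.const 10).mul PB.id)).add (PB.const 20)).add
      (PB.add ((((((PB.const 30).mul pb).add (PB.const 40)).add
        ((PB.const 10).mul (pb.pow e2))).add (pq e2)).add (pq e1))
      (PB.add (((((PB.const 200).mul pw).mul pw).add ((PB.const 600).mul pw)).add (PB.const 500))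
        ((py.pow ch).add (PB.const ch))))
  obtain ⟨c, hc⟩ := pF
  have key : ∀ (R : Oracle) (x : List Bool), ∃ (s t : ℕ) (τ : Store),
      Run R s (redP N C e1 e2 uh) (init x) t τ ∧ t ≤ x.length ^ c + c ∧
      τ 0 = ev uh R (yN cA cB ch R (ones N ++ false :: x)) := by
    intro R x
    obtain ⟨X, hX⟩ : ∃ X, ones N ++ false :: x = X := ⟨_, rfl⟩
    have hXl : X.length = N + 1 + x.length := by rw [← hX]; simp; omega
    have h1 := go_padP (G := R) N x
    rw [hX] at h1 ⊢
    have hbx : X.length + C = b x.length := by rw [hb, hXl]; simp only; omega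
    have h2 := go_numP (G := R) C e1 e2 hbx
    have hbw : b x.length ^ e1 ≤ w x.length := by rw [hw]; simp only; omega
    have h3 := go_bldP (G := R) (m := b x.length ^ e1) (n := w x.length) (X := X)
      (q := ones (b x.length ^ e2) ++ false :: X) hbw (by rw [hw, hXl, hb]; simp only; omega) (by
        simp only [ones, List.length_append, List.length_replicate, List.length_cons]
        rw [hw]
        simp only
        omega)
    have hy : yN cA cB ch R X = pack (b x.length ^ e1)
        (!al R (rd R tS (ones (b x.length ^ e2) ++ false :: X) (b x.length ^ e1)))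
        (be R (rd R tS (ones (b x.length ^ e2) ++ false :: X) (b x.length ^ e1)))
        (rd R tC (rd R tS (ones (b x.length ^ e2) ++ false :: X) (b x.length ^ e1))
          (3 * b x.length ^ e1)) X := by
      unfold yN
      simp only
      rw [hC, he1, he2, hbx]
    rw [← hy] at h3
    have hyl : (yN cA cB ch R X).length ≤ 5 * w x.length + 3 := by
      rw [hy, length_pack, length_rd]
      have : X.length ≤ w x.length := by rw [hw, hXl, hb]; simp only; omega
      omega
    obtain ⟨s, t, τ, h4, h5⟩ := hh R (yN cA cB ch R X)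
    have h6 : t ≤ (5 * w x.length + 3) ^ ch + ch :=
      h5.trans (Nat.add_le_add_right (Nat.pow_le_pow_left hyl ch) ch)
    obtain ⟨s', t', h7, h8⟩ := h1.seq (h2.seq (h3.seq ⟨s, t, h6, h4⟩))
    refine ⟨s', t', τ, h8, h7.trans ?_, ?_⟩
    · have := hc x.length
      rw [hF] at this
      exact this
    · exact (Output.ev_eq ⟨s, t, τ, h4, rfl⟩).symm
  refine ⟨redP N C e1 e2 uh, c, fun R x => ?_, fun R x => ?_⟩
  · obtain ⟨s, t, τ, h1, h2, _⟩ := key R x
    exact ⟨s, t, τ, h1, h2⟩
  · obtain ⟨s, t, τ, h1, _, h3⟩ := key R x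
    exact ⟨s, t, τ, h1, h3⟩

/-! ### The main theorems -/

open MeasureTheory

theorem main_of_kind (Kd : Kind) (hK : ∀ {u : Prog} {c : ℕ}, Kd.ok u c →
      ∃ (v : Prog) (c' : ℕ), Kd.ok v c' ∧ ∀ (R : Oracle) (z : List Bool),
        Kd.acc R v c' z ↔ TT (fun R x => Kd.acc R u c (unary x).2) R z)
    (cls : Oracle → Set (List Bool) → Prop)
    (hcls : ∀ R B, cls R B ↔ ∃ (u : Prog) (c : ℕ), Kd.ok u c ∧ ∀ x, x ∈ B ↔ Kd.acc R u c x) :
    ∀ᵐ R ∂randomOracle, ∀ A B : Set (List Bool),
      CompleteFor R (cls R) A → cls R B → OneOneLIU R B A := by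
  have h1 : ∀ᵐ R ∂randomOracle, ∀ (uA uB uh : Prog) (cA cB ch : ℕ),
      Kd.ok uA cA → Kd.ok uB cB → Clocked uh ch →
      (∀ z, TT (fun R x => Kd.acc R uB cB (unary x).2) R z ↔ Kd.acc R uA cA (ev uh R z)) →
      ∃ N, (∀ x x' : List Bool, x ≠ x' →
          ev uh R (yN cA cB ch R (ones N ++ false :: x)) ≠
            ev uh R (yN cA cB ch R (ones N ++ false :: x'))) ∧
        (∀ x : List Bool,
          x.length < (ev uh R (yN cA cB ch R (ones N ++ false :: x))).length) ∧
        (∀ x : List Bool, Kd.acc R uB cB x ↔
          Kd.acc R uA cA (ev uh R (yN cA cB ch R (ones N ++ false :: x)))) := by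
    refine ae_all_iff.2 fun uA => ae_all_iff.2 fun uB => ae_all_iff.2 fun uh =>
      ae_all_iff.2 fun cA => ae_all_iff.2 fun cB => ae_all_iff.2 fun ch => ?_
    exact ae_fixed Kd uA uB uh cA cB ch
  filter_upwards [h1] with R hR A B hA hB
  obtain ⟨uB, cB, hBo, hB⟩ := (hcls R B).1 hB
  obtain ⟨hA1, hA2⟩ := hA
  obtain ⟨uA, cA, hAo, hA1⟩ := (hcls R A).1 hA1
  obtain ⟨v, c', hv, hT⟩ := hK hBo
  obtain ⟨f, ⟨uh, ch, hh, hf⟩, hred⟩ := hA2 {z | Kd.acc R v c' z}
    ((hcls R _).2 ⟨v, c', hv, fun x => Iff.rfl⟩)
  have hev : ∀ z, ev uh R z = f z := fun z => (hf z).ev_eq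
  obtain ⟨N, h2, h3, h4⟩ := hR uA uB uh cA cB ch hAo hBo hh (fun z => by
    rw [← hT, hev, ← hA1]
    exact hred z)
  obtain ⟨u, c, hu, hout⟩ := exists_red hh cA cB N
  refine ⟨_, ⟨u, c, hu, hout R⟩, ?_, h3, fun x => ?_⟩
  · intro x x' hxx
    by_contra hne
    exact h2 x x' hne hxx
  · rw [hB, hA1]
    exact h4 x

/-- Random oracles and `NP`. -/
theorem main_NP : ∀ᵐ R ∂randomOracle, ∀ A B : Set (List Bool),
    CompleteFor R (NPU R) A → NPU R B → OneOneLIU R B A :=
  main_of_kind kindNP (fun hu => exists_verifier hu) NPU fun _ _ => Iff.rfl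

/-- Random oracles and `PSPACE`. -/
theorem main_PSPACE : ∀ᵐ R ∂randomOracle, ∀ A B : Set (List Bool),
    CompleteFor R (PSPACEU R) A → PSPACEU R B → OneOneLIU R B A :=
  main_of_kind kindPSPACE (fun hu => exists_program hu) PSPACEU fun _ _ => Iff.rfl

end Pool.Agent.L0h34.RO
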