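import Pool.Agent.L0h34.RO.Verify

/-! # The masked sets are in the classes -/

set_option autoImplicit false

namespace Pool.Agent.L0h34.RO

open Pool.Agent.L0h34.OM Function

variable {G : Oracle} {X W S A C T B D O E P P2 M f1 go K f2 F1 F2 Y : List Bool}

theorem length_payload_le (z : List Bool) : (payload z).length ≤ z.length := by
  have := unary_le z
  rw [payload]
  simp only [List.length_drop, List.length_tail]
  omega

/-- The masked set of a set in `NP` is in `NP`. -/
theorem exists_verifier {u : Prog} {c : ℕ} (hu : ClockedVerifier u c) :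
    ∃ (v : Prog) (c' : ℕ), ClockedVerifier v c' ∧ ∀ (R : Oracle) (z : List Bool),
      AcceptsSome R v z ↔ TT (fun R x => AcceptsSome R u (unary x).2) R z := by
  obtain ⟨c', hc'⟩ : PB fun n => 100 * n * n + 450 * n + 300 + (n ^ c + c) :=
    (((((PB.const 100).mul PB.id).mul PB.id).add ((PB.const 450).mul PB.id)).add
      (PB.const 300)).add ((PB.id.pow c).add (PB.const c))
  have key : ∀ (R : Oracle) (z W : List Bool), ∃ (s t : ℕ) (ρ : Store),
      Run R s (verP u) (init2 z W) t ρ ∧ t ≤ z.length ^ c' + c' ∧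
      (ρ 0 ≠ [] ↔ (ct R (pt (unary z).1 W) = ((unary z).2.tail.tail).take (3 * (unary z).1) ∧
        (((∃ (s t : ℕ) (τ : Store), Run R s u (init2 (unary (payload z)).2
            (W.drop (unary z).1)) t τ ∧ τ 0 ≠ []) ∧
          al R (pt (unary z).1 W) ≠ (unary z).2.headD false) ∨
          be R (pt (unary z).1 W) ≠ (unary z).2.tail.headD false))) := by
    intro R z W
    obtain ⟨s, t, τ, h1, h2⟩ := hu R (unary (payload z)).2 (W.drop (unary z).1)
    have h3 : (unary (payload z)).2.length ≤ z.length :=
      (length_unary_le _).trans (length_payload_le z)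
    have h4 : t ≤ z.length ^ c + c := h2.trans (by
      have := Nat.pow_le_pow_left h3 c
      omega)
    obtain ⟨ρ, ⟨s', t', h5, h6⟩, h7⟩ := go_verP (n := z.length) le_rfl
      (show Go R u _ t τ from ⟨s, t, le_rfl, h1⟩)
    refine ⟨s', t', ρ, h6, h5.trans ((Nat.add_le_add_left h4 _).trans (hc' z.length)), ?_⟩
    rw [h7]
    refine and_congr_right fun _ => or_congr_left (and_congr_left fun _ => ?_)
    constructor
    · intro h
      exact ⟨s, t, τ, h1, h⟩
    · rintro ⟨s2, t2, τ2, h8, h9⟩
      rw [(h1.det h8).2]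
      exact h9
  refine ⟨verP u, c', fun R z W => ?_, fun R z => ?_⟩
  · obtain ⟨s, t, ρ, h1, h2, _⟩ := key R z W
    exact ⟨s, t, ρ, h1, h2⟩
  · constructor
    · rintro ⟨W, s, t, τ, h1, h2⟩
      obtain ⟨s', t', ρ, h3, _, h4⟩ := key R z W
      rw [(h1.det h3).2, h4] at h2
      obtain ⟨h5, h6⟩ := h2
      refine ⟨pt (unary z).1 W, length_pt _ _, h5, ?_⟩
      rcases h6 with ⟨⟨s2, t2, τ2, h7, h8⟩, h9⟩ | h6
      · exact Or.inl ⟨⟨_, s2, t2, τ2, h7, h8⟩, h9⟩
      · exact Or.inr h6
    · rintro ⟨s, hs, h1, h2⟩
      rcases h2 with ⟨⟨w, s2, t2, τ2, h3, h4⟩, h5⟩ | h2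
      · obtain ⟨s', t', ρ, h6, _, h7⟩ := key R z (s ++ w)
        refine ⟨s ++ w, s', t', ρ, h6, ?_⟩
        rw [h7, ← hs, pt_append, List.drop_left]
        rw [← hs] at h1
        exact ⟨h1, Or.inl ⟨⟨s2, t2, τ2, h3, h4⟩, h5⟩⟩
      · obtain ⟨s', t', ρ, h6, _, h7⟩ := key R z (s ++ [])
        refine ⟨s ++ [], s', t', ρ, h6, ?_⟩
        rw [h7, ← hs, pt_append]
        rw [← hs] at h1
        exact ⟨h1, Or.inr h2⟩

/-! ### The search -/

/-- Is there `i < n` with `f i`? -/
def orUpto (f : ℕ → Bool) : ℕ → Bool
  | 0 => false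
  | n + 1 => orUpto f n || f n

theorem orUpto_iff {f : ℕ → Bool} {n : ℕ} : orUpto f n = true ↔ ∃ i < n, f i = true := by
  induction n with
  | zero => simp [orUpto]
  | succ n ih =>
    rw [orUpto, Bool.or_eq_true, ih]
    constructor
    · rintro (⟨i, h1, h2⟩ | h)
      · exact ⟨i, by omega, h2⟩
      · exact ⟨n, by omega, h⟩
    · rintro ⟨i, h1, h2⟩
      rcases Nat.lt_or_ge i n with h | h
      · exact Or.inl ⟨i, h, h2⟩
      · obtain rfl : i = n := by omega
        exact Or.inr h2

/-- Record a success. -/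
def ac1 : Prog := .take 13 .nop .nop (.seq (.clear 17) (.put 17 true))
/-- Record a success. -/
def ac2 : Prog := .take 16 .nop .nop (.seq (.clear 18) (.put 18 true))
/-- Forget the result. -/
def fgt : Prog := .seq (.clear 12) (.seq (.clear 13) (.clear 16))
/-- Record the result. -/
def acc : Prog := .take 12 (.seq ac1 ac2) fgt fgt

theorem go_acc (m : ℕ) (b1 b2 c1 c2 : Bool) : Go G acc
    (st [X, W, S, A, C, T, B, D, O, E, P, P2, ones m, cc b1, go, K, cc b2, cc c1, cc c2, Y]) (3 * m + 30)
    (st [X, W, S, A, C, T, B, D, O, E, P, P2, [], [], go, K, [], cc (c1 || (decide (m = 0) && b1)), cc (c2 || (decide (m = 0) && b2)), Y]) := by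
  rcases m with _ | m
  · have h1 : Go G ac1 (st [X, W, S, A, C, T, B, D, O, E, P, P2, [], cc b1, go, K, cc b2, cc c1, cc c2, Y]) 8
        (st [X, W, S, A, C, T, B, D, O, E, P, P2, [], [], go, K, cc b2, cc (c1 || b1), cc c2, Y]) := by
      cases b1
      · rw [Bool.or_false]
        exact (Go.take_nil rfl Go.nop).mono (by omega)
      · rw [Bool.or_true]
        have k1 : Go G (.clear 17) (st [X, W, S, A, C, T, B, D, O, E, P, P2, [], [], go, K, cc b2, cc c1, cc c2, Y])
            (3 * (cc c1).length + 1)
            (st [X, W, S, A, C, T, B, D, O, E, P, P2, [], [], go, K, cc b2, [], cc c2, Y]) := Go.clear (by simp)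
        have k2 : Go G (.put 17 true) (st [X, W, S, A, C, T, B, D, O, E, P, P2, [], [], go, K, cc b2, [], cc c2, Y]) 1
            (st [X, W, S, A, C, T, B, D, O, E, P, P2, [], [], go, K, cc b2, [true], cc c2, Y]) := Go.put true (by simp)
        refine (Go.take_true (T := (3 * (cc c1).length + 1) + 1) (by simp) rfl
          (k1.seq k2)).mono ?_
        have := cc_length c1
        omega
    have h2 : Go G ac2 (st [X, W, S, A, C, T, B, D, O, E, P, P2, [], [], go, K, cc b2, cc (c1 || b1), cc c2, Y]) 8
        (st [X, W, S, A, C, T, B, D, O, E, P, P2, [], [], go, K, [], cc (c1 || b1), cc (c2 || b2), Y]) := by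
      cases b2
      · rw [Bool.or_false]
        exact (Go.take_nil rfl Go.nop).mono (by omega)
      · rw [Bool.or_true]
        have k1 : Go G (.clear 18) (st [X, W, S, A, C, T, B, D, O, E, P, P2, [], [], go, K, [], cc (c1 || b1), cc c2, Y])
            (3 * (cc c2).length + 1)
            (st [X, W, S, A, C, T, B, D, O, E, P, P2, [], [], go, K, [], cc (c1 || b1), [], Y]) := Go.clear (by simp)
        have k2 : Go G (.put 18 true) (st [X, W, S, A, C, T, B, D, O, E, P, P2, [], [], go, K, [], cc (c1 || b1), [], Y]) 1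
            (st [X, W, S, A, C, T, B, D, O, E, P, P2, [], [], go, K, [], cc (c1 || b1), [true], Y]) := Go.put true (by simp)
        refine (Go.take_true (T := (3 * (cc c2).length + 1) + 1) (by simp) rfl
          (k1.seq k2)).mono ?_
        have := cc_length c2
        omega
    simp only [decide_true, Bool.true_and]
    exact (Go.take_nil rfl (h1.seq h2)).mono (by omega)
  · have e1 : decide (m + 1 = 0) = false := by simp
    rw [e1, Bool.false_and, Bool.false_and, Bool.or_false, Bool.or_false]
    have k1 : Go G (.clear 12) (st [X, W, S, A, C, T, B, D, O, E, P, P2, ones m, cc b1, go, K, cc b2, cc c1, cc c2, Y])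
        (3 * (ones m).length + 1)
        (st [X, W, S, A, C, T, B, D, O, E, P, P2, [], cc b1, go, K, cc b2, cc c1, cc c2, Y]) := Go.clear (by simp)
    have k2 : Go G (.clear 13) (st [X, W, S, A, C, T, B, D, O, E, P, P2, [], cc b1, go, K, cc b2, cc c1, cc c2, Y])
        (3 * (cc b1).length + 1)
        (st [X, W, S, A, C, T, B, D, O, E, P, P2, [], [], go, K, cc b2, cc c1, cc c2, Y]) := Go.clear (by simp)
    have k3 : Go G (.clear 16) (st [X, W, S, A, C, T, B, D, O, E, P, P2, [], [], go, K, cc b2, cc c1, cc c2, Y])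
        (3 * (cc b2).length + 1)
        (st [X, W, S, A, C, T, B, D, O, E, P, P2, [], [], go, K, [], cc c1, cc c2, Y]) := Go.clear (by simp)
    refine (Go.take_true (T := (3 * (ones m).length + 1) + ((3 * (cc b1).length + 1) +
      (3 * (cc b2).length + 1))) (by simp) rfl (k1.seq (k2.seq k3))).mono ?_
    have h1 := cc_length b1
    have h2 := cc_length b2
    simp only [ones, List.length_replicate]
    omega

theorem length_inc (c : Bool) (l : List Bool) : (inc c l).2.length = l.length := by
  induction l generalizing c with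
  | nil => rfl
  | cons b l ih => simp [inc, ih]

/-- Increment the counter; on overflow stop. -/
def incP : Prog := .seq (.put 6 true) (.seq (.each 2 nV nW) (.seq (.copy 19 2) (.seq (.clear 19) (.take 6 .nop (.clear 14) (.clear 14)))))

theorem go_incP (s : List Bool) : Go G incP (st [X, W, s, A, C, T, [], D, O, E, P, P2, M, f1, [true], K, f2, F1, F2, []])
    (9 * s.length + 10)
    (st [X, W, (inc true s).2, A, C, T, [], D, O, E, P, P2, M, f1, if (inc true s).1 then [] else [true], K, f2, F1, F2, []]) := by
  have g1 : Go G (.put 6 true) (st [X, W, s, A, C, T, [], D, O, E, P, P2, M, f1, [true], K, f2, F1, F2, []])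
      (1)
      (st [X, W, s, A, C, T, [true], D, O, E, P, P2, M, f1, [true], K, f2, F1, F2, []]) := Go.put true (by simp)
  have g2 : Go G (.each 2 nV nW) (st [X, W, s, A, C, T, cc true, D, O, E, P, P2, M, f1, [true], K, f2, F1, F2, []])
      (5 * s.length + 1)
      (st [X, W, [], A, C, T, cc (inc true s).1, D, O, E, P, P2, M, f1, [true], K, f2, F1, F2, [] ++ (inc true s).2]) := go_inc s true
  rw [List.nil_append] at g2
  have g3 : Go G (.copy 19 2) (st [X, W, [], A, C, T, cc (inc true s).1, D, O, E, P, P2, M, f1, [true], K, f2, F1, F2, (inc true s).2])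
      (((inc true s).2 : List Bool).length + 1)
      (st [X, W, (inc true s).2, A, C, T, cc (inc true s).1, D, O, E, P, P2, M, f1, [true], K, f2, F1, F2, (inc true s).2]) := Go.copy (by simp)
  have g4 : Go G (.clear 19) (st [X, W, (inc true s).2, A, C, T, cc (inc true s).1, D, O, E, P, P2, M, f1, [true], K, f2, F1, F2, (inc true s).2])
      (3 * ((inc true s).2 : List Bool).length + 1)
      (st [X, W, (inc true s).2, A, C, T, cc (inc true s).1, D, O, E, P, P2, M, f1, [true], K, f2, F1, F2, []]) := Go.clear (by simp)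
  have hgo : Go G (.take 6 .nop (.clear 14) (.clear 14)) (st [X, W, (inc true s).2, A, C, T, cc (inc true s).1, D, O, E, P, P2, M, f1, [true], K, f2, F1, F2, []]) 5
      (st [X, W, (inc true s).2, A, C, T, [], D, O, E, P, P2, M, f1, if (inc true s).1 then [] else [true], K, f2, F1, F2, []]) := by
    cases (inc true s).1
    · exact (Go.take_nil rfl Go.nop).mono (by omega)
    · exact Go.take_true (T := 4) (by simp) rfl (Go.clear (by simp))
  refine ((g1.seq (g2.seq (g3.seq (g4.seq hgo)))) : Go G incP _ _ _).mono ?_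
  rw [length_inc]
  omega

/-- One round of the search. -/
def rndP : Prog := .seq chk (.seq acc incP)

theorem go_rndP (p p' c1 c2 : Bool) {k n : ℕ} {s : List Bool} (hs : s.length = k) (hk : k ≤ n)
    (hX : X.length ≤ n) :
    Go G rndP (st [X, W, s, [], [], [], [], [], [], E, cc p, cc p', [], [], [true], ones k, [], cc c1, cc c2, []])
      (100 * n * n + 450 * n + 300)
      (st [X, W, (inc true s).2, [], [], [], [], [], [], X.drop (3 * k), cc p, cc p', [], [], if (inc true s).1 then [] else [true], ones k, [], cc (c1 || (decide (mm (ct G s) X = 0) && xor (be G s) p')), cc (c2 || (decide (mm (ct G s) X = 0) && xor (al G s) p)), []]) := by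
  have h1 := go_chk (G := G) (X := X) (W := W) (S := s) (E := E) (go := [true])
    (F1 := cc c1) (F2 := cc c2) p p' hs hk hX
  have h2 := go_acc (G := G) (X := X) (W := W) (S := s) (A := []) (C := []) (T := []) (B := [])
    (D := []) (O := []) (E := X.drop (3 * k)) (P := cc p) (P2 := cc p') (go := [true])
    (K := ones k) (Y := []) (mm (ct G s) X) (xor (be G s) p') (xor (al G s) p) c1 c2
  refine (h1.seq (h2.seq (go_incP s))).mono ?_
  have h3 := mm_le (ct G s) X
  have h4 : (ct G s).length = 3 * k := by rw [ct, length_rd, hs]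
  clear h1 h2
  generalize mm (ct G s) X = q at *
  generalize n * n = N2
  ring_nf
  omega

theorem Go.reach {u : Prog} {l : List (List Bool)} {T m : ℕ} {τ : Store}
    (h : Go G u (st l) T τ) (hl : ∀ x ∈ l, x.length ≤ m) : Reach G (m + T) u (st l) T τ := by
  obtain ⟨s, t, ht, h⟩ := h
  have h2 := (h.length_le (m := m) fun r => ?_).2
  · exact ⟨t, ht, h2.mono (by omega)⟩
  · simp only [st]
    rcases Nat.lt_or_ge r l.length with hr | hr
    · rw [List.getElem?_eq_getElem hr, Option.getD_some]
      exact hl _ (List.getElem_mem hr)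
    · rw [List.getElem?_eq_none hr]
      simp

/-- The search runs in polynomial space. -/
theorem reach_loop (p p' : Bool) {k n : ℕ} (hk : k ≤ n) (hX : X.length ≤ n) (hW : W.length ≤ n) :
    ∃ T, Reach G (100 * n * n + 460 * n + 310) (.loop 14 rndP)
      (st [X, W, List.replicate k false, [], [], [], [], [], [], [], cc p, cc p', [], [], [true], ones k, [], [], [], []])
      T
      (st [X, W, zs k (2 ^ k), [], [], [], [], [], [], X.drop (3 * k), cc p, cc p', [], [], [], ones k, [], cc (orUpto (fun j => decide (mm (ct G (zs k j)) X = 0) && xor (be G (zs k j)) p') (2 ^ k)), cc (orUpto (fun j => decide (mm (ct G (zs k j)) X = 0) && xor (al G (zs k j)) p) (2 ^ k)), []]) := by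
  have hpos : ¬ (2 ^ k ≤ 0) := by have := Nat.pos_of_ne_zero (pow_ne_zero k (two_ne_zero)); omega
  have hpos' : ¬ (2 ^ k = 0) := by omega
  have h := Reach.loop_iter (G := G) (s := 100 * n * n + 460 * n + 310) (r := 14) (u := rndP)
    (fun i => st [X, W, zs k i, [], [], [], [], [], [], if i = 0 then [] else X.drop (3 * k), cc p, cc p', [], [], if 2 ^ k ≤ i then [] else [true], ones k, [], cc (orUpto (fun j => decide (mm (ct G (zs k j)) X = 0) && xor (be G (zs k j)) p') i), cc (orUpto (fun j => decide (mm (ct G (zs k j)) X = 0) && xor (al G (zs k j)) p) i), []])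
    (2 ^ k) (100 * n * n + 450 * n + 300) (by
      intro i hi
      have hni : ¬ (2 ^ k ≤ i) := by omega
      refine ⟨by simp [st, hni], ?_⟩
      have hb := go_rndP (G := G) (X := X) (W := W) (E := if i = 0 then [] else X.drop (3 * k))
        (s := zs k i) (n := n) p p'
        (orUpto (fun j => decide (mm (ct G (zs k j)) X = 0) && xor (be G (zs k j)) p') i)
        (orUpto (fun j => decide (mm (ct G (zs k j)) X = 0) && xor (al G (zs k j)) p) i)
        (length_zs k i) hk hX
      rw [inc_zs k i hi] at hb
      have e1 : ¬ (i + 1 = 0) := by omega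
      simp only [hni, if_false, e1, decide_eq_true_eq] at hb ⊢
      refine (Go.reach (m := n + 10) hb ?_).mono_space (by omega)
      have h1 : (X.drop (3 * k)).length ≤ n := by simp only [List.length_drop]; omega
      have h2 : (if i = 0 then [] else X.drop (3 * k)).length ≤ n := by
        split_ifs
        · simp
        · exact h1
      intro x hx
      simp only [List.mem_cons, List.not_mem_nil, or_false] at hx
      have hz := length_zs k i
      rcases hx with rfl | rfl | rfl | rfl | rfl | rfl | rfl | rfl | rfl | rfl | rfl | rfl | rfl |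
        rfl | rfl | rfl | rfl | rfl | rfl | rfl <;>
        first
        | (simp only [List.length_nil]; omega)
        | omega
        | exact (cc_length _).trans (by omega)
        | (simp only [List.length_singleton]; omega)
        | (simp only [ones, List.length_replicate]; omega)) (by simp [st])
  simp only [if_true, hpos, if_false, le_refl, hpos', orUpto, zs_zero] at h
  exact ⟨_, h⟩

/-- The end of the search. -/
def endS (u : Prog) : Prog :=
  .take 17 (.take 18 rejP (.seq preP u) (.seq preP u)) accP accP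

/-- The program for the masked set. -/
def srcP (u : Prog) : Prog := .seq (.seq psA (.seq (.take 0 .nop .nop (.put 10 true)) (.seq (.take 0 .nop .nop (.put 11 true)) (.seq (.copy 15 4) (.seq (.each 4 (.put 2 false) (.put 2 false)) (.put 14 true)))))) (.seq (.loop 14 rndP) (endS u))

theorem go_srcP {u : Prog} {su t n : ℕ} {τ : Store} {z : List Bool} (hn : z.length ≤ n)
    (hsu : 100 * n * n + 500 * n + 350 ≤ su)
    (hu : Run G su u (init (unary (payload z)).2) t τ) :
    ∃ T ρ, Reach G su (srcP u) (init z) T ρ ∧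
      (ρ 0 ≠ [] ↔ ∃ s : List Bool, s.length = (unary z).1 ∧
        (ct G s = ((unary z).2.tail.tail).take (3 * (unary z).1) ∧
        ((τ 0 ≠ [] ∧ al G s ≠ (unary z).2.headD false) ∨
          be G s ≠ (unary z).2.tail.headD false))) := by
  have hz := unary_le z
  rw [payload] at hu
  rw [init_eq20] at hu ⊢
  have g1 : Go G psA (st [z, [], [], [], [], [], [], [], [], [], [], [], [], [], [], [], [], [], [], []])
      (7 * z.length + 8)
      (st [(unary z).2, [], [], [], [], [], [], [], [], [], [], [], [], [], [], ones (unary z).1, [], [], [], []]) := go_psA z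
  obtain ⟨k, hk'⟩ : ∃ k, (unary z).1 = k := ⟨_, rfl⟩
  obtain ⟨r, hr⟩ : ∃ r, (unary z).2 = r := ⟨_, rfl⟩
  rw [hr, hk'] at g1 hu hz ⊢
  have g2 : Go G (.take 0 .nop .nop (.put 10 true)) (st [r, [], [], [], [], [], [], [], [], [], [], [], [], [], [], ones k, [], [], [], []])
      (2)
      (st [r.tail, [], [], [], [], [], [], [], [], [], cc (r.headD false), [], [], [], [], ones k, [], [], [], []]) := go_h10
  have g3 : Go G (.take 0 .nop .nop (.put 11 true)) (st [r.tail, [], [], [], [], [], [], [], [], [], cc (r.headD false), [], [], [], [], ones k, [], [], [], []])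
      (2)
      (st [r.tail.tail, [], [], [], [], [], [], [], [], [], cc (r.headD false), cc (r.tail.headD false), [], [], [], ones k, [], [], [], []]) := go_h11
  obtain ⟨X, hXr⟩ : ∃ X, r.tail.tail = X := ⟨_, rfl⟩
  obtain ⟨p, hp⟩ : ∃ p, r.headD false = p := ⟨_, rfl⟩
  obtain ⟨p', hp'⟩ : ∃ p', r.tail.headD false = p' := ⟨_, rfl⟩
  have hXl : X.length ≤ r.length := by rw [← hXr]; simp only [List.length_tail]; omega
  have hk : k ≤ n := by omega
  have hX : X.length ≤ n := by omega
  rw [hXr, hp, hp'] at g3
  rw [hp] at g2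
  rw [hXr] at hu ⊢
  rw [hp, hp']
  have g4 : Go G (.copy 15 4) (st [X, [], [], [], [], [], [], [], [], [], cc p, cc p', [], [], [], ones k, [], [], [], []])
      ((ones k : List Bool).length + 1)
      (st [X, [], [], [], ones k, [], [], [], [], [], cc p, cc p', [], [], [], ones k, [], [], [], []]) := Go.copy (by simp)
  have g5 : Go G (.each 4 (.put 2 false) (.put 2 false)) (st [X, [], [], [], ones k, [], [], [], [], [], cc p, cc p', [], [], [], ones k, [], [], [], []])
      (3 * (ones k).length + 1)
      (st [X, [], [] ++ List.replicate (ones k).length false, [], [], [], [], [], [], [], cc p, cc p', [], [], [], ones k, [], [], [], []]) := go_fill (ones k)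
  rw [List.nil_append, ones, List.length_replicate] at g5
  have g6 : Go G (.put 14 true) (st [X, [], List.replicate k false, [], [], [], [], [], [], [], cc p, cc p', [], [], [], ones k, [], [], [], []])
      (1)
      (st [X, [], List.replicate k false, [], [], [], [], [], [], [], cc p, cc p', [], [], [true], ones k, [], [], [], []]) := Go.put true (by simp)
  have hpre := Go.reach (m := n) (g1.seq (g2.seq (g3.seq (g4.seq (g5.seq g6))))) (by
    intro x hx
    simp only [List.mem_cons, List.not_mem_nil, or_false] at hx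
    rcases hx with rfl | rfl | rfl | rfl | rfl | rfl | rfl | rfl | rfl | rfl | rfl | rfl | rfl |
        rfl | rfl | rfl | rfl | rfl | rfl | rfl <;>
      first
      | exact hn
      | simp)
  have hpre' := hpre.mono_space (s' := su) (by
    clear hpre g6 g5 g4 g3 g2 g1
    simp only [ones, List.length_replicate]
    ring_nf at hsu ⊢
    omega)
  obtain ⟨T1, h1⟩ := reach_loop (G := G) (X := X) (W := []) (k := k) (n := n) p p' hk hX (by simp)
  have h1' := h1.mono_space (s' := su) (by
    ring_nf at hsu ⊢
    omega)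
  have hdl : (X.drop (3 * k)).length ≤ n := by simp only [List.length_drop]; omega
  have c1l := cc_length p
  have c2l := cc_length p'
  have hz2 := length_zs k (2 ^ k)
  obtain ⟨c1, hc1⟩ : ∃ c1, orUpto (fun j => decide (mm (ct G (zs k j)) X = 0) &&
    xor (be G (zs k j)) p') (2 ^ k) = c1 := ⟨_, rfl⟩
  obtain ⟨c2, hc2⟩ : ∃ c2, orUpto (fun j => decide (mm (ct G (zs k j)) X = 0) &&
    xor (al G (zs k j)) p) (2 ^ k) = c2 := ⟨_, rfl⟩
  rw [hc1, hc2] at h1'
  have hrun := go_preP (G := G) (X := X) (W := []) (P := cc p) (P2 := cc p') (K := ones k)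
    (s := zs k (2 ^ k)) (e := X.drop (3 * k)) (n := n + 1) (by omega) (by omega) (by omega)
    (by omega) (by simp [ones]; omega)
  have hrun' := (Go.reach (m := n + 1) hrun (by
    intro x hx
    simp only [List.mem_cons, List.not_mem_nil, or_false] at hx
    rcases hx with rfl | rfl | rfl | rfl | rfl | rfl | rfl | rfl | rfl | rfl | rfl | rfl | rfl |
        rfl | rfl | rfl | rfl | rfl | rfl | rfl <;>
      first
      | (simp only [List.length_nil]; omega)
      | omega
      | (simp only [ones, List.length_replicate]; omega))).mono_space (s' := su) (by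
    ring_nf at hsu ⊢
    omega)
  have hend : ∃ T ρ, Reach G su (endS u)
      (st [X, [], zs k (2 ^ k), [], [], [], [], [], [], X.drop (3 * k), cc p, cc p', [], [], [], ones k, [], cc c1, cc c2, []]) T ρ ∧
      (ρ 0 ≠ [] ↔ ((τ 0 ≠ [] ∧ c2 = true) ∨ c1 = true)) := by
    cases c1
    · cases c2
      · refine ⟨_, _, Reach.take_nil rfl (Reach.take_nil rfl (Reach.clear' (by simp))), ?_⟩
        simp [st]
      · refine ⟨_, τ, Reach.take_nil rfl (Reach.take_true' (by simp) rfl
          (hrun'.seq ⟨t, le_rfl, hu⟩)), ?_⟩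
        simp
    · refine ⟨_, _, Reach.take_true' (by simp) rfl (Reach.put' true (by simp) ?_), ?_⟩
      · simp only [st]
        show X.length + 1 ≤ su
        ring_nf at hsu ⊢
        omega
      · simp [st]
  obtain ⟨T2, ρ, h2, h3⟩ := hend
  refine ⟨_, ρ, hpre'.seq (h1'.seq h2), ?_⟩
  rw [h3]
  have hcand : ∀ s : List Bool, s.length = k → ∃ i < 2 ^ k, zs k i = s := by
    intro s hs
    have hsurj := Finset.surj_on_of_inj_on_of_card_le (s := Finset.range (2 ^ k))
      (t := strs k) (fun i _ => zs k i) (fun i _ => mem_strs (length_zs k i))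
      (fun i j hi hj h => zs_inj (Finset.mem_range.1 hi) (Finset.mem_range.1 hj) h)
      (by rw [Finset.card_range]; exact card_strs k) s (mem_strs hs)
    obtain ⟨i, hi, h⟩ := hsurj
    exact ⟨i, Finset.mem_range.1 hi, h.symm⟩
  have hmm : ∀ s : List Bool, s.length = k → (mm (ct G s) X = 0 ↔ ct G s = X.take (3 * k)) := by
    intro s hs
    rw [mm_eq_zero, ct, length_rd, hs]
  rw [← hc1, ← hc2, orUpto_iff, orUpto_iff]
  constructor
  · rintro (⟨h4, i, hi, h5⟩ | ⟨i, hi, h5⟩)
    · simp only [Bool.and_eq_true, decide_eq_true_eq] at h5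
      refine ⟨zs k i, length_zs k i, (hmm _ (length_zs k i)).1 h5.1, Or.inl ⟨h4, ?_⟩⟩
      simpa using h5.2
    · simp only [Bool.and_eq_true, decide_eq_true_eq] at h5
      refine ⟨zs k i, length_zs k i, (hmm _ (length_zs k i)).1 h5.1, Or.inr ?_⟩
      simpa using h5.2
  · rintro ⟨s, hs, h4, h5⟩
    obtain ⟨i, hi, rfl⟩ := hcand s hs
    rcases h5 with ⟨h5, h6⟩ | h5
    · refine Or.inl ⟨h5, i, hi, ?_⟩
      simp only [Bool.and_eq_true, decide_eq_true_eq]
      exact ⟨(hmm _ hs).2 h4, by simpa using h6⟩
    · refine Or.inr ⟨i, hi, ?_⟩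
      simp only [Bool.and_eq_true, decide_eq_true_eq]
      exact ⟨(hmm _ hs).2 h4, by simpa using h5⟩

/-- The masked set of a set in `PSPACE` is in `PSPACE`. -/
theorem exists_program {u : Prog} {c : ℕ} (hu : SpaceBounded u c) :
    ∃ (v : Prog) (c' : ℕ), SpaceBounded v c' ∧ ∀ (R : Oracle) (z : List Bool),
      Accepts R v z ↔ TT (fun R x => Accepts R u (unary x).2) R z := by
  obtain ⟨c', hc'⟩ : PB fun n => 100 * n * n + 500 * n + 350 + (n ^ c + c) :=
    (((((PB.const 100).mul PB.id).mul PB.id).add ((PB.const 500).mul PB.id)).add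
      (PB.const 350)).add ((PB.id.pow c).add (PB.const c))
  have key : ∀ (R : Oracle) (z : List Bool), ∃ (t : ℕ) (ρ : Store),
      Run R (z.length ^ c' + c') (srcP u) (init z) t ρ ∧
      (ρ 0 ≠ [] ↔ TT (fun R x => Accepts R u (unary x).2) R z) := by
    intro R z
    obtain ⟨t, τ, h1⟩ := hu R (unary (payload z)).2
    have h3 : (unary (payload z)).2.length ≤ z.length :=
      (length_unary_le _).trans (length_payload_le z)
    have h4 := Nat.pow_le_pow_left h3 c
    have h5 := hc' z.length
    simp only at h5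
    obtain ⟨T, ρ, ⟨T', _, h6⟩, h7⟩ := go_srcP (G := R) (su := z.length ^ c' + c') (n := z.length)
      le_rfl (by omega) (h1.mono (by omega))
    refine ⟨T', ρ, h6, ?_⟩
    rw [h7]
    refine exists_congr fun s => and_congr_right fun _ => and_congr_right fun _ =>
      or_congr_left (and_congr_left fun _ => ?_)
    constructor
    · intro h
      exact ⟨_, t, τ, h1, h⟩
    · rintro ⟨s2, t2, τ2, h8, h9⟩
      rw [(h1.det h8).2]
      exact h9
  refine ⟨srcP u, c', fun R z => ?_, fun R z => ?_⟩
  · obtain ⟨t, ρ, h1, _⟩ := key R z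
    exact ⟨t, ρ, h1⟩
  · obtain ⟨t, ρ, h1, h2⟩ := key R z
    rw [← h2]
    constructor
    · rintro ⟨s2, t2, τ2, h8, h9⟩
      rw [(h1.det h8).2]
      exact h9
    · intro h
      exact ⟨_, t, ρ, h1, h⟩

end Pool.Agent.L0h34.RO
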