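import Pool.Agent.L0h34.RO.Search

/-! # One query: the combinatorial core -/

set_option autoImplicit false

namespace Pool.Agent.L0h34.RO

open Pool.Agent.L0h34.OM MeasureTheory
open scoped ENNReal

/-- A family of measure preserving maps glued along an invariant. -/
theorem mp_piece {ι : Type} [Countable ι] (a : Oracle → ι) (ha : ∀ k, MeasurableSet {R | a R = k})
    (T : ι → Oracle → Oracle) (hT : ∀ k, MeasurePreserving (T k) randomOracle randomOracle)
    (hinv : ∀ k R, a (T k R) = k ↔ a R = k) :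
    MeasurePreserving (fun R => T (a R) R) randomOracle randomOracle := by
  have hpre : ∀ S : Set Oracle, (fun R => T (a R) R) ⁻¹' S =
      ⋃ k, (T k) ⁻¹' ({R | a R = k} ∩ S) := by
    intro S
    ext R
    simp only [Set.mem_preimage, Set.mem_iUnion, Set.mem_inter_iff, Set.mem_ofPred_eq]
    constructor
    · intro h
      exact ⟨a R, (hinv _ _).2 rfl, h⟩
    · rintro ⟨k, h1, h2⟩
      rw [(hinv _ _).1 h1]
      exact h2
  have hmeas : Measurable fun R => T (a R) R := by
    intro S hS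
    rw [hpre]
    exact MeasurableSet.iUnion fun k => (hT k).measurable ((ha k).inter hS)
  refine ⟨hmeas, ?_⟩
  ext S hS
  rw [Measure.map_apply hmeas hS, hpre, measure_iUnion]
  · have h1 : ∀ k, randomOracle ((T k) ⁻¹' ({R | a R = k} ∩ S)) =
        randomOracle ({R | a R = k} ∩ S) := fun k =>
      (hT k).measure_preimage ((ha k).inter hS).nullMeasurableSet
    simp only [h1]
    rw [← measure_iUnion]
    · congr 1
      ext R
      simp
    · intro k l hkl
      refine Set.disjoint_left.2 fun R h1 h2 => hkl ?_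
      rw [← h1.1, ← h2.1]
    · exact fun k => (ha k).inter hS
  · intro k l hkl
    refine Set.disjoint_left.2 fun R h1 h2 => hkl ?_
    simp only [Set.mem_preimage, Set.mem_inter_iff, Set.mem_ofPred_eq] at h1 h2
    rw [← (hinv _ _).1 h1.1, ← (hinv _ _).1 h2.1]
  · exact fun k => (hT k).measurable ((ha k).inter hS)

theorem mp_xr (D : Oracle) : MeasurePreserving (xr D) randomOracle randomOracle :=
  ⟨measurable_xr D, map_xr D⟩

theorem mp_pm (e : Equiv.Perm (List Bool)) : MeasurePreserving (pm e) randomOracle randomOracle :=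
  ⟨measurable_pm e, map_pm e⟩

/-- The tag of the spare blocks. -/
def uU : List Bool := [true, true, false]
/-- The tag of the spare seeds. -/
def uV : List Bool := [true, true, true]

theorem adr_ne {τ τ' : List Bool} (h2 : 2 ≤ τ.length) (h2' : 2 ≤ τ'.length)
    (h : τ.take 2 ≠ τ'.take 2) (t t' : ℕ) (Q Q' : List Bool) : adr τ t Q ≠ adr τ' t' Q' := by
  intro he
  apply h
  have := congrArg (List.take 2) he
  simp only [adr] at this
  rwa [List.take_append_of_le_length h2, List.take_append_of_le_length h2'] at this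

/-- A well-founded order of the strings. -/
def ltw (x x' : List Bool) : Prop :=
  x.length < x'.length ∨ (x.length = x'.length ∧ Encodable.encode x < Encodable.encode x')

theorem ltw_or_ltw {x x' : List Bool} (h : x ≠ x') : ltw x x' ∨ ltw x' x := by
  rcases Nat.lt_trichotomy x.length x'.length with h1 | h1 | h1
  · exact Or.inl (Or.inl h1)
  · rcases Nat.lt_trichotomy (Encodable.encode x) (Encodable.encode x') with h2 | h2 | h2
    · exact Or.inl (Or.inr ⟨h1, h2⟩)
    · exact absurd (Encodable.encode_injective h2) h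
    · exact Or.inr (Or.inr ⟨h1.symm, h2⟩)
  · exact Or.inr (Or.inl h1)

theorem ltw.ne {x x' : List Bool} (h : ltw x x') : x ≠ x' := by
  rintro rfl
  rcases h with h | h
  · exact lt_irrefl _ h
  · exact lt_irrefl _ h.2

theorem ltw.le {x x' : List Bool} (h : ltw x x') : x.length ≤ x'.length := by
  rcases h with h | h <;> omega

theorem ltw_wf : WellFounded ltw := by
  have h : WellFounded (InvImage (Prod.Lex (· < ·) (· < ·))
      fun x : List Bool => (x.length, Encodable.encode x)) :=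
    InvImage.wf _ (WellFounded.prod_lex (wellFounded_lt (α := ℕ)) (wellFounded_lt (α := ℕ)))
  refine Subrelation.wf ?_ h
  intro x x' hx
  simp only [InvImage]
  rcases hx with hx | hx
  · exact Prod.Lex.left _ _ hx
  · rw [hx.1]
    exact Prod.Lex.right _ hx.2

/-- The data of the argument for one query: `oh` is the output of the reduction. The first bit of the
output is the answer if the query is not in `A`, the second bit is the answer if it is in `A`, and the rest is
the query. -/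
structure Data1 where
  oh : Oracle → List Bool → List Bool
  tb : ℕ → ℕ
  sup : ∀ R z, ∃ Q : Finset (List Bool), Q.card ≤ tb z.length ∧
    (∀ q ∈ Q, q.length ≤ z.length + tb z.length) ∧
    ∀ R' : Oracle, (∀ q ∈ Q, R' q = R q) → oh R' z = oh R z
  oh_len : ∀ R z, (oh R z).length ≤ z.length + tb z.length
  vA : Oracle → List Bool → Prop
  vB : Oracle → List Bool → Prop
  lb : ℕ → ℕ
  lb_mono : Monotone lb
  vA_local : ∀ R R' x, Agree (lb x.length) R R' → (vA R' x ↔ vA R x)
  vB_local : ∀ R R' x, Agree (lb x.length) R R' → (vB R' x ↔ vB R x)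
  la : ℕ → ℕ
  la_mono : Monotone la
  vA_la : ∀ R R' x, Agree (la x.length) R R' → (vA R' x ↔ vA R x)
  cert : ∀ R q, vA R q → ∃ Q : Finset (List Bool), Q.card ≤ la q.length ∧
    (∀ a ∈ Q, a.length ≤ la q.length) ∧ ∀ R' : Oracle, (∀ a ∈ Q, R' a = R a) → vA R' q
  m : ℕ → ℕ
  m_mono : StrictMono m
  lb_lt : ∀ n, lb n < m n
  L : ℕ → ℕ
  L_mono : Monotone L
  tb_lt : ∀ n n', n' ≤ n → (4 * m n' + n' + 3) + tb (4 * m n' + n' + 3) +
    la ((4 * m n' + n' + 3) + tb (4 * m n' + n' + 3)) < L n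
  num : ∀ n, 2 ^ (3 * n + 19) * (L n + 1) ≤ 2 ^ m n

namespace Data1

variable (d : Data1)

/-- The suffix of the private addresses of `x`. -/
def lx (x : List Bool) : List Bool := ones (d.L x.length) ++ false :: x

theorem lx_inj {x x' : List Bool} (h : d.lx x = d.lx x') : x = x' := (replicate_append_inj h).2

theorem length_lx (x : List Bool) : (d.lx x).length = d.L x.length + 1 + x.length := by
  simp [lx]; omega

/-- The seed of `x`. -/
def sx (R : Oracle) (x : List Bool) : List Bool := rd R tS (d.lx x) (d.m x.length)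
/-- The spare seed of `x`. -/
def vx (R : Oracle) (x : List Bool) : List Bool := rd R uV (d.lx x) (d.m x.length)
/-- The spare block of `x`. -/
def ux (R : Oracle) (x : List Bool) : List Bool := rd R uU (d.lx x) (3 * d.m x.length)

theorem length_sx (R : Oracle) (x : List Bool) : (d.sx R x).length = d.m x.length :=
  length_rd _ _ _ _
theorem length_vx (R : Oracle) (x : List Bool) : (d.vx R x).length = d.m x.length :=
  length_rd _ _ _ _
theorem length_ux (R : Oracle) (x : List Bool) : (d.ux R x).length = 3 * d.m x.length :=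
  length_rd _ _ _ _

/-- The three contents for `x`. -/
def cn (R : Oracle) (x : List Bool) : Fin 3 → List Bool
  | 0 => ct R (d.sx R x)
  | 1 => d.ux R x
  | 2 => ct R (d.vx R x)

theorem length_cn (R : Oracle) (x : List Bool) (i : Fin 3) :
    (d.cn R x i).length = 3 * d.m x.length := by
  fin_cases i
  · show (ct R (d.sx R x)).length = _
    rw [ct, length_rd, length_sx]
  · exact d.length_ux R x
  · show (ct R (d.vx R x)).length = _
    rw [ct, length_rd, length_vx]

/-- The candidates for `x`. -/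
def cd (R : Oracle) (x : List Bool) (p p' : Bool) (i : Fin 3) : List Bool :=
  pack (d.m x.length) p p' (d.cn R x i) x

theorem length_cd (R : Oracle) (x : List Bool) (p p' : Bool) (i : Fin 3) :
    (d.cd R x p p' i).length = 4 * d.m x.length + x.length + 3 := by
  rw [cd, length_pack, length_cn]; ring

/-- `z` is a candidate for `x`. -/
def IsCand (R : Oracle) (x z : List Bool) : Prop := ∃ p p' i, z = d.cd R x p p' i

/-- The value of the output `o`. -/
def Val (R : Oracle) (o : List Bool) : Prop :=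
  (d.vA R (o.drop 2) ∧ o.tail.headD false = true) ∨ (¬ d.vA R (o.drop 2) ∧ o.headD false = true)

/-- The reduction is correct. -/
def E (R : Oracle) : Prop := ∀ z, (TT d.vB R z ↔ d.Val R (d.oh R z))

/-- The output has the form of a many-one reduction. -/
def IdT (o : List Bool) : Prop := o.headD false = false ∧ o.tail.headD false = true

/-- The reduction is not as we want it at `x`. -/
def Bad (N : ℕ) (R : Oracle) (x : List Bool) : Prop :=
  ∃ z, d.IsCand R x z ∧ (¬ IdT (d.oh R z) ∨ ((d.oh R z).drop 2).length ≤ x.length ∨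
    ∃ x', N ≤ x'.length ∧ ltw x' x ∧ ∃ z', d.IsCand R x' z' ∧
      (d.oh R z').drop 2 = (d.oh R z).drop 2)

/-- `R'` agrees with `R` at the short places that do not belong to the seeds of `x`. -/
def Off (R : Oracle) (x : List Bool) (R' : Oracle) : Prop :=
  ∀ q : List Bool, q.length ≤ d.L x.length → q ∉ loc (d.sx R x) → q ∉ loc (d.vx R x) → R' q = R q

/-- `R'` agrees with `R` at the short places that do not belong to the spare seed of `x`. -/
def OffV (R : Oracle) (x : List Bool) (R' : Oracle) : Prop :=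
  ∀ q : List Bool, q.length ≤ d.L x.length → q ∉ loc (d.vx R x) → R' q = R q

/-- The output for `z` does not depend on the places that belong to the seeds of `x`. -/
def Q2 (R : Oracle) (x z : List Bool) : Prop := ∀ R', d.Off R x R' → d.oh R' z = d.oh R z

/-- The membership of the query does not depend on the places that belong to the spare seed. -/
def Keep (R : Oracle) (x z : List Bool) : Prop :=
  d.vA R ((d.oh R z).drop 2) → ∀ R', d.OffV R x R' → d.vA R' ((d.oh R z).drop 2)

/-- The oracle is typical for `x`. -/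
structure Good (R : Oracle) (x : List Bool) : Prop where
  uniq : ∀ s s' : List Bool, s.length = d.m x.length → s'.length = d.m x.length →
    ct R s = ct R s' → s = s'
  spare : ∀ x' s : List Bool, x'.length = x.length → s.length = d.m x.length →
    d.ux R x' ≠ ct R s
  self : d.sx R x ≠ d.vx R x
  dist : ∀ x' : List Bool, x'.length = x.length → x' ≠ x → d.sx R x' ≠ d.sx R x ∧
    d.sx R x' ≠ d.vx R x ∧ d.vx R x' ≠ d.sx R x ∧ d.vx R x' ≠ d.vx R x
  quiet : ∀ x' : List Bool, x'.length ≤ x.length → ∀ p p' i, d.Q2 R x (d.cd R x' p p' i)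
  keep : ∀ p p', d.Keep R x (d.cd R x p p' 1)

/-! ### The maps -/

open Classical in
/-- Exchange the contents of `σ` with the spare block of `x`. -/
noncomputable def exch (σ x q : List Bool) : List Bool :=
  if h : ∃ t, q = adr tC t σ then adr uU h.choose (d.lx x)
  else if h : ∃ t, q = adr uU t (d.lx x) then adr tC h.choose σ else q

theorem exch_C (σ x : List Bool) (t : ℕ) : d.exch σ x (adr tC t σ) = adr uU t (d.lx x) := by
  have h : ∃ t', adr tC t σ = adr tC t' σ := ⟨t, rfl⟩
  rw [exch, dif_pos h, ← (adr_inj rfl h.choose_spec).2.1]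

theorem exch_U (σ x : List Bool) (t : ℕ) : d.exch σ x (adr uU t (d.lx x)) = adr tC t σ := by
  have h0 : ¬ ∃ t', adr uU t (d.lx x) = adr tC t' σ := by
    rintro ⟨t', h⟩
    exact adr_ne (by simp [uU]) (by simp [tC]) (by simp [uU, tC]) _ _ _ _ h
  have h : ∃ t', adr uU t (d.lx x) = adr uU t' (d.lx x) := ⟨t, rfl⟩
  rw [exch, dif_neg h0, dif_pos h, ← (adr_inj rfl h.choose_spec).2.1]

theorem exch_of_ne {σ x q : List Bool} (h1 : ∀ t, q ≠ adr tC t σ)
    (h2 : ∀ t, q ≠ adr uU t (d.lx x)) : d.exch σ x q = q := by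
  rw [exch, dif_neg (by rintro ⟨t, h⟩; exact h1 t h), dif_neg (by rintro ⟨t, h⟩; exact h2 t h)]

theorem exch_exch (σ x : List Bool) : Function.Involutive (d.exch σ x) := by
  intro q
  by_cases h1 : ∃ t, q = adr tC t σ
  · obtain ⟨t, rfl⟩ := h1
    rw [exch_C, exch_U]
  · by_cases h2 : ∃ t, q = adr uU t (d.lx x)
    · obtain ⟨t, rfl⟩ := h2
      rw [exch_U, exch_C]
    · have := d.exch_of_ne (fun t h => h1 ⟨t, h⟩) (fun t h => h2 ⟨t, h⟩)
      rw [this, this]

/-- The oracle with the contents of `σ` and the spare block of `x` exchanged. -/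
noncomputable def ex (σ x : List Bool) (R : Oracle) : Oracle := fun q => R (d.exch σ x q)

/-- The oracle with one answer changed. -/
def fl (a : List Bool) (R : Oracle) : Oracle := OM.flip R a

theorem mp_ex (σ x : List Bool) : MeasurePreserving (d.ex σ x) randomOracle randomOracle :=
  mp_pm (d.exch_exch σ x).toPerm

theorem fl_eq (a : List Bool) : fl a = xr (fun q => decide (q = a)) := by
  funext R q
  by_cases h : q = a <;> simp [fl, OM.flip, xr, h]

theorem mp_fl (a : List Bool) : MeasurePreserving (fl a) randomOracle randomOracle := by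
  rw [fl_eq]; exact mp_xr _

/-- The possible kinds of elementary changes. -/
inductive Kd : Type
  | i : Kd
  | xs : Kd
  | xv : Kd
  | s0 : Kd
  | s1 : Kd
  | v1 : Kd
  deriving DecidableEq

instance : Fintype Kd :=
  Fintype.ofSurjective (fun i : Fin 6 => match i with
    | 0 => Kd.i | 1 => Kd.xs | 2 => Kd.xv | 3 => Kd.s0 | 4 => Kd.s1 | 5 => Kd.v1) (by
      intro k
      cases k
      · exact ⟨0, rfl⟩
      · exact ⟨1, rfl⟩
      · exact ⟨2, rfl⟩
      · exact ⟨3, rfl⟩
      · exact ⟨4, rfl⟩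
      · exact ⟨5, rfl⟩)

/-- The elementary change, for given seeds. -/
noncomputable def tk (x : List Bool) : Kd → (List Bool × List Bool) → Oracle → Oracle
  | .i, _, R => R
  | .xs, s, R => d.ex s.1 x R
  | .xv, s, R => d.ex s.2 x R
  | .s0, s, R => fl (adr tM 0 s.1) R
  | .s1, s, R => fl (adr tM 1 s.1) R
  | .v1, s, R => fl (adr tM 1 s.2) R

/-- Both seeds. -/
def sv (R : Oracle) (x : List Bool) : List Bool × List Bool := (d.sx R x, d.vx R x)

/-- The elementary change. -/
noncomputable def tr (x : List Bool) (k : Kd) (R : Oracle) : Oracle := d.tk x k (d.sv R x) R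

/-- The changes do not touch the seeds. -/
theorem tk_of_ne (x : List Bool) (k : Kd) (s : List Bool × List Bool) (R : Oracle) {q : List Bool}
    (h1 : q ∉ loc s.1) (h2 : q ∉ loc s.2) (h3 : ∀ t, q ≠ adr uU t (d.lx x)) :
    d.tk x k s R q = R q := by
  have hx : ∀ σ, q ∉ loc σ → d.ex σ x R q = R q := by
    intro σ h
    rw [ex, d.exch_of_ne (fun t ht => h ⟨t, Or.inl ht⟩) h3]
  have hf : ∀ (σ : List Bool) (j : ℕ), q ∉ loc σ → fl (adr tM j σ) R q = R q := by
    intro σ j h
    have : q ≠ adr tM j σ := fun ht => h ⟨j, Or.inr ht⟩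
    simp [fl, OM.flip, this]
  cases k
  · rfl
  · exact hx _ h1
  · exact hx _ h2
  · exact hf _ _ h1
  · exact hf _ _ h1
  · exact hf _ _ h2

theorem not_mem_loc {τ : List Bool} (h2 : 2 ≤ τ.length) (hC : τ.take 2 ≠ tC)
    (hM : τ.take 2 ≠ tM) (t : ℕ) (Q σ : List Bool) : adr τ t Q ∉ loc σ := by
  rintro ⟨t', h | h⟩
  · exact adr_ne h2 (by simp [tC]) (by simpa [tC] using hC) _ _ _ _ h
  · exact adr_ne h2 (by simp [tM]) (by simpa [tM] using hM) _ _ _ _ h

theorem sx_tk (x : List Bool) (k : Kd) (s : List Bool × List Bool) (R : Oracle) (x' : List Bool) :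
    d.sx (d.tk x k s R) x' = d.sx R x' :=
  rd_congr fun t _ => d.tk_of_ne x k s R
    (not_mem_loc (by simp [tS]) (by simp [tS, tC]) (by simp [tS, tM]) _ _ _)
    (not_mem_loc (by simp [tS]) (by simp [tS, tC]) (by simp [tS, tM]) _ _ _)
    fun t' => adr_ne (by simp [tS]) (by simp [uU]) (by simp [tS, uU]) _ _ _ _

theorem vx_tk (x : List Bool) (k : Kd) (s : List Bool × List Bool) (R : Oracle) (x' : List Bool) :
    d.vx (d.tk x k s R) x' = d.vx R x' :=
  rd_congr fun t _ => d.tk_of_ne x k s R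
    (not_mem_loc (by simp [uV]) (by simp [uV, tC]) (by simp [uV, tM]) _ _ _)
    (not_mem_loc (by simp [uV]) (by simp [uV, tC]) (by simp [uV, tM]) _ _ _)
    fun t' h => by
      have := (adr_inj (by rfl) h).1
      simp [uV, uU] at this

theorem sv_tk (x : List Bool) (k : Kd) (s : List Bool × List Bool) (R : Oracle) (x' : List Bool) :
    d.sv (d.tk x k s R) x' = d.sv R x' := by
  rw [sv, sv, sx_tk, vx_tk]

theorem sx_tr (x : List Bool) (k : Kd) (R : Oracle) (x' : List Bool) :
    d.sx (d.tr x k R) x' = d.sx R x' := d.sx_tk _ _ _ _ _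

theorem vx_tr (x : List Bool) (k : Kd) (R : Oracle) (x' : List Bool) :
    d.vx (d.tr x k R) x' = d.vx R x' := d.vx_tk _ _ _ _ _

theorem ux_tr_of_ne {x x' : List Bool} (h : x' ≠ x) (k : Kd) (R : Oracle) :
    d.ux (d.tr x k R) x' = d.ux R x' :=
  rd_congr fun t _ => d.tk_of_ne x k _ R
    (not_mem_loc (by simp [uU]) (by simp [uU, tC]) (by simp [uU, tM]) _ _ _)
    (not_mem_loc (by simp [uU]) (by simp [uU, tC]) (by simp [uU, tM]) _ _ _)
    fun t' h' => h (d.lx_inj (adr_inj (by rfl) h').2.2)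

theorem ct_tr_of_ne {x s : List Bool} (k : Kd) (R : Oracle) (h1 : s ≠ d.sx R x)
    (h2 : s ≠ d.vx R x) : ct (d.tr x k R) s = ct R s :=
  rd_congr fun t _ => d.tk_of_ne x k _ R
    (fun h => h1 (loc_disjoint ⟨t, Or.inl rfl⟩ h))
    (fun h => h2 (loc_disjoint ⟨t, Or.inl rfl⟩ h))
    fun t' h' => adr_ne (by simp [tC]) (by simp [uU]) (by simp [tC, uU]) _ _ _ _ h'

theorem ct_ex_self (σ x : List Bool) (R : Oracle) (hσ : σ.length = d.m x.length) :
    ct (d.ex σ x R) σ = d.ux R x := by
  rw [ct, ux, hσ]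
  refine List.map_congr_left fun t _ => ?_
  rw [ex, exch_C]

theorem ux_ex_self (σ x : List Bool) (R : Oracle) (hσ : σ.length = d.m x.length) :
    d.ux (d.ex σ x R) x = ct R σ := by
  rw [ct, ux, hσ]
  refine List.map_congr_left fun t _ => ?_
  rw [ex, exch_U]

theorem ct_ex_of_ne {σ s : List Bool} (x : List Bool) (R : Oracle) (h : s ≠ σ) :
    ct (d.ex σ x R) s = ct R s :=
  rd_congr fun t _ => by
    rw [ex, d.exch_of_ne]
    · intro t' h'
      exact h (adr_inj rfl h').2.2
    · intro t' h'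
      exact adr_ne (by simp [tC]) (by simp [uU]) (by simp [tC, uU]) _ _ _ _ h'

theorem ct_fl (σ s : List Bool) (j : ℕ) (R : Oracle) : ct (fl (adr tM j σ) R) s = ct R s :=
  rd_congr fun t _ => by
    have : adr tC t s ≠ adr tM j σ := adr_ne (by simp [tC]) (by simp [tM]) (by simp [tC, tM]) _ _ _ _
    simp [fl, OM.flip, this]

theorem ux_fl (σ x : List Bool) (j : ℕ) (R : Oracle) : d.ux (fl (adr tM j σ) R) x = d.ux R x :=
  rd_congr fun t _ => by
    have : adr uU t (d.lx x) ≠ adr tM j σ :=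
      adr_ne (by simp [uU]) (by simp [tM]) (by simp [uU, tM]) _ _ _ _
    simp [fl, OM.flip, this]

theorem ex_ex (σ x : List Bool) (R : Oracle) : d.ex σ x (d.ex σ x R) = R := by
  funext q
  rw [ex, ex, d.exch_exch σ x]

theorem fl_fl (a : List Bool) (R : Oracle) : fl a (fl a R) = R := by
  funext q
  by_cases h : q = a <;> simp [fl, OM.flip, h]

theorem tk_tk (x : List Bool) (k : Kd) (s : List Bool × List Bool) (R : Oracle) :
    d.tk x k s (d.tk x k s R) = R := by
  cases k
  · rfl
  · exact d.ex_ex _ _ _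
  · exact d.ex_ex _ _ _
  · exact fl_fl _ _
  · exact fl_fl _ _
  · exact fl_fl _ _

theorem tr_tr (x : List Bool) (k : Kd) (R : Oracle) : d.tr x k (d.tr x k R) = R := by
  have h : d.sv (d.tr x k R) x = d.sv R x := d.sv_tk _ _ _ _ _
  rw [tr, h]
  exact d.tk_tk _ _ _ _

/-- The changes preserve the contents of the other strings. -/
theorem cn_tr_of_ne {x : List Bool} {R : Oracle} (hg : d.Good R x) (k : Kd) {x' : List Bool}
    (hx' : x'.length ≤ x.length) (hne : x' ≠ x) (i : Fin 3) :
    d.cn (d.tr x k R) x' i = d.cn R x' i := by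
  have h1 : d.sx R x' ≠ d.sx R x ∧ d.sx R x' ≠ d.vx R x ∧ d.vx R x' ≠ d.sx R x ∧
      d.vx R x' ≠ d.vx R x := by
    rcases Nat.lt_or_ge x'.length x.length with h | h
    · have hm := d.m_mono h
      have a1 := d.length_sx R x'
      have a2 := d.length_sx R x
      have a3 := d.length_vx R x'
      have a4 := d.length_vx R x
      refine ⟨fun h => ?_, fun h => ?_, fun h => ?_, fun h => ?_⟩ <;>
        have := congrArg List.length h <;> omega
    · exact hg.dist x' (by omega) hne
  fin_cases i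
  · show ct (d.tr x k R) (d.sx (d.tr x k R) x') = ct R (d.sx R x')
    rw [sx_tr, d.ct_tr_of_ne k R h1.1 h1.2.1]
  · exact d.ux_tr_of_ne hne k R
  · show ct (d.tr x k R) (d.vx (d.tr x k R) x') = ct R (d.vx R x')
    rw [vx_tr, d.ct_tr_of_ne k R h1.2.2.1 h1.2.2.2]

/-- The changes permute the contents of `x`. -/
theorem cn_tr {x : List Bool} {R : Oracle} (hs : d.sx R x ≠ d.vx R x) (k : Kd) (i : Fin 3) :
    ∃ j, d.cn (d.tr x k R) x i = d.cn R x j := by
  have e1 : ∀ k, d.cn (d.tr x k R) x 0 = ct (d.tr x k R) (d.sx R x) := fun k => by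
    show ct (d.tr x k R) (d.sx (d.tr x k R) x) = _
    rw [sx_tr]
  have e2 : ∀ k, d.cn (d.tr x k R) x 2 = ct (d.tr x k R) (d.vx R x) := fun k => by
    show ct (d.tr x k R) (d.vx (d.tr x k R) x) = _
    rw [vx_tr]
  have l1 := d.length_sx R x
  have l2 := d.length_vx R x
  cases k
  · exact ⟨i, rfl⟩
  · fin_cases i
    · exact ⟨1, (e1 _).trans (d.ct_ex_self _ _ _ l1)⟩
    · exact ⟨0, d.ux_ex_self _ _ _ l1⟩
    · exact ⟨2, (e2 _).trans (d.ct_ex_of_ne x R (Ne.symm hs))⟩
  · fin_cases i
    · exact ⟨0, (e1 _).trans (d.ct_ex_of_ne x R hs)⟩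
    · exact ⟨2, d.ux_ex_self _ _ _ l2⟩
    · exact ⟨1, (e2 _).trans (d.ct_ex_self _ _ _ l2)⟩
  · fin_cases i
    · exact ⟨0, (e1 _).trans (ct_fl _ _ _ _)⟩
    · exact ⟨1, d.ux_fl _ _ _ _⟩
    · exact ⟨2, (e2 _).trans (ct_fl _ _ _ _)⟩
  · fin_cases i
    · exact ⟨0, (e1 _).trans (ct_fl _ _ _ _)⟩
    · exact ⟨1, d.ux_fl _ _ _ _⟩
    · exact ⟨2, (e2 _).trans (ct_fl _ _ _ _)⟩
  · fin_cases i
    · exact ⟨0, (e1 _).trans (ct_fl _ _ _ _)⟩
    · exact ⟨1, d.ux_fl _ _ _ _⟩
    · exact ⟨2, (e2 _).trans (ct_fl _ _ _ _)⟩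

/-- The changes preserve the candidates. -/
theorem isCand_tr {x : List Bool} {R : Oracle} (hg : d.Good R x) (k : Kd) {x' z : List Bool}
    (hx' : x'.length ≤ x.length) : d.IsCand (d.tr x k R) x' z ↔ d.IsCand R x' z := by
  by_cases hne : x' = x
  · subst hne
    have key : ∀ R0 : Oracle, d.sx R0 x' ≠ d.vx R0 x' → d.IsCand (d.tr x' k R0) x' z →
        d.IsCand R0 x' z := by
      rintro R0 hs ⟨p, p', i, rfl⟩
      obtain ⟨j, hj⟩ := d.cn_tr hs k i
      exact ⟨p, p', j, by rw [cd, cd, hj]⟩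
    refine ⟨key R hg.self, fun h => key (d.tr x' k R) ?_ ?_⟩
    · rw [sx_tr, vx_tr]; exact hg.self
    · rw [tr_tr]; exact h
  · constructor
    · rintro ⟨p, p', i, rfl⟩
      exact ⟨p, p', i, by rw [cd, cd, d.cn_tr_of_ne hg k hx' hne]⟩
    · rintro ⟨p, p', i, rfl⟩
      exact ⟨p, p', i, by rw [cd, cd, d.cn_tr_of_ne hg k hx' hne]⟩

theorem off_tr (x : List Bool) (k : Kd) (R : Oracle) : d.Off R x (d.tr x k R) := by
  intro q hq h1 h2
  refine d.tk_of_ne x k _ R h1 h2 fun t h => ?_
  rw [h, length_adr, length_lx] at hq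
  omega

/-- Two oracles for which the reduction looks the same up to `x`. -/
structure Sim (x : List Bool) (R R' : Oracle) : Prop where
  cand : ∀ x' z : List Bool, x'.length ≤ x.length → (d.IsCand R' x' z ↔ d.IsCand R x' z)
  out : ∀ x' z : List Bool, x'.length ≤ x.length → d.IsCand R x' z → d.oh R' z = d.oh R z
  sx : ∀ x', d.sx R' x' = d.sx R x'
  vx : ∀ x', d.vx R' x' = d.vx R x'

theorem Sim.refl (x : List Bool) (R : Oracle) : d.Sim x R R :=
  ⟨fun _ _ _ => Iff.rfl, fun _ _ _ _ => rfl, fun _ => rfl, fun _ => rfl⟩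

theorem Sim.trans {x : List Bool} {R R' R'' : Oracle} (h : d.Sim x R R') (h' : d.Sim x R' R'') :
    d.Sim x R R'' :=
  ⟨fun x' z hx => (h'.cand x' z hx).trans (h.cand x' z hx),
    fun x' z hx hz => (h'.out x' z hx ((h.cand x' z hx).2 hz)).trans (h.out x' z hx hz),
    fun x' => (h'.sx x').trans (h.sx x'), fun x' => (h'.vx x').trans (h.vx x')⟩

theorem sim_tr {x : List Bool} {R : Oracle} (hg : d.Good R x) (k : Kd) :
    d.Sim x R (d.tr x k R) := by
  refine ⟨fun x' z hx => d.isCand_tr hg k hx, ?_, fun x' => d.sx_tr _ _ _ _,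
    fun x' => d.vx_tr _ _ _ _⟩
  rintro x' z hx ⟨p, p', i, rfl⟩
  exact hg.quiet x' hx p p' i _ (d.off_tr x k R)

theorem Sim.bad {x : List Bool} {R R' : Oracle} (h : d.Sim x R R') (N : ℕ) {x' : List Bool}
    (hx' : x'.length ≤ x.length) : d.Bad N R' x' ↔ d.Bad N R x' := by
  unfold Bad
  refine exists_congr fun z => ?_
  rw [h.cand x' z hx']
  refine and_congr_right fun hz => ?_
  rw [h.out x' z hx' hz]
  refine or_congr_right (or_congr_right (exists_congr fun x'' => and_congr_right fun _ => ?_))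
  refine and_congr_right fun hlt => exists_congr fun z' => ?_
  have hx'' := hlt.le.trans hx'
  rw [h.cand x'' z' hx'']
  refine and_congr_right fun hz' => ?_
  rw [h.out x'' z' hx'' hz']

/-- Four changes. -/
noncomputable def ch (x : List Bool) (c : Kd × Kd × Kd × Kd) (R : Oracle) : Oracle :=
  d.tr x c.2.2.2 (d.tr x c.2.2.1 (d.tr x c.2.1 (d.tr x c.1 R)))

/-- All the changed oracles are typical. -/
def Typ (x : List Bool) (R : Oracle) : Prop := ∀ c, d.Good (d.ch x c R) x

theorem Typ.sim {x : List Bool} {R : Oracle} (h : d.Typ x R) (c : Kd × Kd × Kd × Kd) :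
    d.Sim x R (d.ch x c R) := by
  obtain ⟨k1, k2, k3, k4⟩ := c
  have h0 : d.Good R x := h (.i, .i, .i, .i)
  have h1 : d.Good (d.tr x k1 R) x := h (k1, .i, .i, .i)
  have h2 : d.Good (d.tr x k2 (d.tr x k1 R)) x := h (k1, k2, .i, .i)
  have h3 : d.Good (d.tr x k3 (d.tr x k2 (d.tr x k1 R))) x := h (k1, k2, k3, .i)
  exact (((d.sim_tr h0 k1).trans d (d.sim_tr h1 k2)).trans d (d.sim_tr h2 k3)).trans d
    (d.sim_tr h3 k4)

/-! ### The modes -/

/-- `R'` differs from `R` only in the modes of `σ`. -/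
def Mod (σ : List Bool) (R R' : Oracle) : Prop := ∀ q, (∀ t, q ≠ adr tM t σ) → R' q = R q

theorem Mod.trans {σ : List Bool} {R R' R'' : Oracle} (h : Mod σ R R') (h' : Mod σ R' R'') :
    Mod σ R R'' := fun q hq => (h' q hq).trans (h q hq)

theorem mod_fl (σ : List Bool) (j : ℕ) (R : Oracle) : Mod σ R (fl (adr tM j σ) R) := by
  intro q hq
  simp [fl, OM.flip, hq j]

theorem Mod.ct {σ : List Bool} {R R' : Oracle} (h : Mod σ R R') (s : List Bool) :
    ct R' s = ct R s :=
  rd_congr fun t _ => h _ fun t' => adr_ne (by simp [tC]) (by simp [tM]) (by simp [tC, tM]) _ _ _ _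

theorem Mod.al {σ s : List Bool} {R R' : Oracle} (h : Mod σ R R') (hs : s ≠ σ) :
    al R' s = al R s := h _ fun t h' => hs (adr_inj rfl h').2.2

theorem Mod.be {σ s : List Bool} {R R' : Oracle} (h : Mod σ R R') (hs : s ≠ σ) :
    be R' s = be R s := h _ fun t h' => hs (adr_inj rfl h').2.2

theorem Mod.agree {σ : List Bool} {R R' : Oracle} (h : Mod σ R R') {N : ℕ} (hN : N < σ.length) :
    Agree N R R' := by
  intro q hq
  refine h q fun t ht => ?_
  rw [ht, length_adr] at hq
  omega

theorem al_s0 (σ : List Bool) (R : Oracle) : al (fl (adr tM 0 σ) R) σ = !al R σ := by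
  simp [al, fl, OM.flip]

theorem be_s0 (σ : List Bool) (R : Oracle) : be (fl (adr tM 0 σ) R) σ = be R σ := by
  have : adr tM 1 σ ≠ adr tM 0 σ := fun h => by
    have := (adr_inj rfl h).2.1
    omega
  simp [be, fl, OM.flip, this]

theorem be_s1 (σ : List Bool) (R : Oracle) : be (fl (adr tM 1 σ) R) σ = !be R σ := by
  simp [be, fl, OM.flip]

/-- The value of the instance for the seed. -/
theorem TT_seed {x σ : List Bool} {R1 R' : Oracle} (hσ : σ.length = d.m x.length)
    (hu : ∀ s s' : List Bool, s.length = d.m x.length → s'.length = d.m x.length →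
      ct R1 s = ct R1 s' → s = s') (h : ∀ s, ct R' s = ct R1 s) (p p' : Bool) :
    TT d.vB R' (pack (d.m x.length) p p' (ct R1 σ) x) ↔
      ((d.vB R' x ∧ al R' σ ≠ p) ∨ be R' σ ≠ p') := by
  rw [TT_pack (by rw [ct, length_rd, hσ])]
  constructor
  · rintro ⟨s, hs, h1, h2⟩
    rw [h] at h1
    have := hu s σ hs hσ h1
    rw [← this]
    exact h2
  · intro h2
    exact ⟨σ, hσ, h σ, h2⟩

/-- By changes of the modes the instance can be made true, and it can be made false. -/
theorem modes {x : List Bool} {R1 : Oracle}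
    (hu : ∀ s s' : List Bool, s.length = d.m x.length → s'.length = d.m x.length →
      ct R1 s = ct R1 s' → s = s') (p p' : Bool) :
    ∃ k1 k2 k1' k2' : Kd, Mod (d.sx R1 x) R1 (d.tr x k2 (d.tr x k1 R1)) ∧
      Mod (d.sx R1 x) R1 (d.tr x k2' (d.tr x k1' R1)) ∧
      TT d.vB (d.tr x k2 (d.tr x k1 R1)) (pack (d.m x.length) p p' (ct R1 (d.sx R1 x)) x) ∧
      ¬ TT d.vB (d.tr x k2' (d.tr x k1' R1)) (pack (d.m x.length) p p' (ct R1 (d.sx R1 x)) x) := by
  have hl := d.length_sx R1 x
  obtain ⟨σ, hσ⟩ : ∃ σ, d.sx R1 x = σ := ⟨_, rfl⟩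
  have e0 : ∀ R', d.sx R' x = σ → d.tr x .s0 R' = fl (adr tM 0 σ) R' := fun R' h => by
    rw [← h]; rfl
  have e1 : ∀ R', d.sx R' x = σ → d.tr x .s1 R' = fl (adr tM 1 σ) R' := fun R' h => by
    rw [← h]; rfl
  rw [hσ] at hl ⊢
  have key : ∀ R', Mod σ R1 R' → (TT d.vB R' (pack (d.m x.length) p p' (ct R1 σ) x) ↔
      ((d.vB R' x ∧ al R' σ ≠ p) ∨ be R' σ ≠ p')) := fun R' h => d.TT_seed hl hu h.ct p p'
  -- an oracle with the right second mode
  have hbe : ∀ b, ∃ k, Mod σ R1 (d.tr x k R1) ∧ be (d.tr x k R1) σ = b := by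
    intro b
    by_cases h : be R1 σ = b
    · exact ⟨.i, fun q _ => rfl, h⟩
    · refine ⟨.s1, ?_, ?_⟩
      · rw [e1 R1 hσ]; exact mod_fl _ _ _
      · rw [e1 R1 hσ, be_s1]
        revert h
        cases be R1 σ <;> cases b <;> simp
  obtain ⟨k1, hk1, hk1'⟩ := hbe (!p')
  obtain ⟨k1', hk2, hk2'⟩ := hbe p'
  have hal : ∃ k, Mod σ R1 (d.tr x k (d.tr x k1' R1)) ∧ be (d.tr x k (d.tr x k1' R1)) σ = p' ∧
      al (d.tr x k (d.tr x k1' R1)) σ = p := by
    by_cases h : al (d.tr x k1' R1) σ = p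
    · exact ⟨.i, hk2, hk2', h⟩
    · have hσ' : d.sx (d.tr x k1' R1) x = σ := by rw [sx_tr, hσ]
      refine ⟨.s0, ?_, ?_, ?_⟩
      · rw [e0 _ hσ']; exact hk2.trans (mod_fl _ _ _)
      · rw [e0 _ hσ', be_s0]; exact hk2'
      · rw [e0 _ hσ', al_s0]
        revert h
        cases al (d.tr x k1' R1) σ <;> cases p <;> simp
  obtain ⟨k2', hk3, hk3', hk3''⟩ := hal
  refine ⟨k1, .i, k1', k2', hk1, hk3, (key _ hk1).2 (Or.inr ?_), fun h => ?_⟩
  · rw [hk1']; cases p' <;> simp
  · rcases (key _ hk3).1 h with h | h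
    · exact h.2 hk3''
    · exact h hk3'

/-- The value of the instances for the other strings does not depend on the modes. -/
theorem TT_other {x x' : List Bool} {R1 R2 R3 : Oracle} (hg : d.Good R1 x) (hlt : ltw x' x)
    (h2 : Mod (d.sx R1 x) R1 R2) (h3 : Mod (d.sx R1 x) R1 R3) (p p' : Bool) (j : Fin 3)
    (h : TT d.vB R2 (d.cd R1 x' p p' j)) : TT d.vB R3 (d.cd R1 x' p p' j) := by
  have hl := d.length_sx R1 x
  rw [cd, TT_pack (by rw [length_cn])] at h ⊢
  obtain ⟨s, hs, hc, hv⟩ := h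
  rw [h2.ct] at hc
  have hne : s ≠ d.sx R1 x := by
    rintro rfl
    have hm : d.m x'.length = d.m x.length := by rw [← hs, hl]
    have hlen := d.m_mono.injective hm
    have hd := hg.dist x' hlen hlt.ne
    have : ∀ i, d.cn R1 x' i ≠ ct R1 (d.sx R1 x) := by
      intro i
      fin_cases i
      · intro h
        exact hd.1 (hg.uniq _ _ (by rw [length_sx, hlen]) hl h)
      · exact hg.spare x' _ hlen hl
      · intro h
        exact hd.2.2.1 (hg.uniq _ _ (by rw [length_vx, hlen]) hl h)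
    exact this j hc.symm
  have hag2 : Agree (d.lb x'.length) R1 R2 := h2.agree (by
    have h5 := d.lb_mono hlt.le
    have h6 := d.lb_lt x.length
    omega)
  have hag3 : Agree (d.lb x'.length) R1 R3 := h3.agree (by
    have h5 := d.lb_mono hlt.le
    have h6 := d.lb_lt x.length
    omega)
  refine ⟨s, hs, by rw [h3.ct]; exact hc, ?_⟩
  rw [h2.al hne, h2.be hne, d.vB_local R1 R2 x' hag2] at hv
  rw [h3.al hne, h3.be hne, d.vB_local R1 R3 x' hag3]
  exact hv

/-- The main combinatorial lemma: the first bad string leads to an incorrect reduction. -/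
theorem not_bad {x : List Bool} {R : Oracle} {N : ℕ} (hE : ∀ c, d.E (d.ch x c R))
    (hT : d.Typ x R) (hfirst : ∀ x', N ≤ x'.length → ltw x' x → ¬ d.Bad N R x') :
    ¬ d.Bad N R x := by
  rintro ⟨z, ⟨p, p', i, rfl⟩, hbad⟩
  obtain ⟨z, hz⟩ : ∃ z, d.cd R x p p' i = z := ⟨_, rfl⟩
  obtain ⟨o, ho⟩ : ∃ o, d.oh R z = o := ⟨_, rfl⟩
  have hcand : d.IsCand R x z := ⟨p, p', i, hz.symm⟩
  have hout : ∀ c, d.oh (d.ch x c R) z = o := fun c => by
    rw [← ho]; exact (hT.sim d c).out x z le_rfl hcand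
  have hval : ∀ c, (TT d.vB (d.ch x c R) z ↔ d.Val (d.ch x c R) o) := fun c => by
    have := hE c z
    rwa [hout c] at this
  -- bring the contents to the seed
  have hbring : ∃ k1 k2 : Kd, ct (d.tr x k2 (d.tr x k1 R)) (d.sx R x) = d.cn R x i := by
    have hself := hT (.i, .i, .i, .i) |>.self
    fin_cases i
    · exact ⟨.i, .i, rfl⟩
    · exact ⟨.xs, .i, d.ct_ex_self _ _ _ (d.length_sx R x)⟩
    · refine ⟨.xv, .xs, ?_⟩
      have h1 : d.sv (d.tr x .xv R) x = d.sv R x := d.sv_tk _ _ _ _ _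
      have h2 : d.tr x .xs (d.tr x .xv R) = d.ex (d.sx R x) x (d.tr x .xv R) := by
        rw [tr, h1]; rfl
      rw [h2, d.ct_ex_self _ _ _ (d.length_sx R x)]
      exact d.ux_ex_self _ _ _ (d.length_vx R x)
  obtain ⟨k1, k2, hb⟩ := hbring
  obtain ⟨R1, hR1⟩ : ∃ R1, d.tr x k2 (d.tr x k1 R) = R1 := ⟨_, rfl⟩
  have hg1 : d.Good R1 x := by rw [← hR1]; exact hT (k1, k2, .i, .i)
  have hsx1 : d.sx R1 x = d.sx R x := by rw [← hR1, sx_tr, sx_tr]
  rw [hR1] at hb
  have hz1 : pack (d.m x.length) p p' (ct R1 (d.sx R1 x)) x = z := by rw [hsx1, hb, ← hz]; rfl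
  obtain ⟨a1, a2, a3, a4, m1, m2, t1, t2⟩ := d.modes hg1.uniq p p' (x := x)
  rw [hz1] at t1 t2
  have v1 : d.Val (d.tr x a2 (d.tr x a1 R1)) o := by
    have := hval (k1, k2, a1, a2)
    simp only [ch, hR1] at this
    exact this.1 t1
  have v2 : ¬ d.Val (d.tr x a4 (d.tr x a3 R1)) o := fun hv => by
    have := hval (k1, k2, a3, a4)
    simp only [ch, hR1] at this
    exact t2 (this.2 hv)
  have o1 : ∀ x' z' : List Bool, x'.length ≤ x.length → d.IsCand R x' z' →
      d.oh (d.tr x a2 (d.tr x a1 R1)) z' = d.oh R z' := fun x' z' h1 h2 => by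
    have := (hT.sim d (k1, k2, a1, a2)).out x' z' h1 h2
    simpa only [ch, hR1] using this
  have o2 : ∀ x' z' : List Bool, x'.length ≤ x.length → d.IsCand R x' z' →
      d.oh (d.tr x a4 (d.tr x a3 R1)) z' = d.oh R z' := fun x' z' h1 h2 => by
    have := (hT.sim d (k1, k2, a3, a4)).out x' z' h1 h2
    simpa only [ch, hR1] using this
  have E1 : d.E (d.tr x a2 (d.tr x a1 R1)) := by
    have := hE (k1, k2, a1, a2)
    simpa only [ch, hR1] using this
  have E2 : d.E (d.tr x a4 (d.tr x a3 R1)) := by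
    have := hE (k1, k2, a3, a4)
    simpa only [ch, hR1] using this
  obtain ⟨R2, hR2⟩ : ∃ R2, d.tr x a2 (d.tr x a1 R1) = R2 := ⟨_, rfl⟩
  obtain ⟨R3, hR3⟩ : ∃ R3, d.tr x a4 (d.tr x a3 R1) = R3 := ⟨_, rfl⟩
  rw [hR2] at m1 v1 o1 E1
  rw [hR3] at m2 v2 o2 E2
  -- the query is long
  have hq : ¬ (o.drop 2).length ≤ x.length := by
    intro hlen
    have hag : ∀ R', Mod (d.sx R1 x) R1 R' → (d.vA R' (o.drop 2) ↔ d.vA R1 (o.drop 2)) := by
      intro R' h
      refine d.vA_local R1 R' _ (h.agree ?_)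
      rw [length_sx]
      exact lt_of_le_of_lt (d.lb_mono hlen) (d.lb_lt _)
    have h1 := hag R2 m1
    have h2 := hag R3 m2
    unfold Val at v1 v2
    rw [h1] at v1
    rw [h2] at v2
    exact v2 v1
  -- the form of the output
  have hty : IdT o := by
    by_contra hcon
    have hcases : (o.headD false = o.tail.headD false) ∨
        (o.headD false = true ∧ o.tail.headD false = false) := by
      revert hcon
      unfold IdT
      cases o.headD false <;> cases o.tail.headD false <;> simp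
    rcases hcases with h | ⟨h, h'⟩
    · unfold Val at v1 v2
      rw [h] at v1 v2
      apply v2
      have h3 : o.tail.headD false = true := by
        rcases v1 with v1 | v1
        · exact v1.2
        · exact v1.2
      rw [h3]
      tauto
    · -- negative form
      have hbring : ∃ k : Kd, d.ux (d.tr x k R) x = d.cn R x i := by
        fin_cases i
        · exact ⟨.xs, d.ux_ex_self _ _ _ (d.length_sx R x)⟩
        · exact ⟨.i, rfl⟩
        · exact ⟨.xv, d.ux_ex_self _ _ _ (d.length_vx R x)⟩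
      obtain ⟨k, hk⟩ := hbring
      obtain ⟨R4, hR4⟩ : ∃ R4, d.tr x k R = R4 := ⟨_, rfl⟩
      rw [hR4] at hk
      have hg4 : d.Good R4 x := by rw [← hR4]; exact hT (k, .i, .i, .i)
      have hz4 : d.cd R4 x p p' 1 = z := by
        rw [← hz, cd, cd, ← hk]; rfl
      have ho4 : d.oh R4 z = o := by rw [← hR4]; exact hout (k, .i, .i, .i)
      have hv4 : d.vA R4 (o.drop 2) := by
        have h1 : (TT d.vB R4 z ↔ d.Val R4 o) := by rw [← hR4]; exact hval (k, .i, .i, .i)
        have h2 : ¬ TT d.vB R4 z := by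
          rw [← hz4, cd, TT_pack (by rw [length_cn])]
          rintro ⟨s, hs, hc, _⟩
          exact hg4.spare x s rfl hs hc.symm
        rw [h1] at h2
        by_contra hcon
        exact h2 (Or.inr ⟨hcon, h⟩)
      have hkeep := hg4.keep p p'
      rw [hz4, Keep, ho4] at hkeep
      have hkeep := hkeep hv4
      obtain ⟨ρ, hρ⟩ : ∃ ρ, d.vx R4 x = ρ := ⟨_, rfl⟩
      have hρl : ρ.length = d.m x.length := by rw [← hρ, length_vx]
      have e1 : d.tr x .xv R4 = d.ex ρ x R4 := by rw [← hρ]; rfl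
      have e2 : d.tr x .v1 (d.tr x .xv R4) = fl (adr tM 1 ρ) (d.ex ρ x R4) := by
        have : d.vx (d.tr x .xv R4) x = ρ := by rw [vx_tr, hρ]
        rw [← e1]
        show fl (adr tM 1 (d.vx (d.tr x .xv R4) x)) _ = _
        rw [this]
      have hoff1 : d.OffV R4 x (d.ex ρ x R4) := by
        intro q hq1 hq2
        rw [hρ] at hq2
        rw [ex, d.exch_of_ne (fun t ht => hq2 ⟨t, Or.inl ht⟩)]
        intro t ht
        rw [ht, length_adr, length_lx] at hq1
        omega
      have hoff2 : d.OffV R4 x (fl (adr tM 1 ρ) (d.ex ρ x R4)) := by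
        intro q hq1 hq2
        have h3 : q ≠ adr tM 1 ρ := fun ht => hq2 (hρ ▸ ⟨1, Or.inr ht⟩)
        rw [← hoff1 q hq1 hq2]
        simp [fl, OM.flip, h3]
      have hv5 := hkeep _ hoff1
      have hv6 := hkeep _ hoff2
      have n1 : ¬ TT d.vB (d.ex ρ x R4) z := by
        have h1 : (TT d.vB (d.ex ρ x R4) z ↔ d.Val (d.ex ρ x R4) o) := by
          rw [← e1, ← hR4]; exact hval (k, .xv, .i, .i)
        rw [h1]
        rintro (⟨_, h2⟩ | ⟨h2, _⟩)
        · rw [h'] at h2; exact Bool.noConfusion h2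
        · exact h2 hv5
      have n2 : ¬ TT d.vB (fl (adr tM 1 ρ) (d.ex ρ x R4)) z := by
        have h1 : (TT d.vB (fl (adr tM 1 ρ) (d.ex ρ x R4)) z ↔
            d.Val (fl (adr tM 1 ρ) (d.ex ρ x R4)) o) := by
          rw [← e2, ← hR4]; exact hval (k, .xv, .v1, .i)
        rw [h1]
        rintro (⟨_, h2⟩ | ⟨h2, _⟩)
        · rw [h'] at h2; exact Bool.noConfusion h2
        · exact h2 hv6
      have hct : ct (d.ex ρ x R4) ρ = d.cn R4 x 1 := d.ct_ex_self _ _ _ hρl
      rw [← hz4, cd, TT_pack (by rw [length_cn])] at n1 n2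
      have b1 : be (d.ex ρ x R4) ρ = p' := by
        by_contra hcon
        exact n1 ⟨ρ, hρl, hct, Or.inr hcon⟩
      have b2 : be (fl (adr tM 1 ρ) (d.ex ρ x R4)) ρ = p' := by
        by_contra hcon
        exact n2 ⟨ρ, hρl, by rw [ct_fl]; exact hct, Or.inr hcon⟩
      rw [be_s1, b1] at b2
      revert b2
      cases p' <;> simp
  rw [hz, ho] at hbad
  rcases hbad with h | h | ⟨x', hx', hlt, z', hz', hqq⟩
  · exact h hty
  · exact hq h
  · -- collision
    have hx'' := hlt.le
    have hty' : IdT (d.oh R z') := by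
      by_contra hcon
      exact hfirst x' hx' hlt ⟨z', hz', Or.inl hcon⟩
    have hval' : ∀ (R' : Oracle) (o' : List Bool), IdT o' → (d.Val R' o' ↔ d.vA R' (o'.drop 2)) := by
      rintro R' o' ⟨h1, h2⟩
      unfold Val
      rw [h1, h2]
      simp
    have hcn' : d.IsCand R1 x' z' := by
      have := (hT.sim d (k1, k2, .i, .i)).cand x' z' hx''
      simp only [ch] at this
      rw [← hR1]
      exact this.2 hz'
    obtain ⟨p1, p1', j, hj⟩ := hcn'
    have w1 : TT d.vB R2 z' := by
      rw [E1 z', o1 x' z' hx'' hz', hval' _ _ hty', hqq, ← hval' _ _ hty]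
      exact v1
    have w2 : ¬ TT d.vB R3 z' := by
      rw [E2 z', o2 x' z' hx'' hz', hval' _ _ hty', hqq, ← hval' _ _ hty]
      exact v2
    rw [hj] at w1 w2
    exact w2 (d.TT_other hg1 hlt m1 m2 p1 p1' j w1)

end Data1

end Pool.Agent.L0h34.RO
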