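import Pool.Agent.L0h34.RO.TRed

/-! # One query: the main theorem -/

set_option autoImplicit false

namespace Pool.Agent.L0h34.RO

open Pool.Agent.L0h34.OM MeasureTheory

/-- `B` is reducible to `A` by a polynomial-time reduction with one query (a 1-truth-table reduction),
relative to `R`: the function `f` computes a query `q` and two bits; `x` is in `B` if and only if
the second bit is `true` in case `q` is in `A`, and the first bit is `true` in case `q` is not
in `A`. -/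
def OneQueryU (R : Oracle) (B A : Set (List Bool)) : Prop :=
  ∃ f, FPU R f ∧ ∀ x, ∃ (a b : Bool) (q : List Bool), f x = a :: b :: q ∧
    (x ∈ B ↔ (q ∈ A ∧ b = true) ∨ (q ∉ A ∧ a = true))

/-- `A` is complete for `NP` under reductions with one query, relative to `R`. -/
def OneQueryComplete (R : Oracle) (A : Set (List Bool)) : Prop :=
  NPU R A ∧ ∀ B, NPU R B → OneQueryU R B A

/-- An accepting computation depends on few short strings. -/
theorem acceptsSome_cert {u : Prog} {c : ℕ} (hu : ClockedVerifier u c) {R : Oracle}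
    {q : List Bool} (h : AcceptsSome R u q) : ∃ Q : Finset (List Bool), Q.card ≤ lbd c q.length ∧
      (∀ a ∈ Q, a.length ≤ lbd c q.length) ∧
      ∀ R' : Oracle, (∀ a ∈ Q, R' a = R a) → AcceptsSome R' u q := by
  classical
  obtain ⟨w, s, t, τ, h1, h2⟩ := h
  obtain ⟨s', t', τ', h1', h3⟩ := hu R q w
  obtain ⟨rfl, rfl⟩ := h1.det h1'
  have ht : t ≤ lbd c q.length := h3.trans (by unfold lbd; omega)
  obtain ⟨Q, h4, h5⟩ := h1.local_card
  refine ⟨Q.filter fun a => a.length ≤ lbd c q.length,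
    (Finset.card_filter_le _ _).trans (h4.trans ht), fun a ha => (Finset.mem_filter.1 ha).2,
    fun R' hR' => ⟨w, s, t, τ, ?_, h2⟩⟩
  have h6 := h5 (fun a => if a.length ≤ lbd c q.length then R' a else R a) fun a ha => by
    by_cases hs : a.length ≤ lbd c q.length
    · simp [hs, hR' a (Finset.mem_filter.2 ⟨ha, hs⟩)]
    · simp [hs]
  exact run_local_time h6 ht fun a ha => by simp [ha]

theorem Clocked.ev_length {u : Prog} {c : ℕ} (h : Clocked u c) (R : Oracle) (x : List Bool) :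
    (ev u R x).length ≤ x.length + (x.length ^ c + c) := by
  obtain ⟨s, t, τ, h1, h2⟩ := h R x
  have h3 := (h1.length_le (init_length x)).1 0
  have h4 : Output R u x (τ 0) := ⟨s, t, τ, h1, rfl⟩
  rw [h4.ev_eq]
  omega

/-! ### The parameters -/

/-- The exponent of `L`. -/
def eT (cA cB ch : ℕ) : ℕ := eL cA cB ch * (cA + 1) + 2
/-- The additive constant. -/
def cT (cA cB ch : ℕ) : ℕ := cA + cB + ch + eT cA cB ch + 40

theorem par1_lb {cA cB C : ℕ} (hC : cA + cB + 20 ≤ C) (n : ℕ) :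
    lbd cA n + lbd cB n < (n + C) ^ eM cA cB := by
  obtain ⟨N, hN⟩ : ∃ N, n + C = N := ⟨_, rfl⟩
  rw [hN]
  have hNn : n + cA + cB + 20 ≤ N := by rw [← hN]; omega
  have h1 : n ^ cA ≤ N ^ (cA + cB + 1) :=
    (Nat.pow_le_pow_left (by omega) _).trans (Nat.pow_le_pow_right (by omega) (by omega))
  have h2 : n ^ cB ≤ N ^ (cA + cB + 1) :=
    (Nat.pow_le_pow_left (by omega) _).trans (Nat.pow_le_pow_right (by omega) (by omega))
  have h3 : N ≤ N ^ (cA + cB + 1) := Nat.le_self_pow (by omega) _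
  have h4 : N ^ eM cA cB = N ^ (cA + cB + 1) * (N * N) := by
    rw [eM, show cA + cB + 3 = (cA + cB + 1) + 2 by ring, pow_add, pow_two]
  rw [h4]
  obtain ⟨X, hX⟩ : ∃ X, N ^ (cA + cB + 1) = X := ⟨_, rfl⟩
  rw [hX] at h1 h2 h3 ⊢
  unfold lbd
  have h5 : 400 ≤ N * N := by nlinarith
  have h6 : X * 400 ≤ X * (N * N) := Nat.mul_le_mul_left _ h5
  omega

theorem par1_tb {cA cB ch C : ℕ} (hC : ch + 20 ≤ C) (n n' : ℕ) (h : n' ≤ n) :
    (4 * (n' + C) ^ eM cA cB + n' + 3) +
      ((4 * (n' + C) ^ eM cA cB + n' + 3) ^ ch + ch) <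
      (n + C) ^ eL cA cB ch := by
  obtain ⟨N, hN⟩ : ∃ N, n + C = N := ⟨_, rfl⟩
  have hNn : n + ch + 20 ≤ N := by rw [← hN]; omega
  have h1 : (n' + C) ^ eM cA cB ≤ N ^ eM cA cB :=
    Nat.pow_le_pow_left (by omega) _
  have h2 : N ≤ N ^ eM cA cB := Nat.le_self_pow (by rw [eM]; omega) _
  rw [hN]
  obtain ⟨y, hy⟩ : ∃ y, 4 * (n' + C) ^ eM cA cB + n' + 3 = y := ⟨_, rfl⟩
  have h3 : y ≤ N ^ (eM cA cB + 3) := by
    rw [pow_add]
    have h4 : 5 ≤ N ^ 3 := by
      calc 5 ≤ N := by omega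
        _ ≤ N ^ 3 := Nat.le_self_pow (by omega) _
    have h5 : N ^ eM cA cB * 5 ≤ N ^ eM cA cB * N ^ 3 := Nat.mul_le_mul_left _ h4
    omega
  rw [hy]
  obtain ⟨E, hE⟩ : ∃ E, eM cA cB + 3 = E := ⟨_, rfl⟩
  have hL : eL cA cB ch = E * (ch + 1) + 2 := by rw [eL, hE]
  rw [hE] at h3
  rw [hL]
  have h6 : y ≤ N ^ (E * (ch + 1)) := h3.trans (Nat.pow_le_pow_right (by omega) (by nlinarith))
  have h7 : y ^ ch ≤ N ^ (E * (ch + 1)) := by
    refine (Nat.pow_le_pow_left h3 ch).trans ?_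
    rw [← pow_mul]
    exact Nat.pow_le_pow_right (by omega) (by nlinarith)
  have h8 : N ≤ N ^ (E * (ch + 1)) := Nat.le_self_pow (by
    have : 0 < E * (ch + 1) := Nat.mul_pos (by omega) (by omega)
    omega) _
  rw [pow_add, pow_two]
  obtain ⟨X, hX⟩ : ∃ X, N ^ (E * (ch + 1)) = X := ⟨_, rfl⟩
  rw [hX] at h6 h7 h8 ⊢
  have h9 : 400 ≤ N * N := by nlinarith
  have h10 : X * 400 ≤ X * (N * N) := Nat.mul_le_mul_left _ h9
  omega

theorem par1_tb2 {cA cB ch C : ℕ} (hC : cA + ch + 20 ≤ C) (n n' : ℕ) (h : n' ≤ n) :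
    (4 * (n' + C) ^ eM cA cB + n' + 3) +
      ((4 * (n' + C) ^ eM cA cB + n' + 3) ^ ch + ch) +
      lbd cA ((4 * (n' + C) ^ eM cA cB + n' + 3) +
      ((4 * (n' + C) ^ eM cA cB + n' + 3) ^ ch + ch)) <
      (n + C) ^ eT cA cB ch := by
  have h1 := par1_tb (cA := cA) (cB := cB) (ch := ch) (C := C) (by omega) n n' h
  obtain ⟨Y, hY⟩ : ∃ Y, (4 * (n' + C) ^ eM cA cB + n' + 3) +
      ((4 * (n' + C) ^ eM cA cB + n' + 3) ^ ch + ch) = Y := ⟨_, rfl⟩
  rw [hY] at h1 ⊢
  obtain ⟨N, hN⟩ : ∃ N, n + C = N := ⟨_, rfl⟩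
  rw [hN] at h1 ⊢
  have hNn : n + cA + 20 ≤ N := by rw [← hN]; omega
  obtain ⟨E, hE⟩ : ∃ E, eL cA cB ch = E := ⟨_, rfl⟩
  rw [eT, hE]
  rw [hE] at h1
  have hE1 : 1 ≤ E := by rw [← hE, eL]; omega
  have h2 : Y ≤ N ^ (E * (cA + 1)) :=
    h1.le.trans (Nat.pow_le_pow_right (by omega) (by nlinarith))
  have h3 : Y ^ cA ≤ N ^ (E * (cA + 1)) := by
    refine (Nat.pow_le_pow_left h1.le cA).trans ?_
    rw [← pow_mul]
    exact Nat.pow_le_pow_right (by omega) (by nlinarith)
  have h4 : N ≤ N ^ (E * (cA + 1)) := Nat.le_self_pow (by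
    have : 0 < E * (cA + 1) := Nat.mul_pos (by omega) (by omega)
    omega) _
  rw [pow_add, pow_two]
  obtain ⟨X, hX⟩ : ∃ X, N ^ (E * (cA + 1)) = X := ⟨_, rfl⟩
  rw [hX] at h2 h3 h4 ⊢
  have h9 : 400 ≤ N * N := by nlinarith
  have h10 : X * 400 ≤ X * (N * N) := Nat.mul_le_mul_left _ h9
  unfold lbd
  omega

theorem par1_num (cA cB ch n : ℕ) :
    2 ^ (3 * n + 19) * ((n + cT cA cB ch) ^ eT cA cB ch + 1) ≤
    2 ^ ((n + cT cA cB ch) ^ eM cA cB) := by
  obtain ⟨N, hN⟩ : ∃ N, n + cT cA cB ch = N := ⟨_, rfl⟩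
  have hNn : n + eT cA cB ch + 40 ≤ N := by rw [← hN, cT]; omega
  rw [hN]
  obtain ⟨E, hE⟩ : ∃ E, eT cA cB ch = E := ⟨_, rfl⟩
  rw [hE] at hNn ⊢
  have h1 : N ^ E + 1 ≤ 2 ^ (N * E + 1) := by
    have h2 : N ^ E ≤ 2 ^ (N * E) := by
      rw [pow_mul]
      exact Nat.pow_le_pow_left (Nat.lt_two_pow_self).le _
    have h3 : 1 ≤ 2 ^ (N * E) := Nat.one_le_two_pow
    rw [pow_succ]
    omega
  calc 2 ^ (3 * n + 19) * (N ^ E + 1) ≤ 2 ^ (3 * n + 19) * 2 ^ (N * E + 1) :=
        Nat.mul_le_mul_left _ h1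
    _ = 2 ^ (3 * n + 19 + (N * E + 1)) := by rw [← pow_add]
    _ ≤ 2 ^ (N ^ eM cA cB) := by
        refine Nat.pow_le_pow_right (by omega) ?_
        have h4 : N ^ 2 ≤ N ^ eM cA cB := Nat.pow_le_pow_right (by omega) (by rw [eM]; omega)
        refine le_trans ?_ h4
        have h5 : N * (E + 40) ≤ N * N := Nat.mul_le_mul_left _ (by omega)
        rw [pow_two]
        nlinarith

/-- The data of the argument. -/
noncomputable def mkData1 {uA uB uh : Prog} {cA cB ch : ℕ} (hA : ClockedVerifier uA cA)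
    (hB : ClockedVerifier uB cB) (hh : Clocked uh ch) : Data1 where
  oh R z := ev uh R z
  tb n := n ^ ch + ch
  sup R z := hh.support R z
  oh_len R z := hh.ev_length R z
  vA R x := AcceptsSome R uA x
  vB R x := AcceptsSome R uB (unary x).2
  lb n := lbd cA n + lbd cB n
  lb_mono n n' h := Nat.add_le_add (lbd_mono cA h) (lbd_mono cB h)
  vA_local R R' x h := acceptsSome_local hA (h.mono (Nat.le_add_right _ _))
  vB_local R R' x h := acceptsSome_local hB (h.mono
    ((lbd_mono cB (length_unary_le x)).trans (Nat.le_add_left _ _)))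
  la n := lbd cA n
  la_mono n n' h := lbd_mono cA h
  vA_la R R' x h := acceptsSome_local hA h
  cert R q h := acceptsSome_cert hA h
  m n := (n + cT cA cB ch) ^ eM cA cB
  m_mono n n' h := Nat.pow_lt_pow_left (by omega) (by rw [eM]; omega)
  lb_lt n := par1_lb (by rw [cT]; omega) n
  L n := (n + cT cA cB ch) ^ eT cA cB ch
  L_mono n n' h := Nat.pow_le_pow_left (by omega) _
  tb_lt n n' h := par1_tb2 (by rw [cT]; omega) n n' h
  num n := par1_num cA cB ch n

/-- The instance that is used for `x`. -/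
def Data1.yx (d : Data1) (R : Oracle) (x : List Bool) : List Bool :=
  d.cd R x (!al R (d.sx R x)) (be R (d.sx R x)) 0

theorem yx_mkData1 {uA uB uh : Prog} {cA cB ch : ℕ} (hA : ClockedVerifier uA cA)
    (hB : ClockedVerifier uB cB) (hh : Clocked uh ch) (R : Oracle) (X : List Bool) :
    (mkData1 hA hB hh).yx R X = yG (cT cA cB ch) (eM cA cB) (eT cA cB ch) R X := by
  have h1 : (mkData1 hA hB hh).sx R X = rd R tS (ones ((X.length + cT cA cB ch) ^ eT cA cB ch) ++
    false :: X) ((X.length + cT cA cB ch) ^ eM cA cB) := rfl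
  unfold yG
  simp only
  rw [← h1, Data1.yx, Data1.cd]
  show pack _ _ _ (ct R ((mkData1 hA hB hh).sx R X)) X = _
  rw [ct, Data1.length_sx]
  rfl

theorem Data1.TT_yx (d : Data1) {R : Oracle} {x : List Bool} (h : d.Good R x) :
    TT d.vB R (d.yx R x) ↔ d.vB R x := by
  have h1 := d.TT_seed (x := x) (σ := d.sx R x) (R1 := R) (R' := R) (d.length_sx R x) h.uniq
    (fun _ => rfl) (!al R (d.sx R x)) (be R (d.sx R x))
  show TT d.vB R (pack (d.m x.length) _ _ (ct R (d.sx R x)) x) ↔ _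
  rw [h1]
  simp

/-- The main result, for a fixed choice of the programs. -/
theorem ae_fixed1 (uA uB uh : Prog) (cA cB ch : ℕ) : ∀ᵐ R ∂randomOracle,
    ClockedVerifier uA cA → ClockedVerifier uB cB → Clocked uh ch →
    (∀ z, ∃ (a b : Bool) (q : List Bool), ev uh R z = a :: b :: q ∧
      (TT (fun R x => AcceptsSome R uB (unary x).2) R z ↔
        (AcceptsSome R uA q ∧ b = true) ∨ (¬ AcceptsSome R uA q ∧ a = true))) →
    ∃ C e1 e2 N, (∀ x x' : List Bool, x ≠ x' →
        (ev uh R (yG C e1 e2 R (ones N ++ false :: x))).drop 2 ≠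
          (ev uh R (yG C e1 e2 R (ones N ++ false :: x'))).drop 2) ∧
      (∀ x : List Bool,
        x.length < ((ev uh R (yG C e1 e2 R (ones N ++ false :: x))).drop 2).length) ∧
      (∀ x : List Bool, AcceptsSome R uB x ↔
        AcceptsSome R uA ((ev uh R (yG C e1 e2 R (ones N ++ false :: x))).drop 2)) := by
  by_cases hA : ClockedVerifier uA cA
  swap
  · exact Filter.Eventually.of_forall fun R h => absurd h hA
  by_cases hB : ClockedVerifier uB cB
  swap
  · exact Filter.Eventually.of_forall fun R _ h => absurd h hB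
  by_cases hh : Clocked uh ch
  swap
  · exact Filter.Eventually.of_forall fun R _ _ h => absurd h hh
  filter_upwards [(mkData1 hA hB hh).ae_not_bad, (mkData1 hA hB hh).ae_eventually_good] with
    R h1 h2 _ _ _ hE'
  have hE : (mkData1 hA hB hh).E R := by
    intro z
    obtain ⟨a, b, q, e1, e2⟩ := hE' z
    have e3 : (mkData1 hA hB hh).oh R z = a :: b :: q := e1
    rw [e3]
    exact e2
  obtain ⟨N1, h1⟩ := h1 hE
  obtain ⟨N2, h2⟩ := h2
  have hlen : ∀ x : List Bool, (ones (max N1 N2) ++ false :: x).length =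
      max N1 N2 + 1 + x.length := by
    intro x; simp; omega
  have hinj : ∀ x x' : List Bool, x ≠ x' →
      ones (max N1 N2) ++ false :: x ≠ ones (max N1 N2) ++ false :: x' :=
    fun x x' h h' => h (replicate_append_inj h').2
  have hm1 := le_max_left N1 N2
  have hm2 := le_max_right N1 N2
  have hcand : ∀ X, (mkData1 hA hB hh).IsCand R X
      (yG (cT cA cB ch) (eM cA cB) (eT cA cB ch) R X) := by
    intro X
    rw [← yx_mkData1 hA hB hh]
    exact ⟨_, _, _, rfl⟩
  have hbad : ∀ x x' : List Bool, ltw (ones (max N1 N2) ++ false :: x')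
      (ones (max N1 N2) ++ false :: x) →
      (ev uh R (yG (cT cA cB ch) (eM cA cB) (eT cA cB ch) R
          (ones (max N1 N2) ++ false :: x'))).drop 2 ≠
        (ev uh R (yG (cT cA cB ch) (eM cA cB) (eT cA cB ch) R
          (ones (max N1 N2) ++ false :: x))).drop 2 := by
    intro x x' hlt heq
    refine h1 (ones (max N1 N2) ++ false :: x) (by rw [hlen]; omega) ⟨_, hcand _,
      Or.inr (Or.inr ⟨ones (max N1 N2) ++ false :: x', by rw [hlen]; omega, hlt, _,
        hcand _, heq⟩)⟩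
  refine ⟨cT cA cB ch, eM cA cB, eT cA cB ch, max N1 N2, fun x x' hne heq => ?_, fun x => ?_,
    fun x => ?_⟩
  · rcases ltw_or_ltw (hinj x x' hne) with h | h
    · exact hbad x' x h heq
    · exact hbad x x' h heq.symm
  · by_contra hcon
    refine h1 (ones (max N1 N2) ++ false :: x) (by rw [hlen]; omega) ⟨_, hcand _,
      Or.inr (Or.inl ?_)⟩
    rw [hlen]
    exact (not_lt.1 hcon).trans (by omega)
  · have h3 := (mkData1 hA hB hh).TT_yx (h2 (ones (max N1 N2) ++ false :: x)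
      (by rw [hlen]; omega))
    rw [yx_mkData1] at h3
    have h4 := hE (yG (cT cA cB ch) (eM cA cB) (eT cA cB ch) R (ones (max N1 N2) ++ false :: x))
    have h5 : (mkData1 hA hB hh).vB R (ones (max N1 N2) ++ false :: x) ↔ AcceptsSome R uB x := by
      show AcceptsSome R uB (unary (ones (max N1 N2) ++ false :: x)).2 ↔ _
      rw [ones, unary_replicate]
    rw [← h5, ← h3, h4]
    have h6 : Data1.IdT ((mkData1 hA hB hh).oh R (yG (cT cA cB ch) (eM cA cB) (eT cA cB ch) R
        (ones (max N1 N2) ++ false :: x))) := by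
      by_contra hcon
      exact h1 (ones (max N1 N2) ++ false :: x) (by rw [hlen]; omega)
        ⟨_, hcand _, Or.inl hcon⟩
    unfold Data1.Val
    rw [h6.1, h6.2]
    simp only [and_true, Bool.false_eq_true, and_false, or_false]
    exact Iff.rfl

/-- Relative to almost every oracle, completeness under reductions with one query implies
completeness under many-one reductions. -/
theorem main_OneQuery : ∀ᵐ R ∂randomOracle, ∀ A : Set (List Bool), OneQueryComplete R A →
    CompleteFor R (NPU R) A ∧ ∀ B : Set (List Bool), NPU R B → OneOneLIU R B A := by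
  have h1 : ∀ᵐ R ∂randomOracle, ∀ (uA uB uh : Prog) (cA cB ch : ℕ),
      ClockedVerifier uA cA → ClockedVerifier uB cB → Clocked uh ch →
      (∀ z, ∃ (a b : Bool) (q : List Bool), ev uh R z = a :: b :: q ∧
        (TT (fun R x => AcceptsSome R uB (unary x).2) R z ↔
          (AcceptsSome R uA q ∧ b = true) ∨ (¬ AcceptsSome R uA q ∧ a = true))) →
      ∃ C e1 e2 N, (∀ x x' : List Bool, x ≠ x' →
          (ev uh R (yG C e1 e2 R (ones N ++ false :: x))).drop 2 ≠
            (ev uh R (yG C e1 e2 R (ones N ++ false :: x'))).drop 2) ∧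
        (∀ x : List Bool,
          x.length < ((ev uh R (yG C e1 e2 R (ones N ++ false :: x))).drop 2).length) ∧
        (∀ x : List Bool, AcceptsSome R uB x ↔
          AcceptsSome R uA ((ev uh R (yG C e1 e2 R (ones N ++ false :: x))).drop 2)) := by
    refine ae_all_iff.2 fun uA => ae_all_iff.2 fun uB => ae_all_iff.2 fun uh =>
      ae_all_iff.2 fun cA => ae_all_iff.2 fun cB => ae_all_iff.2 fun ch => ?_
    exact ae_fixed1 uA uB uh cA cB ch
  filter_upwards [h1] with R hR A hA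
  have key : ∀ B : Set (List Bool), NPU R B → OneOneLIU R B A := by
    intro B hB
    obtain ⟨uB, cB, hBo, hB⟩ := hB
    obtain ⟨⟨uA, cA, hAo, hA1⟩, hA2⟩ := hA
    obtain ⟨v, c', hv, hT⟩ := exists_verifier hBo
    obtain ⟨f, ⟨uh, ch, hh, hf⟩, hred⟩ := hA2 {z | AcceptsSome R v z} ⟨v, c', hv, fun x => Iff.rfl⟩
    have hev : ∀ z, ev uh R z = f z := fun z => (hf z).ev_eq
    obtain ⟨C, e1, e2, N, h2, h3, h4⟩ := hR uA uB uh cA cB ch hAo hBo hh (fun z => by
      obtain ⟨a, b, q, g1, g2⟩ := hred z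
      refine ⟨a, b, q, (hev z).trans g1, ?_⟩
      rw [← hT, ← hA1]
      exact g2)
    obtain ⟨u, c, hu, hout⟩ := exists_redT hh C e1 e2 N
    refine ⟨_, ⟨u, c, hu, hout R⟩, ?_, h3, fun x => ?_⟩
    · intro x x' hxx
      by_contra hne
      exact h2 x x' hne hxx
    · rw [hB, hA1]
      exact h4 x
  refine ⟨⟨hA.1, fun B hB => ?_⟩, key⟩
  obtain ⟨f, h2, _, _, h5⟩ := key B hB
  exact ⟨f, h2, h5⟩

end Pool.Agent.L0h34.RO
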