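import Pool.Agent.L0h34.RO.TCore

/-! # One query: locality and measurability -/

set_option autoImplicit false

namespace Pool.Agent.L0h34.RO

open Pool.Agent.L0h34.OM MeasureTheory
open scoped ENNReal

namespace Data1

variable (d : Data1)

theorem oh_local {N : ℕ} {z : List Bool} {R R' : Oracle} (h : Agree N R R')
    (hN : z.length + d.tb z.length ≤ N) : d.oh R' z = d.oh R z := by
  obtain ⟨Q, _, h2, h3⟩ := d.sup R z
  exact h3 R' fun q hq => h q ((h2 q hq).trans hN)

/-- A bound for the lengths of the relevant strings at the level `n`. -/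
def bd (n : ℕ) : ℕ := d.L n + 5 * d.m n + n + 10

theorem bd_mono : Monotone d.bd := by
  intro n n' h
  have h1 := d.L_mono h
  have h2 := d.m_mono.monotone h
  unfold bd
  omega

theorem sx_local {n : ℕ} {x : List Bool} (hx : x.length ≤ n) {R R' : Oracle}
    (h : Agree (d.bd n) R R') : d.sx R' x = d.sx R x := by
  refine rd_local h ?_
  have h1 := d.L_mono hx
  have h2 := d.m_mono.monotone hx
  rw [length_lx]
  simp only [tS, List.length_cons, List.length_nil, bd]
  omega

theorem vx_local {n : ℕ} {x : List Bool} (hx : x.length ≤ n) {R R' : Oracle}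
    (h : Agree (d.bd n) R R') : d.vx R' x = d.vx R x := by
  refine rd_local h ?_
  have h1 := d.L_mono hx
  have h2 := d.m_mono.monotone hx
  rw [length_lx]
  simp only [uV, List.length_cons, List.length_nil, bd]
  omega

theorem ux_local {n : ℕ} {x : List Bool} (hx : x.length ≤ n) {R R' : Oracle}
    (h : Agree (d.bd n) R R') : d.ux R' x = d.ux R x := by
  refine rd_local h ?_
  have h1 := d.L_mono hx
  have h2 := d.m_mono.monotone hx
  rw [length_lx]
  simp only [uU, List.length_cons, List.length_nil, bd]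
  omega

theorem cn_local {n : ℕ} {x : List Bool} (hx : x.length ≤ n) {R R' : Oracle}
    (h : Agree (d.bd n) R R') (i : Fin 3) : d.cn R' x i = d.cn R x i := by
  have h2 := d.m_mono.monotone hx
  fin_cases i
  · show ct R' (d.sx R' x) = ct R (d.sx R x)
    rw [d.sx_local hx h, ct_local h (by rw [length_sx, bd]; omega)]
  · exact d.ux_local hx h
  · show ct R' (d.vx R' x) = ct R (d.vx R x)
    rw [d.vx_local hx h, ct_local h (by rw [length_vx, bd]; omega)]

theorem cd_local {n : ℕ} {x : List Bool} (hx : x.length ≤ n) {R R' : Oracle}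
    (h : Agree (d.bd n) R R') (p p' : Bool) (i : Fin 3) : d.cd R' x p p' i = d.cd R x p p' i := by
  rw [cd, cd, d.cn_local hx h]

theorem cd_bound {n : ℕ} {x : List Bool} (hx : x.length ≤ n) (R : Oracle) (p p' : Bool)
    (i : Fin 3) : (d.cd R x p p' i).length + d.tb (d.cd R x p p' i).length +
      d.la ((d.cd R x p p' i).length + d.tb (d.cd R x p p' i).length) < d.L n := by
  rw [length_cd]
  exact d.tb_lt _ _ hx

theorem oh_cd_local {n : ℕ} {x : List Bool} (hx : x.length ≤ n) {R R' : Oracle}
    (h : Agree (d.bd n) R R') (p p' : Bool) (i : Fin 3) :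
    d.oh R' (d.cd R x p p' i) = d.oh R (d.cd R x p p' i) := by
  refine d.oh_local h ?_
  have := d.cd_bound hx R p p' i
  rw [bd]
  omega

theorem IsCand_local {n : ℕ} {x : List Bool} (hx : x.length ≤ n) (z : List Bool) :
    Lc (d.bd n) fun R => d.IsCand R x z := by
  rintro R R' hA ⟨p, p', i, h⟩
  exact ⟨p, p', i, by rw [d.cd_local hx hA]; exact h⟩

theorem Q2_local {x z : List Bool} (hz : z.length + d.tb z.length ≤ d.L x.length) :
    Lc (d.bd x.length) fun R => d.Q2 R x z := by
  intro R R' hA h R'' h'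
  rw [d.oh_local hA (hz.trans (by rw [bd]; omega))]
  refine h R'' fun q hq h1 h2 => ?_
  rw [← hA q (hq.trans (by rw [bd]; omega))]
  refine h' q hq ?_ ?_
  · rwa [d.sx_local le_rfl hA]
  · rwa [d.vx_local le_rfl hA]

theorem Keep_local {x z : List Bool} (hz : z.length + d.tb z.length +
    d.la (z.length + d.tb z.length) ≤ d.L x.length) :
    Lc (d.bd x.length) fun R => d.Keep R x z := by
  intro R R' hA h h1 R'' h'
  have ho := d.oh_local hA (z := z) (by rw [bd]; omega)
  rw [ho] at h1 ⊢
  have hq : ((d.oh R z).drop 2).length ≤ z.length + d.tb z.length := by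
    have := d.oh_len R z
    rw [List.length_drop]
    omega
  have hla := d.la_mono hq
  rw [d.vA_la R R' _ (hA.mono (by rw [bd]; omega))] at h1
  refine h h1 R'' fun q hq h2 => ?_
  rw [← hA q (hq.trans (by rw [bd]; omega))]
  refine h' q hq ?_
  rwa [d.vx_local le_rfl hA]

theorem Good_local (x : List Bool) : Lc (d.bd x.length) fun R => d.Good R x := by
  intro R R' hA h
  refine ⟨fun s s' hs hs' h1 => ?_, fun x' s hx' hs => ?_, ?_, fun x' hx' hne => ?_,
    fun x' hx' p p' i => ?_, fun p p' => ?_⟩
  · rw [ct_local hA (by rw [hs, bd]; omega), ct_local hA (by rw [hs', bd]; omega)] at h1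
    exact h.uniq s s' hs hs' h1
  · rw [d.ux_local hx'.le hA, ct_local hA (by rw [hs, bd]; omega)]
    exact h.spare x' s hx' hs
  · rw [d.sx_local le_rfl hA, d.vx_local le_rfl hA]
    exact h.self
  · rw [d.sx_local le_rfl hA, d.vx_local le_rfl hA, d.sx_local hx'.le hA, d.vx_local hx'.le hA]
    exact h.dist x' hx' hne
  · rw [d.cd_local hx' hA]
    refine d.Q2_local ?_ R R' hA (h.quiet x' hx' p p' i)
    have := d.cd_bound hx' R p p' i
    omega
  · rw [d.cd_local le_rfl hA]
    refine d.Keep_local ?_ R R' hA (h.keep p p')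
    have := d.cd_bound (le_refl x.length) R p p' 1
    omega

theorem Bad_local (N : ℕ) {n : ℕ} {x : List Bool} (hx : x.length ≤ n) :
    Lc (d.bd n) fun R => d.Bad N R x := by
  refine Lc.of_iff fun R R' hA => exists_congr fun z => ?_
  have h1 := (d.IsCand_local hx z).iff hA
  rw [← h1]
  refine and_congr_right ?_
  rintro ⟨p, p', i, rfl⟩
  rw [d.oh_cd_local hx hA]
  refine or_congr_right (or_congr_right (exists_congr fun x' => and_congr_right fun _ => ?_))
  refine and_congr_right fun hlt => exists_congr fun z' => ?_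
  have hx' := hlt.le.trans hx
  rw [← (d.IsCand_local hx' z').iff hA]
  refine and_congr_right ?_
  rintro ⟨p1, p1', i1, rfl⟩
  rw [d.oh_cd_local hx' hA]

/-- The string `x` is the first bad string. -/
def First (N : ℕ) (x : List Bool) (R : Oracle) : Prop :=
  N ≤ x.length ∧ d.Bad N R x ∧ ∀ x', N ≤ x'.length → ltw x' x → ¬ d.Bad N R x'

theorem First_local (N : ℕ) (x : List Bool) : Lc (d.bd x.length) (d.First N x) := by
  refine (Lc.const _).and ((d.Bad_local N le_rfl).and (Lc.all fun x' => ?_))
  by_cases h : ltw x' x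
  · exact Lc.imp (Lc.const _) (Lc.imp (Lc.const _) (d.Bad_local N h.le).not)
  · intro R R' _ _ _ h2
    exact absurd h2 h

theorem TT_local (z : List Bool) :
    Lc (4 * (unary z).1 + 4 + d.lb (payload z).length) fun R => TT d.vB R z := by
  intro R R' hA h
  obtain ⟨s, h1, h2, h3⟩ := h
  refine ⟨s, h1, ?_, ?_⟩
  · rw [ct_local hA (by omega)]
    exact h2
  · rw [al_local hA (by omega), be_local hA (by omega),
      d.vB_local R R' _ (hA.mono (by omega))]
    exact h3

theorem measurable_E : MeasurableSet {R | d.E R} := by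
  have : {R | d.E R} = ⋂ z, ⋂ ζ, {R | d.oh R z = ζ → (TT d.vB R z ↔ d.Val R ζ)} := by
    ext R; simp [E]
  rw [this]
  refine MeasurableSet.iInter fun z => MeasurableSet.iInter fun ζ => Lc.meas
    (N := (z.length + d.tb z.length) + (4 * (unary z).1 + 4 + d.lb (payload z).length) +
      d.lb (ζ.drop 2).length) ?_
  intro R R' hA h1 h2
  rw [d.oh_local hA (by omega)] at h2
  have h3 := d.vA_local R R' (ζ.drop 2) (hA.mono (by omega))
  have h4 : d.Val R' ζ ↔ d.Val R ζ := by
    unfold Val
    rw [h3]
  rw [h4, ← ((d.TT_local z).mono (by omega)).iff hA]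
  exact h1 h2

theorem sv_meas (x : List Bool) (s : List Bool × List Bool) :
    MeasurableSet {R | d.sv R x = s} := by
  refine Lc.meas (N := d.bd x.length) fun R R' hA h => ?_
  rw [sv, d.sx_local le_rfl hA, d.vx_local le_rfl hA]
  exact h

theorem mp_tr (x : List Bool) (k : Kd) :
    MeasurePreserving (d.tr x k) randomOracle randomOracle := by
  refine mp_piece (fun R => d.sv R x) (d.sv_meas x) (fun s R => d.tk x k s R) (fun s => ?_)
    (fun s R => by rw [d.sv_tk])
  cases k
  · exact MeasurePreserving.id _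
  · exact d.mp_ex _ _
  · exact d.mp_ex _ _
  · exact mp_fl _
  · exact mp_fl _
  · exact mp_fl _

theorem mp_ch (x : List Bool) (c : Kd × Kd × Kd × Kd) :
    MeasurePreserving (d.ch x c) randomOracle randomOracle :=
  (d.mp_tr x _).comp ((d.mp_tr x _).comp ((d.mp_tr x _).comp (d.mp_tr x _)))

end Data1

end Pool.Agent.L0h34.RO
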