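import Pool.Agent.L0h34.RO.TTyp

/-! # One query: almost every oracle -/

set_option autoImplicit false

namespace Pool.Agent.L0h34.RO

open Pool.Agent.L0h34.OM MeasureTheory
open scoped ENNReal

namespace Data1

variable (d : Data1)

theorem measure_not_uniq (n : ℕ) : (2 : ℝ≥0∞) ^ (d.m n) *
    randomOracle (⋃ i ∈ strs (d.m n) ×ˢ strs (d.m n),
      {R | i.1 ≠ i.2 ∧ ct R i.1 = ct R i.2}) ≤ ((1 : ℕ) : ℝ≥0∞) := by
  have h := measure_biUnion_le' (strs (d.m n) ×ˢ strs (d.m n))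
    (fun i => {R | i.1 ≠ i.2 ∧ ct R i.1 = ct R i.2}) (a := 2 ^ (3 * d.m n)) (b := 1)
    (c := 2 ^ (d.m n + d.m n)) (by
      rw [Finset.card_product, pow_add]
      exact Nat.mul_le_mul (card_strs _) (card_strs _)) (by
      intro i hi
      obtain ⟨h1, h2⟩ := Finset.mem_product.1 hi
      by_cases hne : i.1 = i.2
      · simp [hne]
      · refine le_trans (mul_le_mul_right (measure_mono fun R hR => ?_) _)
          (measure_rd_eq_le (τ := tC) (Q := i.1) (τ' := tC) (Q' := i.2) (ℓ := 3 * d.m n) rfl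
            (Or.inr (Ne.symm hne)))
        have h3 := hR.2
        rw [ct, ct, length_of_mem_strs h1, length_of_mem_strs h2] at h3
        exact h3)
  rw [Nat.cast_one]
  refine cancel_pow (k := d.m n + d.m n) ?_
  rw [show d.m n + d.m n + d.m n = 3 * d.m n by ring]
  simpa using h

theorem measure_not_spare (n : ℕ) : (2 : ℝ≥0∞) ^ (d.m n) *
    randomOracle (⋃ i ∈ strs n ×ˢ strs (d.m n), {R | d.ux R i.1 = ct R i.2}) ≤
      ((2 ^ n : ℕ) : ℝ≥0∞) := by
  have h := measure_biUnion_le' (strs n ×ˢ strs (d.m n))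
    (fun i => {R | d.ux R i.1 = ct R i.2}) (a := 2 ^ (3 * d.m n)) (b := 1)
    (c := 2 ^ (n + d.m n)) (by
      rw [Finset.card_product, pow_add]
      exact Nat.mul_le_mul (card_strs _) (card_strs _)) (by
      intro i hi
      obtain ⟨h1, h2⟩ := Finset.mem_product.1 hi
      refine le_trans (mul_le_mul_right (measure_mono fun R hR => ?_) _)
        (measure_rd_eq_le' (τ := uU) (Q := d.lx i.1) (τ' := tC) (Q' := i.2) (ℓ := 3 * d.m n)
          fun _ _ => adr_ne (by simp [tC]) (by simp [uU]) (by simp [tC, uU]) _ _ _ _)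
      have h3 : d.ux R i.1 = ct R i.2 := hR
      rw [ux, ct, length_of_mem_strs h1, length_of_mem_strs h2] at h3
      exact h3)
  have h0 : (2 : ℝ≥0∞) ^ (2 * d.m n) ≠ 0 := by positivity
  have ht : (2 : ℝ≥0∞) ^ (2 * d.m n) ≠ ⊤ := ENNReal.pow_ne_top (by norm_num)
  refine (ENNReal.mul_le_mul_iff_right h0 ht).1 ?_
  rw [← mul_assoc, ← pow_add, show 2 * d.m n + d.m n = 3 * d.m n by ring]
  refine h.trans ?_
  rw [mul_one, pow_add, Nat.cast_mul, mul_comm]
  refine mul_le_mul_left ?_ _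
  push_cast
  exact pow_le_pow_right₀ (by norm_num) (by omega)

/-- The seeds, as one family. -/
def seed (R : Oracle) (x : List Bool) (b : Bool) : List Bool := if b then d.vx R x else d.sx R x

theorem measure_seed_eq {x x' : List Bool} {b b' : Bool} (h : x ≠ x' ∨ b ≠ b')
    (hl : x'.length = x.length) : (2 : ℝ≥0∞) ^ (d.m x.length) *
      randomOracle {R | d.seed R x b = d.seed R x' b'} ≤ 1 := by
  have h1 : ∀ (R : Oracle) (x : List Bool) (b : Bool), d.seed R x b =
      rd R (if b then uV else tS) (d.lx x) (d.m x.length) := by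
    intro R x b
    cases b <;> rfl
  simp only [h1, hl]
  refine measure_rd_eq_le' fun t t' he => ?_
  by_cases hb : b' = b
  · rw [hb] at he
    have := d.lx_inj (adr_inj rfl he).2.2
    rcases h with h | h
    · exact h this.symm
    · exact h hb.symm
  · revert hb he
    cases b <;> cases b' <;> intro he hb
    · exact hb rfl
    · exact adr_SV _ _ _ _ he.symm
    · exact adr_SV _ _ _ _ he
    · exact hb rfl

theorem measure_not_self (x : List Bool) : (2 : ℝ≥0∞) ^ (d.m x.length) *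
    randomOracle {R | d.sx R x = d.vx R x} ≤ ((1 : ℕ) : ℝ≥0∞) := by
  rw [Nat.cast_one]
  exact d.measure_seed_eq (x := x) (x' := x) (b := false) (b' := true) (Or.inr (by simp)) rfl

theorem measure_not_dist (x : List Bool) : (2 : ℝ≥0∞) ^ (d.m x.length) *
    randomOracle (⋃ i ∈ strs x.length ×ˢ (Finset.univ : Finset (Bool × Bool)),
      {R | i.1 ≠ x ∧ d.seed R x i.2.1 = d.seed R i.1 i.2.2}) ≤
      ((2 ^ (x.length + 2) : ℕ) : ℝ≥0∞) := by
  have h := measure_biUnion_le' (strs x.length ×ˢ (Finset.univ : Finset (Bool × Bool)))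
    (fun i => {R | i.1 ≠ x ∧ d.seed R x i.2.1 = d.seed R i.1 i.2.2}) (a := 2 ^ (d.m x.length))
    (b := 1) (c := 2 ^ (x.length + 2)) (by
      rw [Finset.card_product, pow_add]
      exact Nat.mul_le_mul (card_strs _) (le_of_eq rfl)) (by
      intro i hi
      obtain ⟨h1, h2⟩ := Finset.mem_product.1 hi
      by_cases hne : i.1 = x
      · simp [hne]
      · refine le_trans (mul_le_mul_right (measure_mono fun R hR => ?_) _)
          (d.measure_seed_eq (x := x) (x' := i.1) (b := i.2.1) (b' := i.2.2)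
            (Or.inl (Ne.symm hne)) (length_of_mem_strs h1))
        exact hR.2)
  rw [mul_one] at h
  exact h

theorem measure_not_quiet' (x : List Bool) : (2 : ℝ≥0∞) ^ (d.m x.length) *
    randomOracle (⋃ i ∈ strsLe x.length ×ˢ (Finset.univ : Finset ((Bool × Bool) × Fin 3)),
      {R | ¬ d.Q2 R x (d.cd R i.1 i.2.1.1 i.2.1.2 i.2.2)}) ≤
      ((2 ^ (x.length + 1) * 12 * (2 * d.L x.length) : ℕ) : ℝ≥0∞) := by
  have h := measure_biUnion_le'
    (strsLe x.length ×ˢ (Finset.univ : Finset ((Bool × Bool) × Fin 3)))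
    (fun i => {R | ¬ d.Q2 R x (d.cd R i.1 i.2.1.1 i.2.1.2 i.2.2)}) (a := 2 ^ (d.m x.length))
    (b := ((2 * d.L x.length : ℕ) : ℝ≥0∞)) (c := 2 ^ (x.length + 1) * 12) (by
      rw [Finset.card_product]
      exact Nat.mul_le_mul (card_strsLe _) (le_of_eq rfl)) (by
      intro i hi
      obtain ⟨h1, h2⟩ := Finset.mem_product.1 hi
      exact d.measure_not_quiet (length_of_mem_strsLe h1) _ _ _)
  rw [← Nat.cast_mul] at h
  exact h

theorem measure_not_keep' (x : List Bool) : (2 : ℝ≥0∞) ^ (d.m x.length) *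
    randomOracle (⋃ i ∈ (Finset.univ : Finset (Bool × Bool)),
      {R | ¬ d.Keep R x (d.cd R x i.1 i.2 1)}) ≤ ((4 * d.L x.length : ℕ) : ℝ≥0∞) := by
  have h := measure_biUnion_le' (Finset.univ : Finset (Bool × Bool))
    (fun i => {R | ¬ d.Keep R x (d.cd R x i.1 i.2 1)}) (a := 2 ^ (d.m x.length))
    (b := ((d.L x.length : ℕ) : ℝ≥0∞)) (c := 4) (le_of_eq rfl) (by
      intro i _
      exact d.measure_not_keep _ _ _)
  rw [← Nat.cast_mul] at h
  exact h

theorem mul_union_le {a : ℝ≥0∞} {S T : Set Oracle} {p q : ℕ} (h1 : a * randomOracle S ≤ (p : ℝ≥0∞))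
    (h2 : a * randomOracle T ≤ (q : ℝ≥0∞)) :
    a * randomOracle (S ∪ T) ≤ ((p + q : ℕ) : ℝ≥0∞) := by
  refine (mul_le_mul_right (measure_union_le _ _) _).trans ?_
  rw [mul_add, Nat.cast_add]
  exact add_le_add h1 h2

theorem measure_not_good (x : List Bool) : (2 : ℝ≥0∞) ^ (d.m x.length) *
    randomOracle {R | ¬ d.Good R x} ≤
      ((2 ^ (x.length + 6) * (d.L x.length + 1) : ℕ) : ℝ≥0∞) := by
  have hsub : {R | ¬ d.Good R x} ⊆
      (⋃ i ∈ strs (d.m x.length) ×ˢ strs (d.m x.length),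
        {R | i.1 ≠ i.2 ∧ ct R i.1 = ct R i.2}) ∪
      ((⋃ i ∈ strs x.length ×ˢ strs (d.m x.length), {R | d.ux R i.1 = ct R i.2}) ∪
      ({R | d.sx R x = d.vx R x} ∪
      ((⋃ i ∈ strs x.length ×ˢ (Finset.univ : Finset (Bool × Bool)),
        {R | i.1 ≠ x ∧ d.seed R x i.2.1 = d.seed R i.1 i.2.2}) ∪
      ((⋃ i ∈ strsLe x.length ×ˢ (Finset.univ : Finset ((Bool × Bool) × Fin 3)),
        {R | ¬ d.Q2 R x (d.cd R i.1 i.2.1.1 i.2.1.2 i.2.2)}) ∪
      (⋃ i ∈ (Finset.univ : Finset (Bool × Bool)),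
        {R | ¬ d.Keep R x (d.cd R x i.1 i.2 1)}))))) := by
    intro R hR
    by_contra hcon
    simp only [Set.mem_union, not_or, Set.mem_iUnion, not_exists] at hcon
    obtain ⟨h1, h2, h3, h4, h5, h6⟩ := hcon
    refine hR ⟨fun s s' hs hs' h => ?_, fun x' s hx' hs h => ?_, h3, fun x' hx' hne => ?_,
      fun x' hx' p p' i => ?_, fun p p' => ?_⟩
    · by_contra hne
      exact h1 (s, s') (Finset.mem_product.2 ⟨mem_strs hs, mem_strs hs'⟩) ⟨hne, h⟩
    · exact h2 (x', s) (Finset.mem_product.2 ⟨mem_strs hx', mem_strs hs⟩) h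
    · have h7 : ∀ b b', d.seed R x b ≠ d.seed R x' b' := fun b b' h =>
        h4 (x', (b, b')) (Finset.mem_product.2 ⟨mem_strs hx', Finset.mem_univ _⟩) ⟨hne, h⟩
      exact ⟨(h7 false false).symm, (h7 true false).symm, (h7 false true).symm,
        (h7 true true).symm⟩
    · by_contra hne
      exact h5 (x', ((p, p'), i)) (Finset.mem_product.2 ⟨mem_strsLe hx', Finset.mem_univ _⟩) hne
    · by_contra hne
      exact h6 (p, p') (Finset.mem_univ _) hne
  refine (mul_le_mul_right (measure_mono hsub) _).trans ?_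
  refine (mul_union_le (d.measure_not_uniq _) (mul_union_le (d.measure_not_spare _)
    (mul_union_le (d.measure_not_self x) (mul_union_le (d.measure_not_dist x)
      (mul_union_le (d.measure_not_quiet' x) (d.measure_not_keep' x)))))).trans ?_
  refine Nat.cast_le.2 ?_
  have e1 : 2 ^ (x.length + 2) = 4 * 2 ^ x.length := by ring
  have e2 : 2 ^ (x.length + 1) * 12 * (2 * d.L x.length) = 48 * (2 ^ x.length * d.L x.length) := by
    ring
  have e3 : 2 ^ (x.length + 6) * (d.L x.length + 1) =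
      64 * (2 ^ x.length * d.L x.length) + 64 * 2 ^ x.length := by ring
  have h2 : 1 ≤ 2 ^ x.length := Nat.one_le_two_pow
  have h3 : 1 * d.L x.length ≤ 2 ^ x.length * d.L x.length := Nat.mul_le_mul_right _ h2
  rw [e1, e2, e3]
  omega

theorem card_kd4 : Fintype.card (Kd × Kd × Kd × Kd) = 1296 := by
  have : Fintype.card Kd = 6 := rfl
  simp only [Fintype.card_prod, this]

theorem measure_not_typ (x : List Bool) : (2 : ℝ≥0∞) ^ (d.m x.length) *
    randomOracle {R | ¬ d.Typ x R} ≤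
      ((1296 * (2 ^ (x.length + 6) * (d.L x.length + 1)) : ℕ) : ℝ≥0∞) := by
  have hsub : {R | ¬ d.Typ x R} ⊆ ⋃ c ∈ (Finset.univ : Finset (Kd × Kd × Kd × Kd)),
      {R | ¬ d.Good (d.ch x c R) x} := by
    intro R hR
    have hR' : ¬ ∀ c, d.Good (d.ch x c R) x := hR
    push Not at hR'
    obtain ⟨c, hc⟩ := hR'
    exact Set.mem_biUnion (Finset.mem_univ c) hc
  refine (mul_le_mul_right (measure_mono hsub) _).trans ?_
  have h := measure_biUnion_le' (Finset.univ : Finset (Kd × Kd × Kd × Kd))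
    (fun c => {R | ¬ d.Good (d.ch x c R) x}) (a := 2 ^ (d.m x.length))
    (b := ((2 ^ (x.length + 6) * (d.L x.length + 1) : ℕ) : ℝ≥0∞)) (c := 1296)
    (le_of_eq card_kd4) (by
      intro c _
      refine le_trans (le_of_eq ?_) (d.measure_not_good x)
      congr 1
      exact (d.mp_ch x c).measure_preimage ((d.Good_local x).not.meas.nullMeasurableSet))
  rw [← Nat.cast_mul] at h
  exact h

/-- All strings of length `n` are typical. -/
def TypN (R : Oracle) (n : ℕ) : Prop := ∀ x : List Bool, x.length = n → d.Typ x R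

theorem measure_not_typN (n : ℕ) : (2 : ℝ≥0∞) ^ n * randomOracle {R | ¬ d.TypN R n} ≤ 1 := by
  have hsub : {R | ¬ d.TypN R n} ⊆ ⋃ x ∈ strs n, {R | ¬ d.Typ x R} := by
    intro R hR
    have hR' : ¬ ∀ x : List Bool, x.length = n → d.Typ x R := hR
    push Not at hR'
    obtain ⟨x, hx, hc⟩ := hR'
    exact Set.mem_biUnion (mem_strs hx) hc
  have h := measure_biUnion_le' (strs n) (fun x => {R | ¬ d.Typ x R}) (a := 2 ^ (d.m n))
    (b := ((1296 * (2 ^ (n + 6) * (d.L n + 1)) : ℕ) : ℝ≥0∞)) (c := 2 ^ n) (card_strs n) (by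
      intro x hx
      have := d.measure_not_typ x
      rw [length_of_mem_strs hx] at this
      exact this)
  have hnum := d.num n
  refine cancel_pow (k := d.m n) ?_
  rw [add_comm, pow_add, mul_assoc]
  refine (mul_le_mul_right (mul_le_mul_right (measure_mono hsub) _) _).trans ?_
  refine (mul_le_mul_right h _).trans ?_
  have e1 : (2 : ℝ≥0∞) ^ n * (((2 ^ n : ℕ) : ℝ≥0∞) *
      ((1296 * (2 ^ (n + 6) * (d.L n + 1)) : ℕ) : ℝ≥0∞)) =
      ((2 ^ n * (2 ^ n * (1296 * (2 ^ (n + 6) * (d.L n + 1)))) : ℕ) : ℝ≥0∞) := by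
    push_cast; rfl
  have e2 : (2 : ℝ≥0∞) ^ d.m n = ((2 ^ d.m n : ℕ) : ℝ≥0∞) := by push_cast; rfl
  rw [e1, e2]
  refine Nat.cast_le.2 (le_trans ?_ hnum)
  have e3 : 2 ^ n * (2 ^ n * (1296 * (2 ^ (n + 6) * (d.L n + 1)))) =
      (1296 * 64) * (2 ^ (3 * n) * (d.L n + 1)) := by ring
  have e4 : 2 ^ (3 * n + 19) * (d.L n + 1) = 524288 * (2 ^ (3 * n) * (d.L n + 1)) := by ring
  rw [e3, e4]
  exact Nat.mul_le_mul_right _ (by norm_num)

theorem measure_not_typN' (n : ℕ) : randomOracle {R | ¬ d.TypN R n} ≤ 2⁻¹ ^ n := by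
  have h := d.measure_not_typN n
  have h0 : (2 : ℝ≥0∞) ^ n ≠ 0 := by positivity
  have ht : (2 : ℝ≥0∞) ^ n ≠ ⊤ := ENNReal.pow_ne_top (by norm_num)
  rw [← ENNReal.inv_pow, ← one_div, ENNReal.le_div_iff_mul_le (Or.inl h0) (Or.inl ht), mul_comm]
  exact h

theorem measure_tail (N : ℕ) : randomOracle {R | ∃ n, N ≤ n ∧ ¬ d.TypN R n} ≤ 2⁻¹ ^ N * 2 := by
  calc randomOracle {R | ∃ n, N ≤ n ∧ ¬ d.TypN R n}
      ≤ randomOracle (⋃ k, {R | ¬ d.TypN R (N + k)}) := by
        refine measure_mono fun R hR => ?_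
        obtain ⟨n, h1, h2⟩ := hR
        refine Set.mem_iUnion.2 ⟨n - N, ?_⟩
        simp only [Set.mem_ofPred_eq]
        rwa [Nat.add_sub_cancel' h1]
    _ ≤ ∑' k, randomOracle {R | ¬ d.TypN R (N + k)} := measure_iUnion_le _
    _ ≤ ∑' k, (2⁻¹ : ℝ≥0∞) ^ (N + k) := ENNReal.tsum_le_tsum fun k => d.measure_not_typN' _
    _ = 2⁻¹ ^ N * 2 := by
        simp only [pow_add]
        rw [ENNReal.tsum_mul_left, ENNReal.tsum_geometric, ENNReal.one_sub_inv_two, inv_inv]

/-- The changes do not touch short strings. -/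
theorem agree_tr (x : List Bool) (k : Kd) (R : Oracle) {n : ℕ} (hn : n ≤ x.length) :
    Agree n R (d.tr x k R) := by
  intro q hq
  have hm := d.m_mono.le_apply (x := x.length)
  have h1 := d.length_sx R x
  have h2 := d.length_vx R x
  refine d.tk_of_ne x k _ R ?_ ?_ ?_
  · rintro ⟨t, h | h⟩ <;> rw [h, length_adr] at hq <;> simp only [sv] at hq <;> omega
  · rintro ⟨t, h | h⟩ <;> rw [h, length_adr] at hq <;> simp only [sv] at hq <;> omega
  · intro t h
    rw [h, length_adr, length_lx] at hq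
    omega

theorem agree_ch (x : List Bool) (c : Kd × Kd × Kd × Kd) (R : Oracle) {n : ℕ}
    (hn : n ≤ x.length) : Agree n R (d.ch x c R) := by
  intro q hq
  rw [ch, d.agree_tr x _ _ hn q hq, d.agree_tr x _ _ hn q hq, d.agree_tr x _ _ hn q hq,
    d.agree_tr x _ _ hn q hq]

theorem Typ.first {x : List Bool} {R : Oracle} {N : ℕ} (hT : d.Typ x R) (hf : d.First N x R)
    (c : Kd × Kd × Kd × Kd) : d.First N x (d.ch x c R) :=
  ⟨hf.1, ((hT.sim d c).bad d N le_rfl).2 hf.2.1, fun x' h1 h2 h3 =>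
    hf.2.2 x' h1 h2 (((hT.sim d c).bad d N h2.le).1 h3)⟩

theorem measure_first_le {N NC : ℕ} {C : Set Oracle} (hC : MeasurableSet C)
    (hCl : ∀ R R' : Oracle, Agree NC R R' → R ∈ C → R' ∈ C) (hN : NC ≤ N) :
    randomOracle (⋃ x, {R | d.E R ∧ d.Typ x R ∧ d.First N x R ∧ R ∈ C}) ≤
      1296 * randomOracle (C \ {R | d.E R}) := by
  have hG : ∀ x, MeasurableSet ({R | d.First N x R} ∩ (C \ {R | d.E R})) := fun x =>
    (d.First_local N x).meas.inter (hC.diff d.measurable_E)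
  have h1 : ∀ x, randomOracle {R | d.E R ∧ d.Typ x R ∧ d.First N x R ∧ R ∈ C} ≤
      1296 * randomOracle ({R | d.First N x R} ∩ (C \ {R | d.E R})) := by
    intro x
    have hsub : {R | d.E R ∧ d.Typ x R ∧ d.First N x R ∧ R ∈ C} ⊆
        ⋃ c ∈ (Finset.univ : Finset (Kd × Kd × Kd × Kd)),
          (d.ch x c) ⁻¹' ({R | d.First N x R} ∩ (C \ {R | d.E R})) := by
      rintro R ⟨hE, hT, hf, hRC⟩
      have hnot : ¬ ∀ c, d.E (d.ch x c R) := fun h =>
        d.not_bad h hT hf.2.2 hf.2.1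
      push Not at hnot
      obtain ⟨c, hc⟩ := hnot
      refine Set.mem_biUnion (Finset.mem_univ c) ⟨hT.first d hf c, ?_, hc⟩
      exact hCl R _ (d.agree_ch x c R (hN.trans hf.1)) hRC
    refine (measure_mono hsub).trans ?_
    refine (measure_biUnion_finset_le _ _).trans ?_
    refine (Finset.sum_le_sum fun c _ =>
      le_of_eq ((d.mp_ch x c).measure_preimage (hG x).nullMeasurableSet)).trans ?_
    rw [Finset.sum_const, Finset.card_univ, card_kd4]
    simp
  calc randomOracle (⋃ x, {R | d.E R ∧ d.Typ x R ∧ d.First N x R ∧ R ∈ C})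
      ≤ ∑' x, randomOracle {R | d.E R ∧ d.Typ x R ∧ d.First N x R ∧ R ∈ C} :=
        measure_iUnion_le _
    _ ≤ ∑' x, 1296 * randomOracle ({R | d.First N x R} ∩ (C \ {R | d.E R})) :=
        ENNReal.tsum_le_tsum h1
    _ = 1296 * ∑' x, randomOracle ({R | d.First N x R} ∩ (C \ {R | d.E R})) :=
        ENNReal.tsum_mul_left
    _ = 1296 * randomOracle (⋃ x, ({R | d.First N x R} ∩ (C \ {R | d.E R}))) := by
        rw [measure_iUnion _ hG]
        intro x x' hxx
        refine Set.disjoint_left.2 fun R h1 h2 => ?_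
        have f1 : d.First N x R := h1.1
        have f2 : d.First N x' R := h2.1
        rcases ltw_or_ltw hxx with h | h
        · exact f2.2.2 x f1.1 h f1.2.1
        · exact f1.2.2 x' f2.1 h f2.2.1
    _ ≤ 1296 * randomOracle (C \ {R | d.E R}) :=
        mul_le_mul_right (measure_mono (Set.iUnion_subset fun x => Set.inter_subset_right)) _

/-- The set where the reduction is correct but bad infinitely often. -/
def SS (N : ℕ) : Set Oracle := {R | d.E R ∧ ∃ x : List Bool, N ≤ x.length ∧ d.Bad N R x}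

theorem measurable_SS (N : ℕ) : MeasurableSet (d.SS N) := by
  have : d.SS N = {R | d.E R} ∩ ⋃ x : List Bool, {R | N ≤ x.length ∧ d.Bad N R x} := by
    ext R
    simp [SS]
  rw [this]
  exact d.measurable_E.inter (MeasurableSet.iUnion fun x =>
    (Lc.and (Lc.const _) (d.Bad_local N le_rfl)).meas)

theorem exists_first {N : ℕ} {R : Oracle} {x : List Bool} (hx : N ≤ x.length)
    (hb : d.Bad N R x) : ∃ x, d.First N x R := by
  obtain ⟨y, ⟨h1, h2⟩, h3⟩ := ltw_wf.has_min {x : List Bool | N ≤ x.length ∧ d.Bad N R x}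
    ⟨x, hx, hb⟩
  exact ⟨y, h1, h2, fun x' h4 h5 h6 => h3 x' ⟨h4, h6⟩ h5⟩

theorem measure_SS : randomOracle (⋂ N, d.SS N) = 0 := by
  refine le_antisymm (ENNReal.le_of_forall_pos_le_add fun ε hε _ => ?_) zero_le
  rw [zero_add]
  have hSm : MeasurableSet (⋂ N, d.SS N) := MeasurableSet.iInter d.measurable_SS
  obtain ⟨NC, C, hC, hCl, h1, h2⟩ := exists_short hSm (ε := ε / 3888) (by positivity)
  have h3 : ∃ N, NC ≤ N ∧ (2⁻¹ : ℝ≥0∞) ^ N * 2 ≤ ENNReal.ofReal (ε / 3) := by
    have ht : Filter.Tendsto (fun N => (2⁻¹ : ℝ≥0∞) ^ N * 2) Filter.atTop (nhds (0 * 2)) :=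
      ENNReal.Tendsto.mul_const (ENNReal.tendsto_pow_atTop_nhds_zero_of_lt_one (by norm_num))
        (Or.inr (by norm_num))
    rw [zero_mul] at ht
    have h4 := (ht.eventually_lt_const (u := ENNReal.ofReal (ε / 3)) (by
      rw [ENNReal.ofReal_pos]; positivity)).and (Filter.eventually_ge_atTop NC)
    obtain ⟨N, h5, h6⟩ := h4.exists
    exact ⟨N, h6, h5.le⟩
  obtain ⟨N, hN, h4⟩ := h3
  have hsub : (⋂ N, d.SS N) ⊆ ((⋂ N, d.SS N) \ C) ∪ ({R | ∃ n, N ≤ n ∧ ¬ d.TypN R n} ∪
      ⋃ x, {R | d.E R ∧ d.Typ x R ∧ d.First N x R ∧ R ∈ C}) := by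
    intro R hR
    by_cases hRC : R ∈ C
    · by_cases hg : ∃ n, N ≤ n ∧ ¬ d.TypN R n
      · exact Or.inr (Or.inl hg)
      · refine Or.inr (Or.inr ?_)
        obtain ⟨hE, x, hx, hb⟩ := Set.mem_iInter.1 hR N
        obtain ⟨y, hy⟩ := d.exists_first hx hb
        refine Set.mem_iUnion.2 ⟨y, hE, ?_, hy, hRC⟩
        by_contra hcon
        exact hg ⟨y.length, hy.1, fun h => hcon (h y rfl)⟩
    · exact Or.inl ⟨hR, hRC⟩
  have h5 : 1296 * ENNReal.ofReal (ε / 3888 : ℝ) = ENNReal.ofReal (ε / 3) := by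
    have h6 : (1296 : ℝ≥0∞) = ENNReal.ofReal (1296 : ℝ) := by
      rw [show (1296 : ℝ) = ((1296 : ℕ) : ℝ) by norm_num, ENNReal.ofReal_natCast]
      norm_num
    rw [h6, ← ENNReal.ofReal_mul (by norm_num)]
    congr 1
    ring
  calc randomOracle (⋂ N, d.SS N) ≤ ENNReal.ofReal (ε / 3) + (ENNReal.ofReal (ε / 3) +
        ENNReal.ofReal (ε / 3)) := by
        refine (measure_mono hsub).trans ((measure_union_le _ _).trans (add_le_add ?_ ?_))
        · refine h1.trans (ENNReal.ofReal_le_ofReal ?_)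
          have : (0 : ℝ) < ε := by exact_mod_cast hε
          linarith
        refine (measure_union_le _ _).trans (add_le_add ((d.measure_tail N).trans h4) ?_)
        rw [← h5]
        refine (d.measure_first_le hC hCl hN).trans (mul_le_mul_right
          ((measure_mono fun R hR => ?_).trans h2) _)
        refine ⟨hR.1, fun h => hR.2 ?_⟩
        exact (Set.mem_iInter.1 h 0).1
    _ = ε := by
        rw [← ENNReal.ofReal_add (by positivity) (by positivity),
          ← ENNReal.ofReal_add (by positivity) (by positivity)]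
        have : (ε / 3 + (ε / 3 + ε / 3) : ℝ) = ε := by ring
        rw [this]
        exact ENNReal.ofReal_coe_nnreal

/-- For almost every oracle, the reduction is as we want it on almost all the candidates. -/
theorem ae_not_bad : ∀ᵐ R ∂randomOracle, d.E R →
    ∃ N, ∀ x : List Bool, N ≤ x.length → ¬ d.Bad N R x := by
  rw [ae_iff]
  refine measure_mono_null (fun R hR => ?_) d.measure_SS
  simp only [Set.mem_ofPred_eq] at hR
  push Not at hR
  refine Set.mem_iInter.2 fun N => ?_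
  exact ⟨hR.1, hR.2 N⟩

theorem ae_eventually_good : ∀ᵐ R ∂randomOracle,
    ∃ N, ∀ x : List Bool, N ≤ x.length → d.Good R x := by
  rw [ae_iff]
  refine le_antisymm (ENNReal.le_of_forall_pos_le_add fun ε hε _ => ?_) zero_le
  rw [zero_add]
  have ht : Filter.Tendsto (fun N => (2⁻¹ : ENNReal) ^ N * 2) Filter.atTop (nhds (0 * 2)) :=
    ENNReal.Tendsto.mul_const (ENNReal.tendsto_pow_atTop_nhds_zero_of_lt_one (by norm_num))
      (Or.inr (by norm_num))
  rw [zero_mul] at ht
  obtain ⟨N, hN⟩ := (ht.eventually_lt_const (u := (ε : ENNReal)) (by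
    exact_mod_cast hε)).exists
  refine le_trans (measure_mono fun R hR => ?_) ((d.measure_tail N).trans hN.le)
  simp only [Set.mem_ofPred_eq] at hR
  push Not at hR
  obtain ⟨x, h1, h2⟩ := hR N
  exact ⟨x.length, h1, fun h => h2 (h x rfl (.i, .i, .i, .i))⟩

end Data1

end Pool.Agent.L0h34.RO
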