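import Pool.Agent.L0h34.RO.TMain
import Pool.Agent.L0h34.RO.Red

/-! # One query: the machines -/

set_option autoImplicit false

namespace Pool.Agent.L0h34.RO

open Pool.Agent.L0h34.OM Function

/-- The instance for `X`. -/
def yG (C e1 e2 : ℕ) (R : Oracle) (X : List Bool) : List Bool :=
  let m := (X.length + C) ^ e1
  let lx := ones ((X.length + C) ^ e2) ++ false :: X
  let s := rd R tS lx m
  pack m (!al R s) (be R s) (rd R tC s (3 * m)) X

/-- Remove two bits. -/
def dropP : Prog := .seq (.take 0 .nop .nop .nop) (.take 0 .nop .nop .nop)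

theorem drop1_run (R : Oracle) (s : ℕ) (σ : Store) : ∃ τ : Store,
    Run R s (.take 0 .nop .nop .nop) σ 2 τ ∧ τ 0 = (σ 0).drop 1 := by
  obtain ⟨l, hl⟩ : ∃ l, σ 0 = l := ⟨_, rfl⟩
  rw [hl]
  cases l with
  | nil => exact ⟨σ, .take_nil hl (.nop σ), by rw [hl]; rfl⟩
  | cons b l =>
    cases b
    · exact ⟨_, .take_false hl (.nop _), by simp⟩
    · exact ⟨_, .take_true hl (.nop _), by simp⟩

theorem drop_run (R : Oracle) (s : ℕ) (σ : Store) : ∃ (t : ℕ) (τ : Store),
    Run R s dropP σ t τ ∧ t ≤ 4 ∧ τ 0 = (σ 0).drop 2 := by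
  obtain ⟨τ, h1, h2⟩ := drop1_run R s σ
  obtain ⟨ρ, h3, h4⟩ := drop1_run R s τ
  exact ⟨_, ρ, .seq h1 h3, le_rfl, by rw [h4, h2, List.drop_drop]⟩

/-- The program for the reduction. -/
def redT (N C e1 e2 : ℕ) (uh : Prog) : Prog :=
  .seq (padP N) (.seq (numP C e1 e2) (.seq bldP (.seq uh dropP)))

theorem exists_redT {uh : Prog} {ch : ℕ} (hh : Clocked uh ch) (C e1 e2 N : ℕ) :
    ∃ (u : Prog) (c : ℕ), Clocked u c ∧ ∀ (R : Oracle) (x : List Bool),
      Output R u x ((ev uh R (yG C e1 e2 R (ones N ++ false :: x))).drop 2) := by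
  -- bounds
  obtain ⟨b, hb⟩ : ∃ b : ℕ → ℕ, b = fun n => n + (N + 1 + C) := ⟨_, rfl⟩
  have pb : PB b := by rw [hb]; exact PB.id.add (PB.const _)
  have pq : ∀ j, PB fun n => j * (10 * b n * (b n + 1) ^ j + 10 * b n + 10) + 1 := fun j =>
    ((PB.const j).mul (((((PB.const 10).mul pb).mul ((pb.add (PB.const 1)).pow j)).add
      ((PB.const 10).mul pb)).add (PB.const 10))).add (PB.const 1)
  obtain ⟨w, hw⟩ : ∃ w : ℕ → ℕ, w = fun n => b n ^ e1 + b n ^ e2 + b n + 1 := ⟨_, rfl⟩
  have pw : PB w := by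
    rw [hw]; exact (((pb.pow e1).add (pb.pow e2)).add pb).add (PB.const 1)
  have py : PB fun n => 5 * w n + 3 := ((PB.const 5).mul pw).add (PB.const 3)
  obtain ⟨F, hF⟩ : ∃ F : ℕ → ℕ, F = fun n => (5 * N + 10 * n + 20) +
      ((30 * b n + 40 + 10 * b n ^ e2 + (e2 * (10 * b n * (b n + 1) ^ e2 + 10 * b n + 10) + 1) +
        (e1 * (10 * b n * (b n + 1) ^ e1 + 10 * b n + 10) + 1)) +
        ((200 * w n * w n + 600 * w n + 500) + (((5 * w n + 3) ^ ch + ch) + 4))) := ⟨_, rfl⟩
  have pF : PB F := by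
    rw [hF]
    exact ((((PB.const 5).mul (PB.const N)).add ((PB.const 10).mul PB.id)).add (PB.const 20)).add
      (PB.add ((((((PB.const 30).mul pb).add (PB.const 40)).add
        ((PB.const 10).mul (pb.pow e2))).add (pq e2)).add (pq e1))
      (PB.add (((((PB.const 200).mul pw).mul pw).add ((PB.const 600).mul pw)).add (PB.const 500))
        (((py.pow ch).add (PB.const ch)).add (PB.const 4))))
  obtain ⟨c, hc⟩ := pF
  have key : ∀ (R : Oracle) (x : List Bool), ∃ (s t : ℕ) (τ : Store),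
      Run R s (redT N C e1 e2 uh) (init x) t τ ∧ t ≤ x.length ^ c + c ∧
      τ 0 = (ev uh R (yG C e1 e2 R (ones N ++ false :: x))).drop 2 := by
    intro R x
    obtain ⟨X, hX⟩ : ∃ X, ones N ++ false :: x = X := ⟨_, rfl⟩
    have hXl : X.length = N + 1 + x.length := by rw [← hX]; simp; omega
    have h1 := go_padP (G := R) N x
    rw [hX] at h1 ⊢
    have hbx : X.length + C = b x.length := by rw [hb, hXl]; simp only; omega
    have h2 := go_numP (G := R) C e1 e2 hbx
    have hbw : b x.length ^ e1 ≤ w x.length := by rw [hw]; simp only; omega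
    have h3 := go_bldP (G := R) (m := b x.length ^ e1) (n := w x.length) (X := X)
      (q := ones (b x.length ^ e2) ++ false :: X) hbw (by rw [hw, hXl, hb]; simp only; omega) (by
        simp only [ones, List.length_append, List.length_replicate, List.length_cons]
        rw [hw]
        simp only
        omega)
    have hy : yG C e1 e2 R X = pack (b x.length ^ e1)
        (!al R (rd R tS (ones (b x.length ^ e2) ++ false :: X) (b x.length ^ e1)))
        (be R (rd R tS (ones (b x.length ^ e2) ++ false :: X) (b x.length ^ e1)))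
        (rd R tC (rd R tS (ones (b x.length ^ e2) ++ false :: X) (b x.length ^ e1))
          (3 * b x.length ^ e1)) X := by
      unfold yG
      simp only
      rw [hbx]
    rw [← hy] at h3
    have hyl : (yG C e1 e2 R X).length ≤ 5 * w x.length + 3 := by
      rw [hy, length_pack, length_rd]
      have : X.length ≤ w x.length := by rw [hw, hXl, hb]; simp only; omega
      omega
    obtain ⟨s, t, τ, h4, h5⟩ := hh R (yG C e1 e2 R X)
    have h6 : t ≤ (5 * w x.length + 3) ^ ch + ch :=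
      h5.trans (Nat.add_le_add_right (Nat.pow_le_pow_left hyl ch) ch)
    obtain ⟨t9, τ9, h9, h10, h11⟩ := drop_run R s τ
    obtain ⟨s', t', h7, h8⟩ := h1.seq (h2.seq (h3.seq ⟨s, t + t9, Nat.add_le_add h6 h10, .seq h4 h9⟩))
    refine ⟨s', t', τ9, h8, h7.trans ?_, ?_⟩
    · have := hc x.length
      rw [hF] at this
      exact this
    · rw [h11, Output.ev_eq ⟨s, t, τ, h4, rfl⟩]
  refine ⟨redT N C e1 e2 uh, c, fun R x => ?_, fun R x => ?_⟩
  · obtain ⟨s, t, τ, h1, h2, _⟩ := key R x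
    exact ⟨s, t, τ, h1, h2⟩
  · obtain ⟨s, t, τ, h1, _, h3⟩ := key R x
    exact ⟨s, t, τ, h1, h3⟩

end Pool.Agent.L0h34.RO
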