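import Pool.Agent.L0h34.RO.TLoc

/-! # One query: random oracles are typical -/

set_option autoImplicit false

namespace Pool.Agent.L0h34.RO

open Pool.Agent.L0h34.OM MeasureTheory
open scoped ENNReal

theorem rd_xr_of_ne' {τ Q τ' Q' : List Bool} {ℓ ℓ' : ℕ} {v : Fin ℓ → Bool} {R : Oracle}
    (h : ∀ t t', adr τ' t' Q' ≠ adr τ t Q) :
    rd (xr (tr τ Q v) R) τ' Q' ℓ' = rd R τ' Q' ℓ' :=
  rd_congr fun t _ => xr_tr_of_ne R fun t' h' => h t' t h'

/-- Two blocks of answers are seldom equal. -/
theorem measure_rd_eq_le' {τ Q τ' Q' : List Bool} {ℓ : ℕ}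
    (h : ∀ t t', adr τ' t' Q' ≠ adr τ t Q) :
    (2 : ℝ≥0∞) ^ ℓ * randomOracle {R | rd R τ Q ℓ = rd R τ' Q' ℓ} ≤ 1 := by
  have h1 := measure_le_of_translates (K := Fin ℓ → Bool) (fun v => tr τ Q v)
    (P := {R | rd R τ Q ℓ = rd R τ' Q' ℓ}) (Lc.meas
      (N := τ.length + ℓ + Q.length + τ'.length + Q'.length)
      (fun R R' hA h => by
        rw [rd_local hA (by omega), rd_local hA (by omega)]; exact h)) 1 (by
      intro R s hs
      rw [Finset.card_le_one]
      intro v hv v' hv'
      have h2 := hs v hv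
      have h3 := hs v' hv'
      simp only [Set.mem_ofPred_eq] at h2 h3
      rw [rd_xr_of_ne' h] at h2 h3
      exact rd_xr_inj (h2.trans h3.symm))
  simpa using h1

theorem xr_xr_apply (D D' R : Oracle) (q : List Bool) (h : D' q = false) :
    xr D (xr D' R) q = xr D R q := by
  simp [xr, h]

/-- The sum of two translations. -/
theorem xr_xor (D D' R : Oracle) : xr (fun q => xor (D q) (D' q)) R = xr D (xr D' R) := by
  funext q
  simp [xr]

namespace Data1

variable (d : Data1)

/-- The translation of both seeds. -/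
noncomputable def t2 (x : List Bool) (v : (Fin (d.m x.length) → Bool) × (Fin (d.m x.length) → Bool)) :
    Oracle := fun q => xor (RO.tr tS (d.lx x) v.1 q) (RO.tr uV (d.lx x) v.2 q)

theorem t2_eq (x : List Bool) (v : (Fin (d.m x.length) → Bool) × (Fin (d.m x.length) → Bool)) :
    d.t2 x v = fun q => xor (RO.tr tS (d.lx x) v.1 q) (RO.tr uV (d.lx x) v.2 q) := rfl

theorem adr_SV (t t' : ℕ) (Q Q' : List Bool) : adr tS t Q ≠ adr uV t' Q' :=
  adr_ne (by simp [tS]) (by simp [uV]) (by simp [tS, uV]) _ _ _ _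

theorem sx_t2 {x : List Bool} {v v' : (Fin (d.m x.length) → Bool) × (Fin (d.m x.length) → Bool)}
    {R : Oracle} (h : d.sx (xr (d.t2 x v) R) x = d.sx (xr (d.t2 x v') R) x) : v.1 = v'.1 := by
  have h1 : ∀ v : (Fin (d.m x.length) → Bool) × (Fin (d.m x.length) → Bool),
      d.sx (xr (d.t2 x v) R) x = rd (xr (RO.tr tS (d.lx x) v.1) R) tS (d.lx x) (d.m x.length) := by
    intro v
    refine rd_congr fun t _ => ?_
    rw [t2_eq, xr_xor, xr_xr_apply]
    exact tr_of_ne fun t' => adr_SV _ _ _ _
  rw [h1, h1] at h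
  exact rd_xr_inj h

theorem vx_t2 {x : List Bool} {v v' : (Fin (d.m x.length) → Bool) × (Fin (d.m x.length) → Bool)}
    {R : Oracle} (h : d.vx (xr (d.t2 x v) R) x = d.vx (xr (d.t2 x v') R) x) : v.2 = v'.2 := by
  have h1 : ∀ v : (Fin (d.m x.length) → Bool) × (Fin (d.m x.length) → Bool),
      d.vx (xr (d.t2 x v) R) x = rd (xr (RO.tr uV (d.lx x) v.2) R) uV (d.lx x) (d.m x.length) := by
    intro v
    refine rd_congr fun t _ => ?_
    have : d.t2 x v = fun q => xor (RO.tr uV (d.lx x) v.2 q) (RO.tr tS (d.lx x) v.1 q) := by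
      funext q
      rw [t2, Bool.xor_comm]
    rw [this, xr_xor, xr_xr_apply]
    exact tr_of_ne fun t' => (adr_SV _ _ _ _).symm
  rw [h1, h1] at h
  exact rd_xr_inj h

theorem t2_of_ne {x q : List Bool} (v : (Fin (d.m x.length) → Bool) × (Fin (d.m x.length) → Bool))
    (R : Oracle) (h : ∀ t, q ≠ adr tS t (d.lx x)) (h' : ∀ t, q ≠ adr uV t (d.lx x)) :
    xr (d.t2 x v) R q = R q := by
  rw [t2_eq, xr_xor, xr_xr_apply _ _ _ _ (tr_of_ne h'), xr_tr_of_ne R h]

theorem t2_short {x q : List Bool} (v : (Fin (d.m x.length) → Bool) × (Fin (d.m x.length) → Bool))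
    (R : Oracle) (h : q.length ≤ d.L x.length) : xr (d.t2 x v) R q = R q := by
  refine d.t2_of_ne v R (fun t ht => ?_) fun t ht => ?_ <;>
    rw [ht, length_adr, length_lx] at h <;> omega

/-- The output for an instance that does not depend on the seeds of `x` depends seldom on the
places of these seeds. -/
theorem measure_Q2_le {x : List Bool} (zf : Oracle → List Bool)
    (hzf : ∀ (R : Oracle) (v : (Fin (d.m x.length) → Bool) × (Fin (d.m x.length) → Bool)),
      zf (xr (d.t2 x v) R) = zf R)
    (hlen : ∀ R, (zf R).length + d.tb (zf R).length ≤ d.L x.length)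
    (hloc : ∀ R R', Agree (d.bd x.length) R R' → zf R' = zf R) :
    (2 : ℝ≥0∞) ^ (d.m x.length) * randomOracle {R | ¬ d.Q2 R x (zf R)} ≤
      ((2 * d.L x.length : ℕ) : ℝ≥0∞) := by
  classical
  have hm : MeasurableSet {R | ¬ d.Q2 R x (zf R)} := by
    refine Lc.meas (N := d.bd x.length) (Lc.not fun R R' hA h => ?_)
    rw [hloc R R' hA]
    exact d.Q2_local (hlen R) R R' hA h
  have h1 := measure_le_of_translates
    (K := (Fin (d.m x.length) → Bool) × (Fin (d.m x.length) → Bool))
    (fun v => d.t2 x v) hm (2 ^ d.m x.length * (2 * d.L x.length)) (by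
      intro R s hs
      obtain ⟨Q, hQ1, hQ2, hQ3⟩ := d.sup R (zf R)
      have hlR := hlen R
      have h2 : ∀ v ∈ s, ∃ q ∈ Q, q ∈ loc (d.sx (xr (d.t2 x v) R) x) ∨
          q ∈ loc (d.vx (xr (d.t2 x v) R) x) := by
        intro v hv
        by_contra hcon
        push Not at hcon
        refine hs v hv ?_
        have hQR : ∀ q ∈ Q, xr (d.t2 x v) R q = R q := fun q hq =>
          d.t2_short v R ((hQ2 q hq).trans hlR)
        rw [hzf]
        intro R' hR'
        rw [hQ3 _ hQR]
        refine hQ3 R' fun q hq => ?_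
        rw [← hQR q hq]
        exact hR' q ((hQ2 q hq).trans hlR) (hcon q hq).1 (hcon q hq).2
      choose f hf1 hf2 using h2
      have h3 : s.card ≤ ((Q ×ˢ (Finset.univ : Finset (Fin (d.m x.length) → Bool))) ×ˢ
          (Finset.univ : Finset Bool)).card := by
        refine Finset.card_le_card_of_injOn (fun v => if h : v ∈ s then
          (if f v h ∈ loc (d.sx (xr (d.t2 x v) R) x) then ((f v h, v.2), false)
            else ((f v h, v.1), true)) else (([], v.1), true)) ?_ ?_
        · intro v hv
          have hv' : v ∈ s := hv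
          simp only [hv', dif_pos]
          split_ifs
          · simpa using hf1 v hv'
          · simpa using hf1 v hv'
        · intro v hv v' hv' h
          have k1 : v ∈ s := hv
          have k2 : v' ∈ s := hv'
          simp only [k1, k2, dif_pos] at h
          have h4 := hf2 v k1
          have h4' := hf2 v' k2
          split_ifs at h with c1 c2 c2
          · simp only [Prod.mk.injEq, and_true] at h
            rw [h.1] at c1
            exact Prod.ext (d.sx_t2 (loc_disjoint c1 c2)) h.2
          · simp at h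
          · simp at h
          · simp only [Prod.mk.injEq, and_true] at h
            have c1' := h4.resolve_left c1
            have c2' := h4'.resolve_left c2
            rw [h.1] at c1'
            exact Prod.ext h.2 (d.vx_t2 (loc_disjoint c1' c2'))
      refine h3.trans ?_
      rw [Finset.card_product, Finset.card_product]
      simp only [Finset.card_univ, Fintype.card_pi, Fintype.card_bool, Finset.prod_const,
        Fintype.card_fin]
      have h5 : Q.card ≤ d.L x.length := by omega
      calc Q.card * 2 ^ d.m x.length * 2 ≤ d.L x.length * 2 ^ d.m x.length * 2 := by gcongr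
        _ = 2 ^ d.m x.length * (2 * d.L x.length) := by ring)
  have h2 : (Fintype.card ((Fin (d.m x.length) → Bool) × (Fin (d.m x.length) → Bool)) : ℝ≥0∞) =
      2 ^ d.m x.length * 2 ^ d.m x.length := by
    simp
  rw [h2, mul_assoc, Nat.cast_mul] at h1
  have h0 : (2 : ℝ≥0∞) ^ d.m x.length ≠ 0 := by positivity
  have ht : (2 : ℝ≥0∞) ^ d.m x.length ≠ ⊤ := ENNReal.pow_ne_top (by norm_num)
  have h3 : ((2 ^ d.m x.length : ℕ) : ℝ≥0∞) = 2 ^ d.m x.length := by push_cast; rfl
  rw [h3] at h1
  exact (ENNReal.mul_le_mul_iff_right h0 ht).1 h1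

theorem rd_t2_of_ne {x τ Q : List Bool} {ℓ : ℕ}
    (v : (Fin (d.m x.length) → Bool) × (Fin (d.m x.length) → Bool)) (R : Oracle)
    (h : ∀ t t', adr τ t Q ≠ adr tS t' (d.lx x)) (h' : ∀ t t', adr τ t Q ≠ adr uV t' (d.lx x)) :
    rd (xr (d.t2 x v) R) τ Q ℓ = rd R τ Q ℓ :=
  rd_congr fun t _ => d.t2_of_ne v R (h t) (h' t)

theorem ct_t2 {x : List Bool} (v : (Fin (d.m x.length) → Bool) × (Fin (d.m x.length) → Bool))
    (R : Oracle) (s : List Bool) : ct (xr (d.t2 x v) R) s = ct R s :=
  d.rd_t2_of_ne v R (fun _ _ => adr_ne (by simp [tC]) (by simp [tS]) (by simp [tC, tS]) _ _ _ _)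
    fun _ _ => adr_ne (by simp [tC]) (by simp [uV]) (by simp [tC, uV]) _ _ _ _

theorem ux_t2 {x : List Bool} (v : (Fin (d.m x.length) → Bool) × (Fin (d.m x.length) → Bool))
    (R : Oracle) (x' : List Bool) : d.ux (xr (d.t2 x v) R) x' = d.ux R x' :=
  d.rd_t2_of_ne v R (fun _ _ => adr_ne (by simp [uU]) (by simp [tS]) (by simp [uU, tS]) _ _ _ _)
    fun _ _ h => by
      have := (adr_inj (by rfl) h).1
      simp [uU, uV] at this

theorem cn_t2 {x : List Bool} (v : (Fin (d.m x.length) → Bool) × (Fin (d.m x.length) → Bool))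
    (R : Oracle) {x' : List Bool} (hne : x' ≠ x) (i : Fin 3) :
    d.cn (xr (d.t2 x v) R) x' i = d.cn R x' i := by
  fin_cases i
  · show ct _ (d.sx (xr (d.t2 x v) R) x') = ct R (d.sx R x')
    have : d.sx (xr (d.t2 x v) R) x' = d.sx R x' :=
      d.rd_t2_of_ne v R (fun _ _ h => hne (d.lx_inj (adr_inj (by rfl) h).2.2))
        fun _ _ => adr_SV _ _ _ _
    rw [this, ct_t2]
  · exact d.ux_t2 v R x'
  · show ct _ (d.vx (xr (d.t2 x v) R) x') = ct R (d.vx R x')
    have : d.vx (xr (d.t2 x v) R) x' = d.vx R x' :=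
      d.rd_t2_of_ne v R (fun _ _ => (adr_SV _ _ _ _).symm)
        fun _ _ h => hne (d.lx_inj (adr_inj (by rfl) h).2.2)
    rw [this, ct_t2]

/-- The condition is preserved by the changes. -/
theorem Q2_tr {R : Oracle} {x z : List Bool} (h : d.Q2 R x z) (k : Kd) :
    d.Q2 (d.tr x k R) x z := by
  have h1 : d.oh (d.tr x k R) z = d.oh R z := h _ (d.off_tr x k R)
  intro R' h'
  rw [h1]
  refine h R' fun q hq h2 h3 => ?_
  rw [← d.off_tr x k R q hq h2 h3]
  refine h' q hq ?_ ?_
  · rwa [sx_tr]
  · rwa [vx_tr]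

theorem measure_not_quiet {x x' : List Bool} (hle : x'.length ≤ x.length) (p p' : Bool)
    (i : Fin 3) : (2 : ℝ≥0∞) ^ (d.m x.length) *
      randomOracle {R | ¬ d.Q2 R x (d.cd R x' p p' i)} ≤ ((2 * d.L x.length : ℕ) : ℝ≥0∞) := by
  have hb : ∀ R, (d.cd R x' p p' i).length + d.tb (d.cd R x' p p' i).length ≤
      d.L x.length := fun R => by
    have := d.cd_bound hle R p p' i
    omega
  by_cases hne : x' = x
  swap
  · exact d.measure_Q2_le (fun R => d.cd R x' p p' i)
      (fun R v => by rw [cd, cd, d.cn_t2 v R hne]) hb fun R R' hA => d.cd_local hle hA _ _ _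
  subst hne
  have hb1 : ∀ R, (d.cd R x' p p' 1).length + d.tb (d.cd R x' p p' 1).length ≤
      d.L x'.length := fun R => by
    have := d.cd_bound hle R p p' 1
    omega
  have h1 := d.measure_Q2_le (x := x') (fun R => d.cd R x' p p' 1) (fun R v => by
      rw [cd, cd]
      show pack _ _ _ (d.ux _ x') _ = pack _ _ _ (d.ux _ x') _
      rw [ux_t2]) hb1 fun R R' hA => d.cd_local hle hA _ _ _
  have hm : MeasurableSet {R | ¬ d.Q2 R x' (d.cd R x' p p' i)} := by
    refine Lc.meas (N := d.bd x'.length) (Lc.not fun R R' hA h => ?_)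
    rw [d.cd_local hle hA]
    exact d.Q2_local (hb R) R R' hA h
  obtain ⟨k, hk⟩ : ∃ k, ∀ R, d.cn (d.tr x' k R) x' i = d.cn R x' 1 := by
    fin_cases i
    · refine ⟨.xs, fun R => ?_⟩
      show ct (d.tr x' .xs R) (d.sx (d.tr x' .xs R) x') = _
      rw [sx_tr]
      exact d.ct_ex_self _ _ _ (d.length_sx R x')
    · exact ⟨.i, fun R => rfl⟩
    · refine ⟨.xv, fun R => ?_⟩
      show ct (d.tr x' .xv R) (d.vx (d.tr x' .xv R) x') = _
      rw [vx_tr]
      exact d.ct_ex_self _ _ _ (d.length_vx R x')
  refine le_trans (mul_le_mul_right ?_ _) h1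
  rw [← (d.mp_tr x' k).measure_preimage hm.nullMeasurableSet]
  refine measure_mono fun R hR => ?_
  simp only [Set.mem_preimage, Set.mem_ofPred_eq] at hR ⊢
  intro h
  apply hR
  rw [cd, hk, ← cd]
  exact d.Q2_tr h k

/-- The translation of the spare seed. -/
theorem measure_not_keep (x : List Bool) (p p' : Bool) : (2 : ℝ≥0∞) ^ (d.m x.length) *
      randomOracle {R | ¬ d.Keep R x (d.cd R x p p' 1)} ≤ ((d.L x.length : ℕ) : ℝ≥0∞) := by
  classical
  have hm : MeasurableSet {R | ¬ d.Keep R x (d.cd R x p p' 1)} := by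
    refine Lc.meas (N := d.bd x.length) (Lc.not fun R R' hA h => ?_)
    rw [d.cd_local le_rfl hA]
    have := d.cd_bound (le_refl x.length) R p p' 1
    exact d.Keep_local (by omega) R R' hA h
  have h1 := measure_le_of_translates (K := Fin (d.m x.length) → Bool)
    (fun v => RO.tr uV (d.lx x) v) hm (d.L x.length) (by
      intro R s hs
      obtain ⟨z, hz⟩ : ∃ z, d.cd R x p p' 1 = z := ⟨_, rfl⟩
      have hzb := d.cd_bound (le_refl x.length) R p p' 1
      rw [hz] at hzb
      have hshort : ∀ (v : Fin (d.m x.length) → Bool) (q : List Bool), q.length ≤ d.L x.length →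
          xr (RO.tr uV (d.lx x) v) R q = R q := fun v q hq =>
        xr_tr_of_ne R fun t ht => by rw [ht, length_adr, length_lx] at hq; omega
      have hzv : ∀ v : Fin (d.m x.length) → Bool,
          d.cd (xr (RO.tr uV (d.lx x) v) R) x p p' 1 = z := by
        intro v
        rw [← hz, cd, cd]
        show pack _ _ _ (d.ux _ x) _ = pack _ _ _ (d.ux _ x) _
        have : d.ux (xr (RO.tr uV (d.lx x) v) R) x = d.ux R x := rd_xr_of_ne' fun _ _ h => by
          have := (adr_inj (by rfl) h).1
          simp [uU, uV] at this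
        rw [this]
      have hov : ∀ v : Fin (d.m x.length) → Bool,
          d.oh (xr (RO.tr uV (d.lx x) v) R) z = d.oh R z := fun v =>
        d.oh_local (N := d.L x.length) (fun q hq => hshort v q hq) (by omega)
      obtain ⟨q, hq⟩ : ∃ q, (d.oh R z).drop 2 = q := ⟨_, rfl⟩
      have hql : q.length ≤ z.length + d.tb z.length := by
        have := d.oh_len R z
        rw [← hq, List.length_drop]
        omega
      have hla := d.la_mono hql
      by_cases hvq : d.vA R q
      · obtain ⟨Q, hQ1, hQ2, hQ3⟩ := d.cert R q hvq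
        have h2 : ∀ v ∈ s, ∃ a ∈ Q, a ∈ loc (d.vx (xr (RO.tr uV (d.lx x) v) R) x) := by
          intro v hv
          by_contra hcon
          push Not at hcon
          refine hs v hv ?_
          rw [hzv]
          intro _ R' hR'
          rw [hov, hq]
          refine hQ3 R' fun a ha => ?_
          have hal := hQ2 a ha
          rw [← hshort v a (by omega)]
          exact hR' a (by omega) (hcon a ha)
        choose f hf1 hf2 using h2
        have h3 : s.card ≤ Q.card := by
          refine Finset.card_le_card_of_injOn (fun v => if h : v ∈ s then f v h else []) ?_ ?_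
          · intro v hv
            have hv' : v ∈ s := hv
            simp only [hv', dif_pos]
            exact hf1 v hv'
          · intro v hv v' hv' h
            have k1 : v ∈ s := hv
            have k2 : v' ∈ s := hv'
            simp only [k1, k2, dif_pos] at h
            have h4 := hf2 v k1
            rw [h] at h4
            exact rd_xr_inj (loc_disjoint h4 (hf2 v' k2))
        omega
      · have : s = ∅ := by
          rw [Finset.eq_empty_iff_forall_notMem]
          intro v hv
          refine hs v hv ?_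
          rw [hzv]
          intro h
          rw [hov, hq] at h
          exfalso
          apply hvq
          refine (d.vA_la R (xr (RO.tr uV (d.lx x) v) R) q fun a ha => hshort v a ?_).1 h
          omega
        rw [this]
        simp)
  simpa using h1

end Data1

end Pool.Agent.L0h34.RO
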