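import Pool.Agent.L0h34.RO.Local

/-! # Random oracles are typical -/

set_option autoImplicit false

namespace Pool.Agent.L0h34.RO

open Pool.Agent.L0h34.OM MeasureTheory
open scoped ENNReal

open Classical in
/-- The translation by `v` at the addresses with the tag `τ` and the suffix `Q`. -/
noncomputable def tr (τ Q : List Bool) {ℓ : ℕ} (v : Fin ℓ → Bool) : Oracle :=
  fun q => decide (∃ t : Fin ℓ, q = adr τ t Q ∧ v t = true)

theorem tr_adr (τ Q : List Bool) {ℓ : ℕ} (v : Fin ℓ → Bool) (t : Fin ℓ) :
    tr τ Q v (adr τ t Q) = v t := by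
  unfold tr
  by_cases h : v t = true
  · rw [h, decide_eq_true_iff]
    exact ⟨t, rfl, h⟩
  · rw [Bool.not_eq_true] at h
    rw [h, decide_eq_false_iff_not]
    rintro ⟨t', h1, h2⟩
    have := (adr_inj rfl h1).2.1
    rw [Fin.ext this, h2] at h
    exact Bool.noConfusion h

theorem tr_of_ne {τ Q : List Bool} {ℓ : ℕ} {v : Fin ℓ → Bool} {q : List Bool}
    (h : ∀ t, q ≠ adr τ t Q) : tr τ Q v q = false := by
  unfold tr
  rw [decide_eq_false_iff_not]
  rintro ⟨t, h1, _⟩
  exact h _ h1

theorem xr_tr_of_ne {τ Q : List Bool} {ℓ : ℕ} {v : Fin ℓ → Bool} {q : List Bool} (R : Oracle)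
    (h : ∀ t, q ≠ adr τ t Q) : xr (tr τ Q v) R q = R q := by
  simp [xr, tr_of_ne h]

theorem rd_xr_inj {τ Q : List Bool} {ℓ : ℕ} {v v' : Fin ℓ → Bool} {R : Oracle}
    (h : rd (xr (tr τ Q v) R) τ Q ℓ = rd (xr (tr τ Q v') R) τ Q ℓ) : v = v' := by
  rw [rd_eq_iff] at h
  funext t
  have := h t t.2
  simp only [xr, tr_adr] at this
  revert this
  cases v t <;> cases v' t <;> simp

theorem rd_xr_of_ne {τ Q τ' Q' : List Bool} {ℓ ℓ' : ℕ} {v : Fin ℓ → Bool} {R : Oracle}
    (hl : τ'.length = τ.length) (h : τ' ≠ τ ∨ Q' ≠ Q) :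
    rd (xr (tr τ Q v) R) τ' Q' ℓ' = rd R τ' Q' ℓ' := by
  refine rd_congr fun t _ => xr_tr_of_ne R fun t' h' => ?_
  obtain ⟨h1, _, h3⟩ := adr_inj hl h'
  rcases h with h | h
  · exact h h1
  · exact h h3

/-- Two blocks of answers are seldom equal. -/
theorem measure_rd_eq_le {τ Q τ' Q' : List Bool} {ℓ : ℕ} (hl : τ'.length = τ.length)
    (h : τ' ≠ τ ∨ Q' ≠ Q) :
    (2 : ℝ≥0∞) ^ ℓ * randomOracle {R | rd R τ Q ℓ = rd R τ' Q' ℓ} ≤ 1 := by
  have h1 := measure_le_of_translates (K := Fin ℓ → Bool) (fun v => tr τ Q v)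
    (P := {R | rd R τ Q ℓ = rd R τ' Q' ℓ}) (Lc.meas (N := τ.length + ℓ + Q.length + Q'.length)
      (fun R R' hA h => by
        rw [rd_local hA (by omega), rd_local hA (by omega)]; exact h)) 1 (by
      intro R s hs
      rw [Finset.card_le_one]
      intro v hv v' hv'
      have h2 := hs v hv
      have h3 := hs v' hv'
      simp only [Set.mem_ofPred_eq] at h2 h3
      rw [rd_xr_of_ne hl h] at h2 h3
      exact rd_xr_inj (h2.trans h3.symm))
  simpa using h1

namespace Data

variable (d : Data)

theorem NQ_of_support {R R1 : Oracle} {z σ : List Bool} {Q : Finset (List Bool)}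
    (hQ : ∀ R' : Oracle, (∀ q ∈ Q, R' q = R q) → d.oh R' z = d.oh R z)
    (h1 : ∀ q ∈ Q, R1 q = R q) (hσ : ∀ q ∈ Q, q ∉ loc σ) : d.NQ R1 z σ := by
  intro R' hR'
  rw [hQ R1 h1]
  exact hQ R' fun q hq => by rw [hR' q (hσ q hq), h1 q hq]

/-- The output for an instance that does not depend on the seed of `x` depends seldom on the
places of this seed. -/
theorem measure_NQ_le {x : List Bool} (zf : Oracle → List Bool)
    (hzf : ∀ (R : Oracle) (v : Fin (d.m x.length) → Bool),
      zf (xr (tr tS (d.lx x) v) R) = zf R)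
    (hlen : ∀ R, (zf R).length + d.tb (zf R).length < d.L x.length)
    (hloc : ∀ R R', Agree (d.bd x.length) R R' → zf R' = zf R) :
    (2 : ℝ≥0∞) ^ (d.m x.length) * randomOracle {R | ¬ d.NQ R (zf R) (d.sx R x)} ≤
      (d.L x.length : ℝ≥0∞) := by
  classical
  have hm : MeasurableSet {R | ¬ d.NQ R (zf R) (d.sx R x)} := by
    refine Lc.meas (N := d.bd x.length) (Lc.not fun R R' hA h => ?_)
    rw [hloc R R' hA, d.sx_local le_rfl hA]
    refine d.NQ_local ?_ R R' hA h
    have := hlen R
    rw [bd]; omega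
  have h1 := measure_le_of_translates (K := Fin (d.m x.length) → Bool)
    (fun v => tr tS (d.lx x) v) hm (d.L x.length) (by
      intro R s hs
      obtain ⟨Q, hQ1, hQ2, hQ3⟩ := d.sup R (zf R)
      have hlR := hlen R
      have h2 : ∀ v ∈ s, ∃ q ∈ Q, q ∈ loc (d.sx (xr (tr tS (d.lx x) v) R) x) := by
        intro v hv
        by_contra hcon
        push Not at hcon
        refine hs v hv ?_
        rw [hzf]
        refine d.NQ_of_support hQ3 (fun q hq => xr_tr_of_ne R fun t ht => ?_) hcon
        have h3 := hQ2 q hq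
        rw [ht, length_adr, length_lx] at h3
        omega
      choose f hf1 hf2 using h2
      have h3 : s.card ≤ Q.card := by
        refine Finset.card_le_card_of_injOn (fun v => if h : v ∈ s then f v h else []) ?_ ?_
        · intro v hv
          have hv' : v ∈ s := hv
          simp only [hv', dif_pos]
          exact hf1 v hv'
        · intro v hv v' hv' h
          have k1 : v ∈ s := hv
          have k2 : v' ∈ s := hv'
          simp only [k1, k2, dif_pos] at h
          have h4 := hf2 v k1
          rw [h] at h4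
          exact rd_xr_inj (loc_disjoint h4 (hf2 v' k2))
      omega)
  simpa using h1

/-- The instance for `x'` does not depend on the seed of `x`. -/
theorem measure_NQ_an_le {x x' : List Bool} (hne : x' ≠ x) (hle : x'.length ≤ x.length)
    (p p' : Bool) : (2 : ℝ≥0∞) ^ (d.m x.length) *
      randomOracle {R | ¬ d.NQ R (d.an R p p' x') (d.sx R x)} ≤ (d.L x.length : ℝ≥0∞) := by
  refine d.measure_NQ_le (fun R => d.an R p p' x') (fun R v => ?_)
    (fun R => d.an_bound hle R p p') (fun R R' hA => d.an_local hle hA p p')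
  have h1 : d.sx (xr (tr tS (d.lx x) v) R) x' = d.sx R x' :=
    rd_xr_of_ne rfl (Or.inr fun h => hne (d.lx_inj h))
  simp only [an, h1]
  rw [ct, ct, rd_xr_of_ne (τ := tS) (τ' := tC) (by rfl) (Or.inl (by simp [tC, tS]))]

open Classical in
/-- Exchange the contents of `σ` with the spare block of `x`. -/
noncomputable def exch (σ x q : List Bool) : List Bool :=
  if h : ∃ t, q = adr tC t σ then adr tU h.choose (d.lx x)
  else if h : ∃ t, q = adr tU t (d.lx x) then adr tC h.choose σ else q

theorem exch_C (σ x : List Bool) (t : ℕ) : d.exch σ x (adr tC t σ) = adr tU t (d.lx x) := by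
  have h : ∃ t', adr tC t σ = adr tC t' σ := ⟨t, rfl⟩
  rw [exch, dif_pos h, ← (adr_inj rfl h.choose_spec).2.1]

theorem exch_U (σ x : List Bool) (t : ℕ) : d.exch σ x (adr tU t (d.lx x)) = adr tC t σ := by
  have h0 : ¬ ∃ t', adr tU t (d.lx x) = adr tC t' σ := by
    rintro ⟨t', h⟩
    have := (adr_inj (by rfl) h).1
    simp [tU, tC] at this
  have h : ∃ t', adr tU t (d.lx x) = adr tU t' (d.lx x) := ⟨t, rfl⟩
  rw [exch, dif_neg h0, dif_pos h, ← (adr_inj rfl h.choose_spec).2.1]

theorem exch_of_ne {σ x q : List Bool} (h1 : ∀ t, q ≠ adr tC t σ) (h2 : ∀ t, q ≠ adr tU t (d.lx x)) :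
    d.exch σ x q = q := by
  rw [exch, dif_neg (by rintro ⟨t, h⟩; exact h1 t h), dif_neg (by rintro ⟨t, h⟩; exact h2 t h)]

theorem exch_exch (σ x : List Bool) : Function.Involutive (d.exch σ x) := by
  intro q
  by_cases h1 : ∃ t, q = adr tC t σ
  · obtain ⟨t, rfl⟩ := h1
    rw [exch_C, exch_U]
  · by_cases h2 : ∃ t, q = adr tU t (d.lx x)
    · obtain ⟨t, rfl⟩ := h2
      rw [exch_U, exch_C]
    · have := d.exch_of_ne (fun t h => h1 ⟨t, h⟩) (fun t h => h2 ⟨t, h⟩)
      rw [this, this]

/-- The permutation. -/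
noncomputable def exchPerm (σ x : List Bool) : Equiv.Perm (List Bool) := (d.exch_exch σ x).toPerm

theorem pm_exch (σ x q : List Bool) (R : Oracle) :
    pm (d.exchPerm σ x) R q = R (d.exch σ x q) := rfl

/-- The instance for `x` whose contents is the spare block. -/
def zu (p p' : Bool) (x : List Bool) (R : Oracle) : List Bool :=
  pack (d.m x.length) p p' (rd R tU (d.lx x) (3 * d.m x.length)) x

theorem length_zu (p p' : Bool) (x : List Bool) (R : Oracle) :
    (d.zu p p' x R).length = 4 * d.m x.length + x.length + 3 := by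
  rw [zu, length_pack, length_rd]; ring

theorem zu_bound (p p' : Bool) (x : List Bool) (R : Oracle) :
    (d.zu p p' x R).length + d.tb (d.zu p p' x R).length < d.L x.length := by
  rw [length_zu]
  exact d.tb_lt _ _ le_rfl

theorem zu_local (p p' : Bool) (x : List Bool) (R R' : Oracle)
    (h : Agree (d.bd x.length) R R') : d.zu p p' x R' = d.zu p p' x R := by
  have := rd_local (τ := tU) (Q := d.lx x) (ℓ := 3 * d.m x.length) h
    (by rw [length_lx, bd]; simp only [tU, List.length_cons, List.length_nil]; omega)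
  rw [zu, zu, this]

/-- The output for the own instance of `x` depends seldom on the places of its seed. -/
theorem measure_NQ_self_le (x : List Bool) (p p' : Bool) : (2 : ℝ≥0∞) ^ (d.m x.length) *
      randomOracle {R | ¬ d.NQ R (d.an R p p' x) (d.sx R x)} ≤ (d.L x.length : ℝ≥0∞) := by
  refine le_trans (mul_le_mul_right ?_ _) (d.measure_NQ_le (x := x) (d.zu p p' x) (fun R v => ?_)
    (d.zu_bound p p' x) (d.zu_local p p' x))
  swap
  · rw [zu, zu, rd_xr_of_ne (τ := tS) (τ' := tU) (by rfl) (Or.inl (by simp [tU, tS]))]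
  have hP : ∀ σ, MeasurableSet {R | d.sx R x = σ ∧ ¬ d.NQ R (d.an R p p' x) σ} := by
    intro σ
    refine Lc.meas (N := d.bd x.length) fun R R' hA h => ?_
    rw [d.an_local le_rfl hA, d.sx_local le_rfl hA]
    refine ⟨h.1, ?_⟩
    refine (d.NQ_local ?_).not R R' hA h.2
    have := d.an_bound le_rfl R p p' (x := x)
    rw [bd]; omega
  have hQ : ∀ σ, MeasurableSet {R | d.sx R x = σ ∧ ¬ d.NQ R (d.zu p p' x R) σ} := by
    intro σ
    refine Lc.meas (N := d.bd x.length) fun R R' hA h => ?_
    rw [d.zu_local p p' x R R' hA, d.sx_local le_rfl hA]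
    refine ⟨h.1, ?_⟩
    refine (d.NQ_local ?_).not R R' hA h.2
    have := d.zu_bound p p' x R
    rw [bd]; omega
  calc randomOracle {R | ¬ d.NQ R (d.an R p p' x) (d.sx R x)}
      ≤ randomOracle (⋃ σ, {R | d.sx R x = σ ∧ ¬ d.NQ R (d.an R p p' x) σ}) :=
        measure_mono fun R hR => Set.mem_iUnion.2 ⟨d.sx R x, rfl, hR⟩
    _ ≤ ∑' σ, randomOracle {R | d.sx R x = σ ∧ ¬ d.NQ R (d.an R p p' x) σ} :=
        measure_iUnion_le _
    _ ≤ ∑' σ, randomOracle {R | d.sx R x = σ ∧ ¬ d.NQ R (d.zu p p' x R) σ} := by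
        refine ENNReal.tsum_le_tsum fun σ => ?_
        rw [← measure_pm (d.exchPerm σ x) (hP σ)]
        refine measure_mono fun R hR => ?_
        simp only [Set.mem_ofPred_eq] at hR ⊢
        have hsx : d.sx (pm (d.exchPerm σ x) R) x = d.sx R x := by
          refine rd_congr fun t _ => ?_
          rw [pm_exch, d.exch_of_ne]
          · intro t' h
            have := (adr_inj (by rfl) h).1
            simp [tS, tC] at this
          · intro t' h
            have := (adr_inj (by rfl) h).1
            simp [tS, tU] at this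
        rw [hsx] at hR
        refine ⟨hR.1, fun hNQ => hR.2 ?_⟩
        have hσ : σ.length = d.m x.length := by rw [← hR.1, length_sx]
        have han : d.an (pm (d.exchPerm σ x) R) p p' x = d.zu p p' x R := by
          rw [an, zu, hsx, hR.1, ct, hσ]
          congr 1
          refine List.map_congr_left fun t _ => ?_
          rw [pm_exch, exch_C]
        rw [han]
        have hb := d.zu_bound p p' x R
        -- the outputs under the changed oracle
        have key : ∀ R'' : Oracle, (∀ q, q ∉ loc σ → R'' q = pm (d.exchPerm σ x) R q) →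
            d.oh R'' (d.zu p p' x R) = d.oh R (d.zu p p' x R) := by
          classical
          intro R'' hR''
          rw [← hNQ (fun q => if ∃ t, q = adr tU t (d.lx x) then R q else R'' q) ?_]
          · refine d.oh_local (N := (d.zu p p' x R).length + d.tb (d.zu p p' x R).length)
              (fun q hq => ?_) le_rfl
            have : ¬ ∃ t, q = adr tU t (d.lx x) := by
              rintro ⟨t, rfl⟩
              rw [length_adr, length_lx] at hq
              omega
            simp only [this, if_false]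
          · intro q hq
            by_cases h : ∃ t, q = adr tU t (d.lx x)
            · simp only [h, if_true]
            · simp only [h, if_false]
              rw [hR'' q hq, pm_exch, d.exch_of_ne]
              · intro t h'
                exact hq ⟨t, Or.inl h'⟩
              · intro t h'
                exact h ⟨t, h'⟩
        intro R' hR'
        rw [key R' hR', key _ fun q _ => rfl]
    _ = randomOracle (⋃ σ, {R | d.sx R x = σ ∧ ¬ d.NQ R (d.zu p p' x R) σ}) := by
        rw [measure_iUnion _ hQ]
        intro σ σ' hσ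
        refine Set.disjoint_left.2 fun R h1 h2 => hσ ?_
        rw [← h1.1, ← h2.1]
    _ ≤ randomOracle {R | ¬ d.NQ R (d.zu p p' x R) (d.sx R x)} := by
        refine measure_mono fun R hR => ?_
        obtain ⟨σ, h1, h2⟩ := Set.mem_iUnion.1 hR
        simp only [Set.mem_ofPred_eq] at h1 h2 ⊢
        rw [h1]
        exact h2

end Data

/-- The strings of length `k`. -/
def strs (k : ℕ) : Finset (List Bool) := (Finset.univ : Finset (Fin k → Bool)).image List.ofFn

theorem mem_strs {k : ℕ} {x : List Bool} (h : x.length = k) : x ∈ strs k := by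
  subst h
  exact Finset.mem_image.2 ⟨x.get, Finset.mem_univ _, List.ofFn_get x⟩

theorem length_of_mem_strs {k : ℕ} {x : List Bool} (h : x ∈ strs k) : x.length = k := by
  obtain ⟨v, _, rfl⟩ := Finset.mem_image.1 h
  simp

theorem card_strs (k : ℕ) : (strs k).card ≤ 2 ^ k :=
  Finset.card_image_le.trans (by simp)

/-- The strings of length at most `k`. -/
def strsLe (k : ℕ) : Finset (List Bool) := (Finset.range (k + 1)).biUnion strs

theorem mem_strsLe {k : ℕ} {x : List Bool} (h : x.length ≤ k) : x ∈ strsLe k :=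
  Finset.mem_biUnion.2 ⟨x.length, Finset.mem_range.2 (by omega), mem_strs rfl⟩

theorem length_of_mem_strsLe {k : ℕ} {x : List Bool} (h : x ∈ strsLe k) : x.length ≤ k := by
  obtain ⟨j, h1, h2⟩ := Finset.mem_biUnion.1 h
  rw [length_of_mem_strs h2]
  have := Finset.mem_range.1 h1
  omega

theorem card_strsLe (k : ℕ) : (strsLe k).card ≤ 2 ^ (k + 1) := by
  refine Finset.card_biUnion_le.trans ((Finset.sum_le_sum fun j _ => card_strs j).trans ?_)
  have : ∀ k : ℕ, ∑ j ∈ Finset.range k, 2 ^ j + 1 = 2 ^ k := by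
    intro k
    induction k with
    | zero => rfl
    | succ k ih => rw [Finset.sum_range_succ, pow_succ, ← ih]; ring
  have := this (k + 1)
  omega

end Pool.Agent.L0h34.RO
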