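import Pool.Agent.L0h34.RO.Check

/-! # The verifier and the search -/

set_option autoImplicit false

namespace Pool.Agent.L0h34.RO

open Pool.Agent.L0h34.OM Function

variable {G : Oracle} {X W S A C T B D O E P P2 M f1 go K f2 F1 F2 Y : List Bool}

theorem go_h10 : Go G (.take 0 .nop .nop (.put 10 true)) (st [X, W, S, A, C, T, B, D, O, E, [], P2, M, f1, go, K, f2, F1, F2, Y]) 2
    (st [X.tail, W, S, A, C, T, B, D, O, E, cc (X.headD false), P2, M, f1, go, K, f2, F1, F2, Y]) := by
  rcases X with _ | ⟨b, X⟩
  · exact Go.take_nil (T := 1) rfl Go.nop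
  · rcases b with - | -
    · exact Go.take_false (T := 1) (by simp) rfl Go.nop
    · exact Go.take_true (T := 1) (by simp) rfl (Go.put true (by simp))

theorem go_h11 : Go G (.take 0 .nop .nop (.put 11 true)) (st [X, W, S, A, C, T, B, D, O, E, P, [], M, f1, go, K, f2, F1, F2, Y]) 2
    (st [X.tail, W, S, A, C, T, B, D, O, E, P, cc (X.headD false), M, f1, go, K, f2, F1, F2, Y]) := by
  rcases X with _ | ⟨b, X⟩
  · exact Go.take_nil (T := 1) rfl Go.nop
  · rcases b with - | -
    · exact Go.take_false (T := 1) (by simp) rfl Go.nop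
    · exact Go.take_true (T := 1) (by simp) rfl (Go.put true (by simp))

theorem st_zeros (l : List (List Bool)) (j : ℕ) : st (l ++ List.replicate j []) = st l := by
  funext r
  simp only [st]
  rcases Nat.lt_or_ge r l.length with h | h
  · rw [List.getElem?_append_left h]
  · rw [List.getElem?_append_right h, List.getElem?_eq_none h]
    rcases Nat.lt_or_ge (r - l.length) j with h2 | h2
    · rw [List.getElem?_replicate_of_lt h2]
      rfl
    · rw [List.getElem?_eq_none (by simpa using h2)]

theorem init2_eq (x w : List Bool) : init2 x w = st [x, w, [], [], [], [], [], [], [], [], [], [], [], [], [], [], [], [], [], []] := by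
  funext r
  rcases r with _ | _ | r
  · rfl
  · rfl
  · have h1 : init2 x w (r + 1 + 1) = [] := by simp [init2]
    rw [h1]
    exact (congrFun (st_zeros [x, w] 18) (r + 1 + 1)).symm.trans rfl |>.symm ▸ by simp [st]

theorem init_eq20 (x : List Bool) : init x = st [x, [], [], [], [], [], [], [], [], [], [], [], [], [], [], [], [], [], [], []] := by
  rw [init_eq]
  exact (st_zeros [x, [], [], [], [], [], [], [], [], [], [], []] 8).symm

/-- Prepare the input of `u`, and run `u`. -/
def preP : Prog := .seq (.copy 9 0) (.seq (.clear 9) (.seq psB (.seq (.clear 15) (.seq (.clear 2) (.seq (.clear 10) (.clear 11))))))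

theorem go_preP {s e : List Bool} {n : ℕ} (hs : s.length ≤ n) (he : e.length ≤ n)
    (hP : P.length ≤ n) (hP2 : P2.length ≤ n) (hK : K.length ≤ n) :
    Go G preP (st [X, W, s, [], [], [], [], [], [], e, P, P2, [], [], [], K, [], [], [], []]) (24 * n + 20)
      (st [(unary e).2, W, [], [], [], [], [], [], [], [], [], [], [], [], [], [], [], [], [], []]) := by
  have g1 : Go G (.copy 9 0) (st [X, W, s, [], [], [], [], [], [], e, P, P2, [], [], [], K, [], [], [], []])
      ((e : List Bool).length + 1)
      (st [e, W, s, [], [], [], [], [], [], e, P, P2, [], [], [], K, [], [], [], []]) := Go.copy (by simp)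
  have g2 : Go G (.clear 9) (st [e, W, s, [], [], [], [], [], [], e, P, P2, [], [], [], K, [], [], [], []])
      (3 * (e : List Bool).length + 1)
      (st [e, W, s, [], [], [], [], [], [], [], P, P2, [], [], [], K, [], [], [], []]) := Go.clear (by simp)
  have g3 : Go G psB (st [e, W, s, [], [], [], [], [], [], [], P, P2, [], [], [], K, [], [], [], []])
      (7 * e.length + 8)
      (st [(unary e).2, W, s, [], [], [], [], [], [], [], P, P2, [], [], [], K, [], [], [], []]) := go_psB e
  have g4 : Go G (.clear 15) (st [(unary e).2, W, s, [], [], [], [], [], [], [], P, P2, [], [], [], K, [], [], [], []])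
      (3 * (K : List Bool).length + 1)
      (st [(unary e).2, W, s, [], [], [], [], [], [], [], P, P2, [], [], [], [], [], [], [], []]) := Go.clear (by simp)
  have g5 : Go G (.clear 2) (st [(unary e).2, W, s, [], [], [], [], [], [], [], P, P2, [], [], [], [], [], [], [], []])
      (3 * (s : List Bool).length + 1)
      (st [(unary e).2, W, [], [], [], [], [], [], [], [], P, P2, [], [], [], [], [], [], [], []]) := Go.clear (by simp)
  have g6 : Go G (.clear 10) (st [(unary e).2, W, [], [], [], [], [], [], [], [], P, P2, [], [], [], [], [], [], [], []])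
      (3 * (P : List Bool).length + 1)
      (st [(unary e).2, W, [], [], [], [], [], [], [], [], [], P2, [], [], [], [], [], [], [], []]) := Go.clear (by simp)
  have g7 : Go G (.clear 11) (st [(unary e).2, W, [], [], [], [], [], [], [], [], [], P2, [], [], [], [], [], [], [], []])
      (3 * (P2 : List Bool).length + 1)
      (st [(unary e).2, W, [], [], [], [], [], [], [], [], [], [], [], [], [], [], [], [], [], []]) := Go.clear (by simp)
  refine (g1.seq (g2.seq (g3.seq (g4.seq (g5.seq (g6.seq g7)))))).mono ?_
  clear g7 g6 g5 g4 g3 g2 g1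
  ring_nf
  omega

/-- Reject. -/
def rejP : Prog := .clear 0
/-- Accept. -/
def accP : Prog := .put 0 true

/-- The end of the verification. -/
def endV (u : Prog) : Prog :=
  .take 12 (.take 13 (.take 16 rejP (.seq preP u) (.seq preP u)) accP accP) rejP rejP

theorem go_rejP : Go G rejP (st [X, W, S, A, C, T, B, D, O, E, P, P2, M, f1, go, K, f2, F1, F2, Y]) (3 * X.length + 1) (st [[], W, S, A, C, T, B, D, O, E, P, P2, M, f1, go, K, f2, F1, F2, Y]) := Go.clear (by simp)

theorem go_accP : Go G accP (st [X, W, S, A, C, T, B, D, O, E, P, P2, M, f1, go, K, f2, F1, F2, Y]) 1 (st [X ++ [true], W, S, A, C, T, B, D, O, E, P, P2, M, f1, go, K, f2, F1, F2, Y]) := Go.put true (by simp)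

theorem go_endV {u : Prog} {T n : ℕ} {τ : Store} {s e : List Bool} (m : ℕ) (b1 b2 : Bool)
    (hu : Go G u (init2 (unary e).2 W) T τ) (hX : X.length ≤ n) (hs : s.length ≤ n)
    (he : e.length ≤ n) (hP : P.length ≤ n) (hP2 : P2.length ≤ n) (hK : K.length ≤ n) :
    ∃ ρ, Go G (endV u) (st [X, W, s, [], [], [], [], [], [], e, P, P2, ones m, cc b1, [], K, cc b2, [], [], []])
      (24 * n + 30 + T) ρ ∧
      (ρ 0 ≠ [] ↔ (m = 0 ∧ ((τ 0 ≠ [] ∧ b2 = true) ∨ b1 = true))) := by
  rw [init2_eq] at hu
  rcases m with _ | m
  · rcases b1 with - | -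
    · have hpre := go_preP (G := G) (X := X) (W := W) (P := P) (P2 := P2) (K := K) hs he hP hP2 hK
      rcases b2 with - | -
      · refine ⟨_, (Go.take_nil rfl (Go.take_nil rfl (Go.take_nil rfl go_rejP))).mono
          (by omega), ?_⟩
        simp [st]
      · refine ⟨τ, (Go.take_nil rfl (Go.take_nil rfl (Go.take_true (by simp) rfl
          (hpre.seq hu)))).mono (by omega), ?_⟩
        simp
    · refine ⟨_, (Go.take_nil rfl (Go.take_true (by simp) rfl go_accP)).mono
          (by omega), ?_⟩
      simp [st]
  · refine ⟨_, (Go.take_true (by simp) rfl go_rejP).mono (by omega), ?_⟩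
    simp [st]

/-- The verifier. -/
def verP (u : Prog) : Prog := .seq (.seq psA (.seq (.take 0 .nop .nop (.put 10 true)) (.seq (.take 0 .nop .nop (.put 11 true)) (.seq (.copy 15 4) (.seq (.each 4 ptBody ptBody) chk))))) (endV u)

theorem go_verP {u : Prog} {T n : ℕ} {τ : Store} {z : List Bool} (hn : z.length ≤ n)
    (hu : Go G u (init2 (unary (payload z)).2 (W.drop (unary z).1)) T τ) :
    ∃ ρ, Go G (verP u) (init2 z W) (100 * n * n + 450 * n + 300 + T) ρ ∧
      (ρ 0 ≠ [] ↔ (ct G (pt (unary z).1 W) = ((unary z).2.tail.tail).take (3 * (unary z).1) ∧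
        ((τ 0 ≠ [] ∧ al G (pt (unary z).1 W) ≠ (unary z).2.headD false) ∨
          be G (pt (unary z).1 W) ≠ (unary z).2.tail.headD false))) := by
  have hz := unary_le z
  rw [payload] at hu
  rw [init2_eq]
  have g1 : Go G psA (st [z, W, [], [], [], [], [], [], [], [], [], [], [], [], [], [], [], [], [], []])
      (7 * z.length + 8)
      (st [(unary z).2, W, [], [], [], [], [], [], [], [], [], [], [], [], [], ones (unary z).1, [], [], [], []]) := go_psA z
  obtain ⟨k, hk'⟩ : ∃ k, (unary z).1 = k := ⟨_, rfl⟩
  obtain ⟨r, hr⟩ : ∃ r, (unary z).2 = r := ⟨_, rfl⟩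
  rw [hr, hk'] at g1 hu hz ⊢
  have g2 : Go G (.take 0 .nop .nop (.put 10 true)) (st [r, W, [], [], [], [], [], [], [], [], [], [], [], [], [], ones k, [], [], [], []])
      (2)
      (st [r.tail, W, [], [], [], [], [], [], [], [], cc (r.headD false), [], [], [], [], ones k, [], [], [], []]) := go_h10
  have g3 : Go G (.take 0 .nop .nop (.put 11 true)) (st [r.tail, W, [], [], [], [], [], [], [], [], cc (r.headD false), [], [], [], [], ones k, [], [], [], []])
      (2)
      (st [r.tail.tail, W, [], [], [], [], [], [], [], [], cc (r.headD false), cc (r.tail.headD false), [], [], [], ones k, [], [], [], []]) := go_h11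
  obtain ⟨X, hXr⟩ : ∃ X, r.tail.tail = X := ⟨_, rfl⟩
  obtain ⟨p, hp⟩ : ∃ p, r.headD false = p := ⟨_, rfl⟩
  obtain ⟨p', hp'⟩ : ∃ p', r.tail.headD false = p' := ⟨_, rfl⟩
  have hXl : X.length ≤ r.length := by rw [← hXr]; simp only [List.length_tail]; omega
  have hk : k ≤ n := by omega
  have hX : X.length ≤ n := by omega
  rw [hXr, hp, hp'] at g3
  rw [hp] at g2
  rw [hXr] at hu ⊢
  rw [hp, hp']
  have g4 : Go G (.copy 15 4) (st [X, W, [], [], [], [], [], [], [], [], cc p, cc p', [], [], [], ones k, [], [], [], []])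
      ((ones k : List Bool).length + 1)
      (st [X, W, [], [], ones k, [], [], [], [], [], cc p, cc p', [], [], [], ones k, [], [], [], []]) := Go.copy (by simp)
  have g5 : Go G (.each 4 ptBody ptBody) (st [X, W, [], [], ones k, [], [], [], [], [], cc p, cc p', [], [], [], ones k, [], [], [], []])
      (4 * (ones k).length + 1)
      (st [X, W.drop (ones k).length, [] ++ pt (ones k).length W, [], [], [], [], [], [], [], cc p, cc p', [], [], [], ones k, [], [], [], []]) := go_pt (ones k)
  rw [List.nil_append, ones, List.length_replicate] at g5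
  obtain ⟨s, hs'⟩ : ∃ s, pt k W = s := ⟨_, rfl⟩
  have hs : s.length = k := by rw [← hs', length_pt]
  rw [hs'] at g5 ⊢
  have g6 : Go G chk (st [X, W.drop k, s, [], [], [], [], [], [], [], cc p, cc p', [], [], [], ones k, [], [], [], []])
      (100 * n * n + 400 * n + 200)
      (st [X, W.drop k, s, [], [], [], [], [], [], X.drop (3 * k), cc p, cc p', ones (mm (ct G s) X), cc (xor (be G s) p'), [], ones k, cc (xor (al G s) p), [], [], []]) := go_chk p p' hs hk hX
  have hdl : (X.drop (3 * k)).length ≤ n := by simp only [List.length_drop]; omega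
  have h1 := cc_length p
  have h2 := cc_length p'
  obtain ⟨ρ, g7, h3⟩ := go_endV (G := G) (X := X) (W := W.drop k) (P := cc p) (P2 := cc p')
    (K := ones k) (n := n + 1) (mm (ct G s) X) (xor (be G s) p') (xor (al G s) p) hu
    (by omega) (by omega) (by omega) (by omega) (by omega) (by simp [ones]; omega) (s := s)
  refine ⟨ρ, ((g1.seq (g2.seq (g3.seq (g4.seq (g5.seq g6))))).seq g7).mono ?_, ?_⟩
  · clear g7 g6 g5 g4 g3 g2 g1
    simp only [ones, List.length_replicate]
    generalize n * n = N2
    ring_nf
    omega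
  · rw [h3, mm_eq_zero]
    have h4 : (ct G s).length = 3 * k := by rw [ct, length_rd, hs]
    rw [h4]
    simp

end Pool.Agent.L0h34.RO
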